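import Mathlib

set_option autoImplicit false
open scoped TensorProduct

namespace Pool.Agent.Helper807.NF

/-- coordinates `(w, x, y, z)` : `w` on the radical line, `x i` on the eigenlines,
`(y i, z i)` on the planes -/
abbrev VV (k : Type) := k × (Fin 3 → k) × (Fin 3 → k) × (Fin 3 → k)

section defs
variable {k : Type} [CommRing k]

def lam (i : Fin 3) : k := ((i : ℕ) : k) + 2

def dd (i : Fin 3) : k := if i = 0 then -1 else if i = 1 then 17 else -17

def th (v : VV k) : VV k :=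
  (v.1, fun i => lam i * v.2.1 i, fun i => dd i * v.2.2.2 i, fun i => v.2.2.1 i)

def be (τ : Fin 3 → k) (v w : VV k) : Fin 3 → k :=
  fun i => v.2.2.1 i * w.2.2.2 i - v.2.2.2 i * w.2.2.1 i
    + τ i * (v.2.1 (i+1) * w.2.1 (i+2) - v.2.1 (i+2) * w.2.1 (i+1))

def thL : VV k →ₗ[k] VV k where
  toFun := th
  map_add' v w := by
    ext i <;> simp [th] <;> ring
  map_smul' c v := by
    ext i <;> simp [th] <;> ring

@[simp] lemma thL_apply (v : VV k) : thL v = th v := rfl

lemma th_add (v w : VV k) : th (v + w) = th v + th w := map_add thL v w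
lemma th_sub (v w : VV k) : th (v - w) = th v - th w := map_sub thL v w
lemma th_neg (v : VV k) : th (-v) = - th v := map_neg thL v
lemma th_smul (c : k) (v : VV k) : th (c • v) = c • th v := map_smul thL c v
lemma th_zero : th (0 : VV k) = 0 := map_zero (thL : VV k →ₗ[k] VV k)

lemma be_add_left (τ : Fin 3 → k) (u v w : VV k) : be τ (u + v) w = be τ u w + be τ v w := by
  ext i; simp [be]; ring
lemma be_add_right (τ : Fin 3 → k) (u v w : VV k) : be τ u (v + w) = be τ u v + be τ u w := by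
  ext i; simp [be]; ring
lemma be_smul_left (τ : Fin 3 → k) (c : k) (v w : VV k) : be τ (c • v) w = c • be τ v w := by
  ext i; simp [be]; ring
lemma be_smul_right (τ : Fin 3 → k) (c : k) (v w : VV k) : be τ v (c • w) = c • be τ v w := by
  ext i; simp [be]; ring
lemma be_self (τ : Fin 3 → k) (v : VV k) : be τ v v = 0 := by
  ext i; simp [be]; ring
lemma be_zero_left (τ : Fin 3 → k) (v : VV k) : be τ 0 v = 0 := by
  ext i; simp [be]
lemma be_zero_right (τ : Fin 3 → k) (v : VV k) : be τ v 0 = 0 := by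
  ext i; simp [be]
lemma be_skew (τ : Fin 3 → k) (v w : VV k) : be τ v w = - be τ w v := by
  ext i; simp [be]; ring

end defs

/-- the nilpotent Lie algebra -/
@[ext] structure LL (k : Type) (τ : Fin 3 → k) where
  a : k
  b : k
  v : VV k
  v1 : VV k
  v2 : VV k
  z : Fin 3 → k

namespace LL
variable {k : Type} {τ : Fin 3 → k}

def eqv : LL k τ ≃ (k × k × VV k × VV k × VV k × (Fin 3 → k)) where
  toFun X := (X.a, X.b, X.v, X.v1, X.v2, X.z)
  invFun p := ⟨p.1, p.2.1, p.2.2.1, p.2.2.2.1, p.2.2.2.2.1, p.2.2.2.2.2⟩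
  left_inv _ := rfl
  right_inv _ := rfl

variable [CommRing k]

instance : AddCommGroup (LL k τ) := eqv.addCommGroup
instance : Module k (LL k τ) := eqv.module k

@[simp] lemma add_a (X Y : LL k τ) : (X + Y).a = X.a + Y.a := rfl
@[simp] lemma add_b (X Y : LL k τ) : (X + Y).b = X.b + Y.b := rfl
@[simp] lemma add_v (X Y : LL k τ) : (X + Y).v = X.v + Y.v := rfl
@[simp] lemma add_v1 (X Y : LL k τ) : (X + Y).v1 = X.v1 + Y.v1 := rfl
@[simp] lemma add_v2 (X Y : LL k τ) : (X + Y).v2 = X.v2 + Y.v2 := rfl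
@[simp] lemma add_z (X Y : LL k τ) : (X + Y).z = X.z + Y.z := rfl
@[simp] lemma sub_a (X Y : LL k τ) : (X - Y).a = X.a - Y.a := rfl
@[simp] lemma sub_b (X Y : LL k τ) : (X - Y).b = X.b - Y.b := rfl
@[simp] lemma sub_v (X Y : LL k τ) : (X - Y).v = X.v - Y.v := rfl
@[simp] lemma sub_v1 (X Y : LL k τ) : (X - Y).v1 = X.v1 - Y.v1 := rfl
@[simp] lemma sub_v2 (X Y : LL k τ) : (X - Y).v2 = X.v2 - Y.v2 := rfl
@[simp] lemma sub_z (X Y : LL k τ) : (X - Y).z = X.z - Y.z := rfl
@[simp] lemma neg_a (X : LL k τ) : (-X).a = -X.a := rfl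
@[simp] lemma neg_b (X : LL k τ) : (-X).b = -X.b := rfl
@[simp] lemma neg_v (X : LL k τ) : (-X).v = -X.v := rfl
@[simp] lemma neg_v1 (X : LL k τ) : (-X).v1 = -X.v1 := rfl
@[simp] lemma neg_v2 (X : LL k τ) : (-X).v2 = -X.v2 := rfl
@[simp] lemma neg_z (X : LL k τ) : (-X).z = -X.z := rfl
@[simp] lemma zero_a : (0 : LL k τ).a = 0 := rfl
@[simp] lemma zero_b : (0 : LL k τ).b = 0 := rfl
@[simp] lemma zero_v : (0 : LL k τ).v = 0 := rfl
@[simp] lemma zero_v1 : (0 : LL k τ).v1 = 0 := rfl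
@[simp] lemma zero_v2 : (0 : LL k τ).v2 = 0 := rfl
@[simp] lemma zero_z : (0 : LL k τ).z = 0 := rfl
@[simp] lemma smul_a (c : k) (X : LL k τ) : (c • X).a = c * X.a := rfl
@[simp] lemma smul_b (c : k) (X : LL k τ) : (c • X).b = c * X.b := rfl
@[simp] lemma smul_v (c : k) (X : LL k τ) : (c • X).v = c • X.v := rfl
@[simp] lemma smul_v1 (c : k) (X : LL k τ) : (c • X).v1 = c • X.v1 := rfl
@[simp] lemma smul_v2 (c : k) (X : LL k τ) : (c • X).v2 = c • X.v2 := rfl
@[simp] lemma smul_z (c : k) (X : LL k τ) : (c • X).z = c • X.z := rfl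

instance : Bracket (LL k τ) (LL k τ) where
  bracket X Y := ⟨0, 0, 0, X.a • Y.v - Y.a • X.v,
    X.a • Y.v1 - Y.a • X.v1 + X.b • th Y.v - Y.b • th X.v, be τ X.v Y.v⟩

@[simp] lemma br_a (X Y : LL k τ) : ⁅X, Y⁆.a = 0 := rfl
@[simp] lemma br_b (X Y : LL k τ) : ⁅X, Y⁆.b = 0 := rfl
@[simp] lemma br_v (X Y : LL k τ) : ⁅X, Y⁆.v = 0 := rfl
@[simp] lemma br_v1 (X Y : LL k τ) : ⁅X, Y⁆.v1 = X.a • Y.v - Y.a • X.v := rfl
@[simp] lemma br_v2 (X Y : LL k τ) : ⁅X, Y⁆.v2 =
    X.a • Y.v1 - Y.a • X.v1 + X.b • th Y.v - Y.b • th X.v := rfl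
@[simp] lemma br_z (X Y : LL k τ) : ⁅X, Y⁆.z = be τ X.v Y.v := rfl

instance : LieRing (LL k τ) where
  add_lie X Y W := by
    apply LL.ext <;> simp [th_add, be_add_left, add_smul, smul_add] <;> abel
  lie_add X Y W := by
    apply LL.ext <;> simp [th_add, be_add_right, add_smul, smul_add] <;> abel
  lie_self X := by
    apply LL.ext <;> simp [be_self]
  leibniz_lie X Y W := by
    apply LL.ext <;> simp [be_zero_left, be_zero_right, th_zero, smul_sub, smul_smul, mul_comm]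

instance : LieAlgebra k (LL k τ) where
  lie_smul c X Y := by
    apply LL.ext <;>
      simp [th_smul, be_smul_right, smul_sub, smul_add, smul_smul, mul_comm]

end LL

end Pool.Agent.Helper807.NF
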