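import Mathlib

set_option autoImplicit false
open scoped TensorProduct

namespace Pool.Agent.Helper807.NF

section
variable {L N : Type} [LieRing L] [LieAlgebra ℝ L] [LieRing N] [LieAlgebra ℚ N]
  (Φ : L ≃ₗ⁅ℝ⁆ ℝ ⊗[ℚ] N)

noncomputable def jj (x : N) : L := Φ.symm (1 ⊗ₜ x)

noncomputable def PP (l : ℝ →ₗ[ℚ] ℚ) (X : L) : N := TensorProduct.lid ℚ N (l.rTensor N (Φ X))

lemma Phi_jj (x : N) : Φ (jj Φ x) = 1 ⊗ₜ x := by simp [jj]

lemma jj_add (x y : N) : jj Φ (x + y) = jj Φ x + jj Φ y := by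
  simp [jj, TensorProduct.tmul_add]
lemma jj_sub (x y : N) : jj Φ (x - y) = jj Φ x - jj Φ y := by
  simp [jj, TensorProduct.tmul_sub]
lemma jj_neg (x : N) : jj Φ (-x) = - jj Φ x := by
  simp [jj, TensorProduct.tmul_neg]
lemma jj_zero : jj Φ 0 = 0 := by
  simp [jj]
lemma jj_smul (q : ℚ) (x : N) : jj Φ (q • x) = (q : ℝ) • jj Φ x := by
  simp only [jj]
  rw [← TensorProduct.smul_tmul, ← map_smul, TensorProduct.smul_tmul']
  congr 2
lemma jj_lie (x y : N) : jj Φ ⁅x, y⁆ = ⁅jj Φ x, jj Φ y⁆ := by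
  simp only [jj]
  rw [← LieEquiv.map_lie, LieAlgebra.ExtendScalars.bracket_tmul, one_mul]
lemma jj_sum {ι : Type} (s : Finset ι) (f : ι → N) : jj Φ (∑ i ∈ s, f i) = ∑ i ∈ s, jj Φ (f i) := by
  classical
  induction s using Finset.induction_on with
  | empty => simp [jj_zero]
  | insert a s ha ih => rw [Finset.sum_insert ha, Finset.sum_insert ha, jj_add, ih]

lemma PP_add (l : ℝ →ₗ[ℚ] ℚ) (X Y : L) : PP Φ l (X + Y) = PP Φ l X + PP Φ l Y := by
  simp [PP]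
lemma PP_sub (l : ℝ →ₗ[ℚ] ℚ) (X Y : L) : PP Φ l (X - Y) = PP Φ l X - PP Φ l Y := by
  simp [PP]
lemma PP_zero (l : ℝ →ₗ[ℚ] ℚ) : PP Φ l 0 = 0 := by
  simp [PP]
lemma PP_smul_jj (l : ℝ →ₗ[ℚ] ℚ) (r : ℝ) (x : N) : PP Φ l (r • jj Φ x) = l r • x := by
  simp only [PP, map_smul, Phi_jj, TensorProduct.smul_tmul']
  simp
lemma PP_sum {ι : Type} (l : ℝ →ₗ[ℚ] ℚ) (s : Finset ι) (f : ι → L) :
    PP Φ l (∑ i ∈ s, f i) = ∑ i ∈ s, PP Φ l (f i) := by
  classical
  induction s using Finset.induction_on with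
  | empty => simp [PP_zero]
  | insert a s ha ih => rw [Finset.sum_insert ha, Finset.sum_insert ha, PP_add, ih]

lemma ind {C : L → Prop} (h0 : C 0) (hadd : ∀ X Y, C X → C Y → C (X + Y))
    (h : ∀ (r : ℝ) (x : N), C (r • jj Φ x)) (X : L) : C X := by
  have key : ∀ T : ℝ ⊗[ℚ] N, C (Φ.symm T) := by
    intro T
    induction T using TensorProduct.induction_on with
    | zero => simpa using h0
    | tmul r x =>
      have := h r x
      have e : r • jj Φ x = Φ.symm (r ⊗ₜ x) := by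
        simp only [jj]
        rw [← map_smul, TensorProduct.smul_tmul']; simp
      rwa [e] at this
    | add S T hS hT => rw [map_add]; exact hadd _ _ hS hT
  simpa using key (Φ X)

lemma PP_lie (l : ℝ →ₗ[ℚ] ℚ) (X : L) (y : N) : PP Φ l ⁅X, jj Φ y⁆ = ⁅PP Φ l X, y⁆ := by
  induction X using ind Φ with
  | h0 => simp [PP_zero]
  | hadd X Y hX hY => rw [add_lie, PP_add, PP_add, hX, hY, add_lie]
  | h r x => rw [smul_lie, ← jj_lie, PP_smul_jj, PP_smul_jj, smul_lie]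

lemma PP_lie' (l : ℝ →ₗ[ℚ] ℚ) (X : L) (y : N) : PP Φ l ⁅jj Φ y, X⁆ = ⁅y, PP Φ l X⁆ := by
  induction X using ind Φ with
  | h0 => simp [PP_zero]
  | hadd X Y hX hY => rw [lie_add, PP_add, PP_add, hX, hY, lie_add]
  | h r x => rw [lie_smul, ← jj_lie, PP_smul_jj, PP_smul_jj, lie_smul]

lemma smul_jj (r : ℝ) (x : N) : r • jj Φ x = Φ.symm (r ⊗ₜ x) := by
  simp only [jj]
  rw [← map_smul, TensorProduct.smul_tmul']; simp

lemma mem_of_PP (S : Submodule ℝ L) (X : L) (h : ∀ l, jj Φ (PP Φ l X) ∈ S) : X ∈ S := by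
  classical
  obtain ⟨⟨ι, B⟩⟩ := Module.Free.exists_basis (R := ℚ) (M := ℝ)
  have h1 : (TensorProduct.equivFinsuppOfBasisLeft B).symm
      (TensorProduct.equivFinsuppOfBasisLeft B (Φ X)) = Φ X := LinearEquiv.symm_apply_apply _ _
  rw [TensorProduct.equivFinsuppOfBasisLeft_symm_apply] at h1
  have h2 : X = Φ.symm (Φ X) := by simp
  rw [h2, ← h1, Finsupp.sum, map_sum]
  apply Submodule.sum_mem
  intro i _
  rw [← smul_jj]
  apply Submodule.smul_mem
  have := h (B.coord i)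
  rwa [PP, ← TensorProduct.equivFinsuppOfBasisLeft_apply] at this

lemma dense (S : Submodule ℝ L) (h : ∀ x, jj Φ x ∈ S) (X : L) : X ∈ S :=
  mem_of_PP Φ S X fun _ => h _

lemma dense_lin {M : Type} [AddCommGroup M] [Module ℝ M] (f : L →ₗ[ℝ] M)
    (h : ∀ x, f (jj Φ x) = 0) (X : L) : f X = 0 :=
  dense Φ (LinearMap.ker f) (fun x => by simpa using h x) X

lemma PP_smul_rat (l : ℝ →ₗ[ℚ] ℚ) (q : ℚ) (X : L) : PP Φ l ((q : ℝ) • X) = q • PP Φ l X := by
  induction X using ind Φ with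
  | h0 => simp [PP_zero]
  | hadd X Y hX hY => rw [smul_add, PP_add, PP_add, hX, hY, smul_add]
  | h r x =>
    rw [smul_smul, PP_smul_jj, PP_smul_jj, smul_smul]
    congr 1
    have := l.map_smul q r
    rw [Algebra.smul_def] at this
    simpa using this

/-- a functional with value one at one -/
lemma exists_l : ∃ l : ℝ →ₗ[ℚ] ℚ, ∀ q : ℚ, l (q : ℝ) = q := by
  obtain ⟨g, hg⟩ := LinearMap.exists_leftInverse_of_injective (Algebra.linearMap ℚ ℝ)
    (LinearMap.ker_eq_bot.2 (algebraMap ℚ ℝ).injective)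
  refine ⟨g, fun q => ?_⟩
  have := congrArg (fun f => f q) hg
  simpa using this

end

end Pool.Agent.Helper807.NF
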