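import Pool.Agent.Helper807.NF.NT

set_option autoImplicit false

namespace Pool.Agent.Helper807.NF

instance fact17 : Fact (Nat.Prime 17) := ⟨by norm_num⟩

def gg (p : ℕ) : ℤ := if p % 4 = 3 ∧ legendreSym 17 p = -1 then -1 else 1

lemma gg_sq (p : ℕ) : gg p * gg p = 1 := by
  unfold gg; split_ifs <;> norm_num

def ff (n : ℕ) : ℤ := (n.primeFactorsList.map gg).prod

lemma ff_mul {m n : ℕ} (hm : m ≠ 0) (hn : n ≠ 0) : ff (m * n) = ff m * ff n := by
  unfold ff
  rw [((Nat.perm_primeFactorsList_mul hm hn).map gg).prod_eq]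
  simp

lemma ff_prime {p : ℕ} (hp : p.Prime) : ff p = gg p := by
  unfold ff; rw [Nat.primeFactorsList_prime hp]; simp

lemma ff_sq_one {m : ℕ} : ff m * ff m = 1 := by
  unfold ff
  induction m.primeFactorsList with
  | nil => simp
  | cons a l ih =>
    simp only [List.map_cons, List.prod_cons]
    calc _ = (gg a * gg a) * ((List.map gg l).prod * (List.map gg l).prod) := by ring
      _ = 1 := by rw [gg_sq, ih]; norm_num

lemma ff_eq_one {n : ℕ} (h : ∀ p : ℕ, p.Prime → p ∣ n → gg p = 1) : ff n = 1 := by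
  unfold ff
  apply List.prod_eq_one
  intro x hx
  obtain ⟨p, hp, rfl⟩ := List.mem_map.1 hx
  exact h p (Nat.prime_of_mem_primeFactorsList hp) (Nat.dvd_of_mem_primeFactorsList hp)

lemma dvd_both (p : ℕ) (hp : p.Prime) (d a b : ℤ) (hd : ¬ IsSquare ((d : ℤ) : ZMod p))
    (h : (p : ℤ) ∣ a^2 - d * b^2) : (p : ℤ) ∣ a ∧ (p : ℤ) ∣ b := by
  haveI := Fact.mk hp
  have h' : ((a : ZMod p))^2 - d * (b : ZMod p)^2 = 0 := by
    have := (ZMod.intCast_zmod_eq_zero_iff_dvd (a^2 - d*b^2) p).2 h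
    push_cast at this; exact this
  have hb : (b : ZMod p) = 0 := by
    by_contra hb
    apply hd
    refine ⟨(a : ZMod p) / b, ?_⟩
    field_simp
    linear_combination -h'
  have ha : (a : ZMod p) = 0 := by
    rw [hb] at h'
    have : (a : ZMod p)^2 = 0 := by linear_combination h'
    exact pow_eq_zero_iff (two_ne_zero) |>.1 this
  exact ⟨(ZMod.intCast_zmod_eq_zero_iff_dvd a p).1 ha, (ZMod.intCast_zmod_eq_zero_iff_dvd b p).1 hb⟩

lemma gg_neg {p : ℕ} (h : gg p ≠ 1) : p % 4 = 3 ∧ legendreSym 17 p = -1 := by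
  unfold gg at h
  split_ifs at h with h'
  · exact h'
  · exact absurd rfl h

lemma ns_neg_one {p : ℕ} (hp : p.Prime) (h : gg p ≠ 1) : ¬ IsSquare (((-1 : ℤ)) : ZMod p) := by
  haveI := Fact.mk hp
  push_cast
  rw [ZMod.exists_sq_eq_neg_one_iff]
  exact fun hh => hh (gg_neg h).1

lemma ns_17 {p : ℕ} (hp : p.Prime) (h : gg p ≠ 1) : ¬ IsSquare (((17 : ℤ)) : ZMod p) := by
  haveI := Fact.mk hp
  have h1 := (gg_neg h).1
  have h2 := (gg_neg h).2
  have hp2 : p ≠ 2 := by rintro rfl; norm_num at h1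
  rw [← legendreSym.eq_neg_one_iff]
  have := legendreSym.quadratic_reciprocity_one_mod_four (p := 17) (q := p) (by norm_num) hp2
  rw [h2] at this
  exact_mod_cast this

lemma ff_form (d : ℤ) (hd : ∀ p : ℕ, p.Prime → gg p ≠ 1 → ¬ IsSquare ((d : ℤ) : ZMod p)) :
    ∀ n : ℕ, ∀ a b : ℤ, (a^2 - d*b^2).natAbs = n → n ≠ 0 → ff n = 1 := by
  intro n
  induction n using Nat.strong_induction_on with
  | _ n ih =>
  intro a b hab hn
  by_cases hall : ∀ p : ℕ, p.Prime → p ∣ n → gg p = 1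
  · exact ff_eq_one hall
  push_neg at hall
  obtain ⟨p, hp, hpn, hg⟩ := hall
  have hdvd : (p : ℤ) ∣ a^2 - d*b^2 := by
    rw [← Int.natCast_dvd_natCast, ← hab] at hpn
    simpa using hpn
  obtain ⟨⟨a', rfl⟩, ⟨b', rfl⟩⟩ := dvd_both p hp d a b (hd p hp hg) hdvd
  have e : ((p : ℤ) * a')^2 - d * ((p:ℤ) * b')^2 = (p : ℤ) * p * (a'^2 - d*b'^2) := by ring
  rw [e, Int.natAbs_mul, Int.natAbs_mul, Int.natAbs_natCast] at hab
  set m := (a'^2 - d*b'^2).natAbs with hm
  have hm0 : m ≠ 0 := by rintro h; apply hn; rw [← hab, h]; simp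
  have hlt : m < n := by
    rw [← hab]
    have := hp.two_le
    have h4 : 4 ≤ p * p := by nlinarith
    have : 0 < m := Nat.pos_of_ne_zero hm0
    nlinarith
  have := ih m hlt a' b' hm.symm hm0
  rw [← hab, ff_mul (mul_ne_zero hp.ne_zero hp.ne_zero) hm0, this,
    ff_mul hp.ne_zero hp.ne_zero, ff_sq_one]
  norm_num

lemma ff_A (a b : ℤ) (h : a^2 + b^2 ≠ 0) : ff (a^2 + b^2).natAbs = 1 := by
  have := ff_form (-1) (fun p hp hg => ns_neg_one hp hg) _ a b rfl
    (by simpa [sub_neg_eq_add] using h)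
  simpa [sub_neg_eq_add] using this

lemma ff_B (a b : ℤ) (h : a^2 - 17 * b^2 ≠ 0) : ff (a^2 - 17 * b^2).natAbs = 1 :=
  ff_form 17 (fun p hp hg => ns_17 hp hg) _ a b rfl (by simpa using h)

lemma leg_two : legendreSym 17 2 = 1 := by
  rw [legendreSym.eq_one_iff]
  · exact ⟨6, by decide⟩
  · decide

lemma leg_sq_one (a : ℤ) (h : ¬ (17 : ℤ) ∣ a) (m : ℤ) (hm : (17 : ℤ) ∣ m - a^2) :
    legendreSym 17 m = 1 := by
  have h0 : ((m : ℤ) : ZMod 17) = (a : ZMod 17)^2 := by
    have := (ZMod.intCast_zmod_eq_zero_iff_dvd (m - a^2) 17).2 (by exact_mod_cast hm)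
    push_cast at this; linear_combination this
  have ha : (a : ZMod 17) ≠ 0 := by
    intro hh; apply h
    exact_mod_cast (ZMod.intCast_zmod_eq_zero_iff_dvd a 17).1 hh
  rw [legendreSym.eq_one_iff _ (by rw [h0]; exact pow_ne_zero _ ha)]
  exact ⟨a, by rw [h0]; ring⟩

lemma gg_eq_leg {p : ℕ} (hp : p.Prime) (h17 : p ≠ 17) (a b : ℤ) (hab : IsCoprime a b)
    (h : (p : ℤ) ∣ a^2 + 17 * b^2) : gg p = legendreSym 17 p := by
  haveI := Fact.mk hp
  by_cases h2 : p = 2
  · subst h2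
    have : gg 2 = 1 := by unfold gg; rw [if_neg]; norm_num
    rw [this]; exact leg_two.symm
  have hb : ¬ (p : ℤ) ∣ b := by
    intro hb
    have ha : (p : ℤ) ∣ a := by
      have : (p : ℤ) ∣ a^2 := by
        have : a^2 = (a^2 + 17*b^2) - b * (17 * b) := by ring
        rw [this]; exact dvd_sub h (Dvd.dvd.mul_right hb _)
      exact Int.Prime.dvd_pow' hp this
    have := hab.isUnit_of_dvd' ha hb
    rw [Int.isUnit_iff] at this
    have := hp.two_le
    omega
  have hb' : (b : ZMod p) ≠ 0 := by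
    intro hh; exact hb ((ZMod.intCast_zmod_eq_zero_iff_dvd b p).1 hh)
  have h' : ((a : ZMod p))^2 + 17 * (b : ZMod p)^2 = 0 := by
    have := (ZMod.intCast_zmod_eq_zero_iff_dvd (a^2 + 17*b^2) p).2 h
    push_cast at this; exact this
  have h170 : ((17 : ℤ) : ZMod p) ≠ 0 := by
    intro hh
    have := (ZMod.intCast_zmod_eq_zero_iff_dvd 17 p).1 hh
    have : p ∣ 17 := by exact_mod_cast this
    exact h17 ((Nat.prime_dvd_prime_iff_eq hp (by norm_num)).1 this)
  have hsq : legendreSym p (-17) = 1 := by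
    rw [legendreSym.eq_one_iff]
    · refine ⟨(a : ZMod p) / b, ?_⟩
      push_cast
      field_simp
      linear_combination -h'
    · intro hh; apply h170; push_cast at hh ⊢; simpa using hh
  have hmul : legendreSym p (-1 * 17) = legendreSym p (-1) * legendreSym p 17 :=
    legendreSym.mul p (-1) 17
  have hqr := legendreSym.quadratic_reciprocity_one_mod_four (p := 17) (q := p) (by norm_num) h2
  have hqr' : legendreSym p 17 = legendreSym 17 p := by exact_mod_cast hqr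
  rw [hqr', legendreSym.at_neg_one h2, show (-1 * 17 : ℤ) = -17 by norm_num, hsq] at hmul
  have hodd : p % 4 = 1 ∨ p % 4 = 3 := by
    have := hp.eq_two_or_odd
    omega
  rcases hodd with h4 | h4
  · rw [ZMod.χ₄_nat_one_mod_four h4] at hmul
    unfold gg
    rw [if_neg (by omega)]
    linarith
  · rw [ZMod.χ₄_nat_three_mod_four h4] at hmul
    have : legendreSym 17 p = -1 := by linarith
    unfold gg
    rw [if_pos ⟨h4, this⟩, this]

lemma ff_eq_leg : ∀ (l : List ℕ), (∀ p ∈ l, gg p = legendreSym 17 p) →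
    (l.map gg).prod = legendreSym 17 (l.prod : ℕ) := by
  intro l
  induction l with
  | nil => intro _; simp
  | cons a l ih =>
    intro h
    simp only [List.map_cons, List.prod_cons]
    rw [ih (fun p hp => h p (List.mem_cons_of_mem _ hp)), h a List.mem_cons_self]
    push_cast
    rw [legendreSym.mul]

lemma ff_C0 (a b : ℤ) (hab : IsCoprime a b) (M : ℕ) (hM : M ≠ 0) (h17 : ¬ 17 ∣ M)
    (hd : (M : ℤ) ∣ a^2 + 17*b^2) (c : ℤ) (hc : ¬ (17:ℤ) ∣ c) (hMc : (17 : ℤ) ∣ M - c^2) :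
    ff M = 1 := by
  have h := ff_eq_leg M.primeFactorsList (by
    intro p hp
    have hpp := Nat.prime_of_mem_primeFactorsList hp
    have hpd := Nat.dvd_of_mem_primeFactorsList hp
    apply gg_eq_leg hpp _ a b hab
    · exact dvd_trans (by exact_mod_cast hpd) hd
    · rintro rfl; exact h17 hpd)
  rw [Nat.prod_primeFactorsList hM] at h
  unfold ff
  rw [h]
  exact leg_sq_one c hc _ hMc

lemma ff_C1 (a b : ℤ) (hab : IsCoprime a b) : ff (a^2 + 17*b^2).natAbs = 1 := by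
  have hnn : 0 ≤ a^2 + 17*b^2 := by positivity
  have hpos : a^2 + 17 * b^2 ≠ 0 := by
    intro h
    have ha : a = 0 := by nlinarith [sq_nonneg a, sq_nonneg b]
    have hb : b = 0 := by nlinarith [sq_nonneg a, sq_nonneg b]
    subst ha hb
    obtain ⟨u, v, huv⟩ := hab
    simp at huv
  have hp17 : Prime (17 : ℤ) := by
    have := Nat.prime_iff_prime_int.1 (show Nat.Prime 17 by norm_num)
    exact_mod_cast this
  by_cases h : (17 : ℤ) ∣ a
  · obtain ⟨a', rfl⟩ := h
    have hb : ¬ (17 : ℤ) ∣ b := by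
      intro hb
      have := hab.isUnit_of_dvd' (Dvd.intro _ rfl) hb
      rw [Int.isUnit_iff] at this
      omega
    have e : (17 * a')^2 + 17 * b^2 = 17 * (17 * a'^2 + b^2) := by ring
    set m := 17 * a'^2 + b^2 with hm
    have hm0 : m ≠ 0 := by rintro h0; apply hpos; rw [e, h0]; ring
    have hmnn : 0 ≤ m := by positivity
    rw [e, Int.natAbs_mul]
    have hmn : m.natAbs ≠ 0 := by simpa using hm0
    rw [ff_mul (by norm_num) hmn]
    have hmc : ((m.natAbs : ℕ) : ℤ) = m := Int.natAbs_of_nonneg hmnn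
    have hm17 : ¬ (17 : ℤ) ∣ m := by
      intro hh
      apply hb
      have : (17 : ℤ) ∣ b^2 := by
        have e2 : b^2 = m - 17 * a'^2 := by rw [hm]; ring
        rw [e2]; exact dvd_sub hh (Dvd.intro _ rfl)
      exact hp17.dvd_of_dvd_pow this
    have h1 : ff m.natAbs = 1 := by
      apply ff_C0 (17 * a') b hab m.natAbs hmn _ _ b hb
      · rw [hmc, hm]; exact ⟨a'^2, by ring⟩
      · intro hh; apply hm17; rw [← hmc]; exact_mod_cast hh
      · rw [hmc, e]; exact Dvd.intro_left _ rfl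
    have h2 : ff (Int.natAbs 17) = 1 := by
      show ff 17 = 1
      rw [ff_prime (by norm_num)]
      unfold gg; rw [if_neg]; norm_num
    rw [h1, h2]; norm_num
  · have hmc : (((a^2 + 17*b^2).natAbs : ℕ) : ℤ) = a^2 + 17*b^2 := Int.natAbs_of_nonneg hnn
    apply ff_C0 a b hab _ (by simpa using hpos) _ _ a h
    · rw [hmc]; exact ⟨b^2, by ring⟩
    · intro hh
      have hh' : (17 : ℤ) ∣ a^2 + 17*b^2 := by rw [← hmc]; exact_mod_cast hh
      apply h
      have : (17 : ℤ) ∣ a^2 := by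
        have e2 : a^2 = (a^2 + 17*b^2) - 17 * b^2 := by ring
        rw [e2]; exact dvd_sub hh' (Dvd.intro _ rfl)
      exact hp17.dvd_of_dvd_pow this
    · rw [hmc]

lemma ff_C (a b : ℤ) (h : a^2 + 17 * b^2 ≠ 0) : ff (a^2 + 17 * b^2).natAbs = 1 := by
  have hab : Int.gcd a b ≠ 0 := by
    intro hh
    rw [Int.gcd_eq_zero_iff] at hh
    apply h; rw [hh.1, hh.2]; ring
  obtain ⟨a', b', hco, ha, hb⟩ := Int.exists_gcd_one (m := a) (n := b) (Nat.pos_of_ne_zero hab)
  generalize hg : Int.gcd a b = g at *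
  have e : a^2 + 17 * b^2 = (g : ℤ) * (g : ℤ) * (a'^2 + 17*b'^2) := by
    rw [ha, hb]
    ring
  have hn : (a'^2 + 17*b'^2) ≠ 0 := by rintro h0; apply h; rw [e, h0]; ring
  rw [e, Int.natAbs_mul, Int.natAbs_mul, Int.natAbs_natCast,
    ff_mul (mul_ne_zero hab hab) (by simpa using hn), ff_mul hab hab, ff_sq_one,
    ff_C1 a' b' (Int.isCoprime_iff_gcd_eq_one.2 hco)]
  norm_num

lemma ff_three : ff 3 = -1 := by
  rw [ff_prime (by norm_num)]
  unfold gg
  rw [if_pos]
  refine ⟨by norm_num, ?_⟩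
  rw [legendreSym.eq_neg_one_iff]
  decide

lemma rat_pair (a b : ℚ) : ∃ (A B : ℤ) (m : ℕ), m ≠ 0 ∧ a = A / m ∧ b = B / m := by
  refine ⟨a.num * b.den, b.num * a.den, a.den * b.den,
    mul_ne_zero a.den_ne_zero b.den_ne_zero, ?_, ?_⟩
  · have h1 : (a.den : ℚ) ≠ 0 := by exact_mod_cast a.den_ne_zero
    have h2 : (b.den : ℚ) ≠ 0 := by exact_mod_cast b.den_ne_zero
    push_cast
    rw [mul_div_mul_right _ _ h2, Rat.num_div_den]
  · have h1 : (a.den : ℚ) ≠ 0 := by exact_mod_cast a.den_ne_zero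
    have h2 : (b.den : ℚ) ≠ 0 := by exact_mod_cast b.den_ne_zero
    push_cast
    rw [mul_comm (a.den : ℚ), mul_div_mul_right _ _ h1, Rat.num_div_den]

theorem not_GG_three (r : ℚ) (hr : r ≠ 0) : ¬ GG (3 * r^2) := by
  rintro ⟨h0, a, b, c, d, e, f, h⟩
  obtain ⟨A, B, m, hm, rfl, rfl⟩ := rat_pair a b
  obtain ⟨C, D, n, hn, rfl, rfl⟩ := rat_pair c d
  obtain ⟨E, F, k, hk, rfl, rfl⟩ := rat_pair e f
  have hm' : (m : ℚ) ≠ 0 := by exact_mod_cast hm
  have hn' : (n : ℚ) ≠ 0 := by exact_mod_cast hn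
  have hk' : (k : ℚ) ≠ 0 := by exact_mod_cast hk
  have hs' : (r.den : ℚ) ≠ 0 := by exact_mod_cast r.den_ne_zero
  rw [← Rat.num_div_den r] at h
  have hR : r.num ≠ 0 := by simpa using hr
  have key : (3 : ℤ) * (r.num * r.num) * ((m * m) * (n * n) * (k * k)) =
      (A^2+B^2) * (C^2 - 17 * D^2) * (E^2 + 17*F^2) * (r.den * r.den) := by
    have : ((3 : ℚ) * (r.num * r.num) * ((m * m) * (n * n) * (k * k))) =
      (A^2+B^2) * (C^2 - 17 * D^2) * (E^2 + 17*F^2) * (r.den * r.den) := by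
      field_simp at h
      linear_combination h
    exact_mod_cast this
  have hA : A^2 + B^2 ≠ 0 := by
    rintro h1; rw [h1] at key
    have : (3 : ℤ) * (r.num * r.num) * ((m * m) * (n * n) * (k * k)) ≠ 0 := by positivity
    apply this; rw [key]; ring
  have hC : C^2 - 17 * D^2 ≠ 0 := by
    rintro h1; rw [h1] at key
    have : (3 : ℤ) * (r.num * r.num) * ((m * m) * (n * n) * (k * k)) ≠ 0 := by positivity
    apply this; rw [key]; ring
  have hE : E^2 + 17 * F^2 ≠ 0 := by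
    rintro h1; rw [h1] at key
    have : (3 : ℤ) * (r.num * r.num) * ((m * m) * (n * n) * (k * k)) ≠ 0 := by positivity
    apply this; rw [key]; ring
  have key2 := congrArg Int.natAbs key
  simp only [Int.natAbs_mul, Int.natAbs_natCast] at key2
  have hR' : r.num.natAbs ≠ 0 := by simpa using hR
  have hA' : (A^2 + B^2).natAbs ≠ 0 := by simpa using hA
  have hC' : (C^2 - 17 * D^2).natAbs ≠ 0 := by simpa using hC
  have hE' : (E^2 + 17 * F^2).natAbs ≠ 0 := by simpa using hE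
  have h3 : Int.natAbs 3 = 3 := rfl
  rw [h3] at key2
  have hden := r.den_ne_zero
  have hmm : ∀ x : ℕ, x ≠ 0 → x * x ≠ 0 := fun x hx => mul_ne_zero hx hx
  have hsq : ∀ x : ℕ, x ≠ 0 → ff (x * x) = 1 := fun x hx => by rw [ff_mul hx hx, ff_sq_one]
  have key3 := congrArg ff key2
  rw [ff_mul (mul_ne_zero (by norm_num) (hmm _ hR')) (mul_ne_zero (mul_ne_zero (hmm _ hm) (hmm _ hn))
      (hmm _ hk)), ff_mul (by norm_num) (hmm _ hR'), hsq _ hR',
    ff_mul (mul_ne_zero (hmm _ hm) (hmm _ hn)) (hmm _ hk), ff_mul (hmm _ hm) (hmm _ hn),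
    hsq _ hm, hsq _ hn, hsq _ hk,
    ff_mul (mul_ne_zero (mul_ne_zero hA' hC') hE') (hmm _ hden), hsq _ hden,
    ff_mul (mul_ne_zero hA' hC') hE', ff_mul hA' hC', ff_A A B hA, ff_B C D hC, ff_C E F hE,
    ff_three] at key3
  norm_num at key3

end Pool.Agent.Helper807.NF
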