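import Pool.Agent.Helper807.NF.Alg
import Pool.Agent.Helper807.NF.NT2

set_option autoImplicit false
open scoped TensorProduct

namespace Pool.Agent.Helper807.NF

section Gm
variable {k : Type} [CommRing k]

def Gm (r α β : Fin 3 → k) : VV k →ₗ[k] VV k where
  toFun v := (v.1, fun i => r i * v.2.1 i, fun i => α i * v.2.2.1 i + dd i * β i * v.2.2.2 i,
    fun i => α i * v.2.2.2 i + β i * v.2.2.1 i)
  map_add' v w := by ext i <;> simp <;> ring
  map_smul' c v := by ext i <;> simp <;> ring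

lemma Gm_apply (r α β : Fin 3 → k) (v : VV k) : Gm r α β v =
  (v.1, fun i => r i * v.2.1 i, fun i => α i * v.2.2.1 i + dd i * β i * v.2.2.2 i,
    fun i => α i * v.2.2.2 i + β i * v.2.2.1 i) := rfl

lemma th_Gm (r α β : Fin 3 → k) (v : VV k) : th (Gm r α β v) = Gm r α β (th v) := by
  ext i <;> simp [th, Gm_apply] <;> ring

lemma be_Gm (r α β : Fin 3 → k) (τ τ' : Fin 3 → k)
    (h : ∀ i, τ' i * (r (i+1) * r (i+2)) = (α i ^ 2 - dd i * β i ^ 2) * τ i) (v w : VV k) :
    be τ' (Gm r α β v) (Gm r α β w) = fun i => (α i ^ 2 - dd i * β i ^ 2) * be τ v w i := by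
  ext i
  simp only [be, Gm_apply]
  linear_combination (v.2.1 (i+1) * w.2.1 (i+2) - v.2.1 (i+2) * w.2.1 (i+1)) * h i

def FF (r α β : Fin 3 → k) (τ τ' : Fin 3 → k)
    (h : ∀ i, τ' i * (r (i+1) * r (i+2)) = (α i ^ 2 - dd i * β i ^ 2) * τ i) :
    LL k τ →ₗ⁅k⁆ LL k τ' where
  toFun X := ⟨X.a, X.b, Gm r α β X.v, Gm r α β X.v1, Gm r α β X.v2,
    fun i => (α i ^ 2 - dd i * β i ^ 2) * X.z i⟩
  map_add' X Y := by
    apply LL.ext <;> simp
    ext i; simp; ring
  map_smul' c X := by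
    apply LL.ext <;> simp
    ext i; simp; ring
  map_lie' {X Y} := by
    apply LL.ext <;> simp [th_Gm, be_Gm r α β τ τ' h]

end Gm

lemma FF_bij {k : Type} [Field k] (r α β : Fin 3 → k) (τ τ' : Fin 3 → k)
    (h : ∀ i, τ' i * (r (i+1) * r (i+2)) = (α i ^ 2 - dd i * β i ^ 2) * τ i)
    (hr : ∀ i, r i ≠ 0) (hn : ∀ i, α i ^ 2 - dd i * β i ^ 2 ≠ 0) :
    Nonempty (LL k τ ≃ₗ⁅k⁆ LL k τ') := by
  have h' : ∀ i, τ i * ((r (i+1))⁻¹ * (r (i+2))⁻¹) =
      ((α i / (α i ^ 2 - dd i * β i ^ 2)) ^ 2 - dd i * (- β i / (α i ^ 2 - dd i * β i ^ 2)) ^ 2)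
        * τ' i := by
    intro i
    have h1 := hr (i+1)
    have h2 := hr (i+2)
    have h3 := hn i
    field_simp
    linear_combination -(h i)
  have hG : ∀ v : VV k, Gm (fun i => (r i)⁻¹) (fun i => α i / (α i ^ 2 - dd i * β i ^ 2))
      (fun i => - β i / (α i ^ 2 - dd i * β i ^ 2)) (Gm r α β v) = v := by
    intro v
    ext i
    · simp [Gm_apply]
    · have := hr i
      simp [Gm_apply]; field_simp
    · have := hn i
      simp [Gm_apply]; field_simp; ring
    · have := hn i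
      simp [Gm_apply]; field_simp; ring
  have hG' : ∀ v : VV k, Gm r α β (Gm (fun i => (r i)⁻¹) (fun i => α i / (α i ^ 2 - dd i * β i ^ 2))
      (fun i => - β i / (α i ^ 2 - dd i * β i ^ 2)) v) = v := by
    intro v
    ext i
    · simp [Gm_apply]
    · have := hr i
      simp [Gm_apply]; field_simp
    · have := hn i
      simp [Gm_apply]; field_simp; ring
    · have := hn i
      simp [Gm_apply]; field_simp; ring
  have hz : ∀ i, ((α i / (α i ^ 2 - dd i * β i ^ 2)) ^ 2 - dd i * (- β i / (α i ^ 2 - dd i * β i ^ 2)) ^ 2)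
      * (α i ^ 2 - dd i * β i ^ 2) = 1 := by
    intro i
    have := hn i
    field_simp
    try ring
  refine ⟨{ FF r α β τ τ' h with
    invFun := FF (fun i => (r i)⁻¹) (fun i => α i / (α i ^ 2 - dd i * β i ^ 2))
      (fun i => - β i / (α i ^ 2 - dd i * β i ^ 2)) τ' τ h'
    left_inv := ?_
    right_inv := ?_ }⟩
  · intro X
    apply LL.ext <;> simp [FF, hG]
    ext i
    rw [← mul_assoc]
    rw [hz i]; simp
  · intro X
    apply LL.ext <;> simp [FF, hG']
    ext i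
    rw [← mul_assoc, mul_comm (α i ^ 2 - dd i * β i ^ 2)]
    rw [hz i]; simp

end Pool.Agent.Helper807.NF
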