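import Pool.Agent.Helper807.NF.Desc
import Pool.Agent.Helper807.NF.Iso

set_option autoImplicit false
open scoped TensorProduct

namespace Pool.Agent.Helper807.NF

abbrev LR := LL ℝ (fun _ => (1 : ℝ))

def inH (X : LR) : Prop := X.a = 0
def inZ2 (X : LR) : Prop := X.a = 0 ∧ X.v = 0
def inC (X : LR) : Prop := X.a = 0 ∧ X.b = 0 ∧ X.v = 0
def inZ (X : LR) : Prop := X.a = 0 ∧ X.b = 0 ∧ X.v = 0 ∧ X.v1 = 0
def inV (X : LR) : Prop := X.a = 0 ∧ X.b = 0 ∧ X.v = 0 ∧ X.v1 = 0 ∧ X.z = 0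

noncomputable def e0 : VV ℝ := (1, 0, 0, 0)
noncomputable def pR : LR := ⟨1, 0, 0, 0, 0, 0⟩
noncomputable def qR : LR := ⟨0, 1, 0, 0, 0, 0⟩
noncomputable def vR (v : VV ℝ) : LR := ⟨0, 0, v, 0, 0, 0⟩

lemma br_pp (Y : LR) : ⁅⁅Y, pR⁆, pR⁆.v2 = Y.v := by
  show ((0:ℝ) • (0:VV ℝ) - (1:ℝ) • (Y.a • (0:VV ℝ) - (1:ℝ) • Y.v) + (0:ℝ) • th (0:VV ℝ)
    - (0:ℝ) • th (0 : VV ℝ)) = Y.v
  rw [zero_smul, zero_smul, smul_zero, one_smul, one_smul]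
  abel

section
variable {N : Type} [LieRing N] [LieAlgebra ℚ N] (Φ : LR ≃ₗ⁅ℝ⁆ ℝ ⊗[ℚ] N)

include Φ

lemma ext2 {X0 : LR} (h : ∀ y w : N, ⁅X0, ⁅jj Φ y, jj Φ w⁆⁆ = 0) (Y W : LR) :
    ⁅X0, ⁅Y, W⁆⁆ = 0 := by
  have h1 : ∀ (y : N) (W : LR), ⁅X0, ⁅jj Φ y, W⁆⁆ = 0 := by
    intro y
    exact dense_lin Φ ((LieAlgebra.ad ℝ LR X0) ∘ₗ (LieAlgebra.ad ℝ LR (jj Φ y)))
      (fun x => by simpa using h y x)
  have := dense_lin Φ ((LieAlgebra.ad ℝ LR X0) ∘ₗ (LieAlgebra.ad ℝ LR W))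
      (fun x => by
        have := h1 x W
        rw [show ⁅jj Φ x, W⁆ = -⁅W, jj Φ x⁆ from (lie_skew _ _).symm, lie_neg, neg_eq_zero] at this
        simpa using this) Y
  rw [show ⁅Y, W⁆ = -⁅W, Y⁆ from (lie_skew _ _).symm, lie_neg, neg_eq_zero]
  simpa using this

lemma ext2' {X0 : LR} (h : ∀ y w : N, ⁅⁅X0, jj Φ y⁆, jj Φ w⁆ = 0) (Y W : LR) :
    ⁅⁅X0, Y⁆, W⁆ = 0 := by
  have h1 : ∀ (y : N) (W : LR), ⁅⁅X0, jj Φ y⁆, W⁆ = 0 := by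
    intro y
    exact dense_lin Φ (LieAlgebra.ad ℝ LR ⁅X0, jj Φ y⁆) (fun x => by simpa using h y x)
  have := dense_lin Φ ((LieAlgebra.ad ℝ LR W) ∘ₗ (LieAlgebra.ad ℝ LR X0))
      (fun x => by
        have := h1 x W
        rw [← lie_skew, neg_eq_zero] at this
        simpa using this) Y
  rw [← lie_skew, neg_eq_zero]
  simpa using this

lemma H_pres {X : LR} (hX : inH X) (l : ℝ →ₗ[ℚ] ℚ) : inH (jj Φ (PP Φ l X)) := by
  have h : ∀ y w : N, ⁅jj Φ (PP Φ l X), ⁅jj Φ y, jj Φ w⁆⁆ = 0 := by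
    intro y w
    rw [← jj_lie, ← jj_lie, ← PP_lie, jj_lie]
    have : ⁅X, ⁅jj Φ y, jj Φ w⁆⁆ = 0 := by
      have hX' : X.a = 0 := hX
      apply LL.ext <;> simp [hX', th_zero, be_zero_right]
    rw [this, PP_zero, jj_zero]
  have := congrArg LL.v2 (ext2 Φ h pR (vR e0))
  have := congrArg Prod.fst this
  show (jj Φ (PP Φ l X)).a = 0
  simpa [pR, vR, e0, th_zero] using this

lemma Z2_pres {X : LR} (hX : inZ2 X) (l : ℝ →ₗ[ℚ] ℚ) : inZ2 (jj Φ (PP Φ l X)) := by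
  have ha := H_pres Φ (X := X) hX.1 l
  refine ⟨ha, ?_⟩
  have h : ∀ y w : N, ⁅⁅jj Φ (PP Φ l X), jj Φ y⁆, jj Φ w⁆ = 0 := by
    intro y w
    rw [← jj_lie, ← jj_lie, ← PP_lie, ← PP_lie]
    have : ⁅⁅X, jj Φ y⁆, jj Φ w⁆ = 0 := by
      apply LL.ext <;> simp [hX.1, hX.2, th_zero, be_zero_right]
    rw [this, PP_zero, jj_zero]
  have ha' : (jj Φ (PP Φ l X)).a = 0 := ha
  have := congrArg LL.v2 (ext2' Φ h pR pR)
  rw [br_pp] at this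
  exact this

lemma C_pres {X : LR} (hX : inC X) (l : ℝ →ₗ[ℚ] ℚ) : inC (jj Φ (PP Φ l X)) := by
  have h2 := Z2_pres Φ (X := X) ⟨hX.1, hX.2.2⟩ l
  refine ⟨h2.1, ?_, h2.2⟩
  have h : ∀ y : N, inH (jj Φ y) → ⁅jj Φ (PP Φ l X), jj Φ y⁆ = 0 := by
    intro y hy
    have hy' : (jj Φ y).a = 0 := hy
    rw [← jj_lie, ← PP_lie]
    have : ⁅X, jj Φ y⁆ = 0 := by
      apply LL.ext <;> simp [hX.1, hX.2.1, hX.2.2, hy', th_zero, be_zero_left]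
    rw [this, PP_zero, jj_zero]
  have h' : ∀ Y : LR, inH Y → ⁅jj Φ (PP Φ l X), Y⁆ = 0 := by
    intro Y hY
    have := mem_of_PP Φ (LinearMap.ker (LieAlgebra.ad ℝ LR (jj Φ (PP Φ l X)))) Y (by
      intro l'
      rw [LinearMap.mem_ker]
      exact h _ (H_pres Φ hY l'))
    simpa using this
  have := congrArg LL.v2 (h' (vR e0) rfl)
  have := congrArg Prod.fst this
  simpa [vR, e0, th, h2.1, h2.2] using this

lemma Z_pres {X : LR} (hX : inZ X) (l : ℝ →ₗ[ℚ] ℚ) : inZ (jj Φ (PP Φ l X)) := by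
  have h2 := C_pres Φ (X := X) ⟨hX.1, hX.2.1, hX.2.2.1⟩ l
  refine ⟨h2.1, h2.2.1, h2.2.2, ?_⟩
  have h : ∀ y : N, ⁅jj Φ (PP Φ l X), jj Φ y⁆ = 0 := by
    intro y
    rw [← jj_lie, ← PP_lie]
    have : ⁅X, jj Φ y⁆ = 0 := by
      apply LL.ext <;> simp [hX.1, hX.2.1, hX.2.2.1, hX.2.2.2, th_zero, be_zero_left]
    rw [this, PP_zero, jj_zero]
  have h' : ⁅jj Φ (PP Φ l X), pR⁆ = 0 := by
    have := dense_lin Φ (LieAlgebra.ad ℝ LR (jj Φ (PP Φ l X))) (fun y => by simpa using h y) pR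
    simpa using this
  have := congrArg LL.v2 h'
  simpa [pR, h2.1, h2.2.1, h2.2.2, th_zero] using this

omit Φ in
lemma inV_add {X Y : LR} (hX : inV X) (hY : inV Y) : inV (X + Y) := by
  obtain ⟨h1, h2, h3, h4, h5⟩ := hX
  obtain ⟨g1, g2, g3, g4, g5⟩ := hY
  exact ⟨by simp [h1, g1], by simp [h2, g2], by simp [h3, g3], by simp [h4, g4], by simp [h5, g5]⟩

omit Φ in
lemma inV_zero : inV 0 := ⟨rfl, rfl, rfl, rfl, rfl⟩

omit Φ in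
lemma inV_tri (X Y W : LR) (r : ℝ) : inV (r • ⁅X, ⁅Y, W⁆⁆) := by
  refine ⟨?_, ?_, ?_, ?_, ?_⟩ <;> simp [be_zero_right]

lemma V_pres_tri (l : ℝ →ₗ[ℚ] ℚ) (X Y W : LR) : inV (jj Φ (PP Φ l ⁅X, ⁅Y, W⁆⁆)) := by
  induction X using ind Φ with
  | h0 => simp [PP_zero, jj_zero, inV_zero]
  | hadd X X' hX hX' => rw [add_lie, PP_add, jj_add]; exact inV_add hX hX'
  | h r x =>
  induction Y using ind Φ with
  | h0 => simp [PP_zero, jj_zero, inV_zero]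
  | hadd X X' hX hX' => rw [add_lie, lie_add, PP_add, jj_add]; exact inV_add hX hX'
  | h s y =>
  induction W using ind Φ with
  | h0 => simp [PP_zero, jj_zero, inV_zero]
  | hadd X X' hX hX' => rw [lie_add, lie_add, PP_add, jj_add]; exact inV_add hX hX'
  | h t w =>
    rw [smul_lie, smul_lie, lie_smul, lie_smul, lie_smul, smul_smul, smul_smul, ← jj_lie, ← jj_lie,
      PP_smul_jj, jj_smul, jj_lie, jj_lie]
    exact inV_tri _ _ _ _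

lemma V_pres {X : LR} (hX : inV X) (l : ℝ →ₗ[ℚ] ℚ) : inV (jj Φ (PP Φ l X)) := by
  have : X = ⁅pR, ⁅pR, vR X.v2⁆⁆ := by
    obtain ⟨h1, h2, h3, h4, h5⟩ := hX
    apply LL.ext <;> simp [pR, vR, h1, h2, h3, h4, h5, be_zero_left, th_zero]
  rw [this]
  exact V_pres_tri Φ l _ _ _

end

end Pool.Agent.Helper807.NF
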