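import Pool.Agent.Helper807.NF.Main

set_option autoImplicit false
open scoped TensorProduct

namespace Pool.Agent.Helper807.NF

noncomputable def del (X : LR) : LR :=
  ⟨X.a, 2 * X.b, (10:ℝ) • X.v, (11:ℝ) • X.v1, (12:ℝ) • X.v2, (20:ℝ) • X.z⟩

lemma del_add (X Y : LR) : del (X + Y) = del X + del Y := by
  apply LL.ext <;> simp [del, mul_add]

lemma del_smul (c : ℝ) (X : LR) : del (c • X) = c • del X := by
  apply LL.ext <;> simp [del, smul_smul, mul_comm] <;> ring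

lemma del_lie (X Y : LR) : del ⁅X, Y⁆ = ⁅del X, Y⁆ + ⁅X, del Y⁆ := by
  apply LL.ext
  · simp [del]
  · simp [del]
  · simp [del]
  · simp only [del, LL.br_v1, LL.add_v1]; module
  · simp only [del, LL.br_v2, LL.add_v2, th_smul]; module
  · simp only [del, LL.br_z, LL.add_z, be_smul_left, be_smul_right]; module

section
variable {N : Type} [LieRing N] [LieAlgebra ℚ N] (Φ : LR ≃ₗ⁅ℝ⁆ ℝ ⊗[ℚ] N) (l : ℝ →ₗ[ℚ] ℚ)

noncomputable def DD : N →ₗ[ℚ] N where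
  toFun x := PP Φ l (del (jj Φ x))
  map_add' x y := by rw [jj_add, del_add, PP_add]
  map_smul' q x := by rw [jj_smul, del_smul, PP_smul_rat]; rfl

lemma DD_apply (x : N) : DD Φ l x = PP Φ l (del (jj Φ x)) := rfl

lemma DD_lie (x y : N) : DD Φ l ⁅x, y⁆ = ⁅DD Φ l x, y⁆ + ⁅x, DD Φ l y⁆ := by
  simp only [DD_apply]
  rw [jj_lie, del_lie, PP_add, PP_lie, PP_lie']

variable (hl : ∀ q : ℚ, l (q : ℝ) = q)
include hl

lemma PP_jj (x : N) : PP Φ l (jj Φ x) = x := by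
  have := PP_smul_jj Φ l 1 x
  have h1 := hl 1
  rw [one_smul] at this
  rw [this]
  have : l 1 = 1 := by simpa using h1
  rw [this, one_smul]

lemma DD_sub (w : ℚ) (x : N) : DD Φ l x - w • x = PP Φ l (del (jj Φ x) - (w : ℝ) • jj Φ x) := by
  rw [PP_sub, PP_smul_rat, PP_jj Φ l hl, DD_apply]

lemma c1 (x : N) : inH (jj Φ (DD Φ l x - (1 : ℚ) • x)) := by
  rw [DD_sub Φ l hl]
  apply H_pres
  show _ = _
  simp [del]

lemma c10 (x : N) (hx : inH (jj Φ x)) : inZ2 (jj Φ (DD Φ l x - (10 : ℚ) • x)) := by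
  rw [DD_sub Φ l hl]
  apply Z2_pres
  have hx' : (jj Φ x).a = 0 := hx
  refine ⟨?_, ?_⟩ <;> simp [del, hx']

lemma c2 (x : N) (hx : inZ2 (jj Φ x)) : inC (jj Φ (DD Φ l x - (2 : ℚ) • x)) := by
  rw [DD_sub Φ l hl]
  apply C_pres
  refine ⟨?_, ?_, ?_⟩ <;> simp [del, hx.1, hx.2]

lemma c11 (x : N) (hx : inC (jj Φ x)) : inZ (jj Φ (DD Φ l x - (11 : ℚ) • x)) := by
  rw [DD_sub Φ l hl]
  apply Z_pres
  refine ⟨?_, ?_, ?_, ?_⟩ <;> simp [del, hx.1, hx.2.1, hx.2.2]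

lemma c20 (x : N) (hx : inZ (jj Φ x)) : inV (jj Φ (DD Φ l x - (20 : ℚ) • x)) := by
  rw [DD_sub Φ l hl]
  apply V_pres
  refine ⟨?_, ?_, ?_, ?_, ?_⟩ <;> simp [del, hx.1, hx.2.1, hx.2.2.1, hx.2.2.2]

lemma c12 (x : N) (hx : inV (jj Φ x)) : DD Φ l x - (12 : ℚ) • x = 0 := by
  rw [DD_sub Φ l hl]
  have : del (jj Φ x) - ((12 : ℚ) : ℝ) • jj Φ x = 0 := by
    obtain ⟨h1, h2, h3, h4, h5⟩ := hx
    apply LL.ext <;> simp [del, h1, h2, h3, h4, h5]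
  rw [this, PP_zero]

lemma jj_inj (x : N) (h : jj Φ x = 0) : x = 0 := by
  rw [← PP_jj Φ l hl x, h, PP_zero]

lemma e1 {w : ℚ} {x : N} (h : DD Φ l x = w • x) (h1 : w ≠ 1) : inH (jj Φ x) := by
  have := c1 Φ l hl x
  rw [h, ← sub_smul, jj_smul] at this
  have h0 : ((w - 1 : ℚ) : ℝ) ≠ 0 := by exact_mod_cast sub_ne_zero.2 h1
  have h' : ((w - 1 : ℚ) : ℝ) * (jj Φ x).a = 0 := this
  exact (mul_eq_zero.1 h').resolve_left h0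

lemma e10 {w : ℚ} {x : N} (h : DD Φ l x = w • x) (h1 : w ≠ 1) (h10 : w ≠ 10) :
    inZ2 (jj Φ x) := by
  have := c10 Φ l hl x (e1 Φ l hl h h1)
  rw [h, ← sub_smul, jj_smul] at this
  have h0 : ((w - 10 : ℚ) : ℝ) ≠ 0 := by exact_mod_cast sub_ne_zero.2 h10
  obtain ⟨g1, g2⟩ := this
  exact ⟨(mul_eq_zero.1 g1).resolve_left h0, (smul_eq_zero.1 g2).resolve_left h0⟩

lemma e2 {w : ℚ} {x : N} (h : DD Φ l x = w • x) (h1 : w ≠ 1) (h10 : w ≠ 10) (h2 : w ≠ 2) :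
    inC (jj Φ x) := by
  have := c2 Φ l hl x (e10 Φ l hl h h1 h10)
  rw [h, ← sub_smul, jj_smul] at this
  have h0 : ((w - 2 : ℚ) : ℝ) ≠ 0 := by exact_mod_cast sub_ne_zero.2 h2
  obtain ⟨g1, g2, g3⟩ := this
  exact ⟨(mul_eq_zero.1 g1).resolve_left h0, (mul_eq_zero.1 g2).resolve_left h0,
    (smul_eq_zero.1 g3).resolve_left h0⟩

lemma e11 {w : ℚ} {x : N} (h : DD Φ l x = w • x) (h1 : w ≠ 1) (h10 : w ≠ 10) (h2 : w ≠ 2)
    (h11 : w ≠ 11) : inZ (jj Φ x) := by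
  have := c11 Φ l hl x (e2 Φ l hl h h1 h10 h2)
  rw [h, ← sub_smul, jj_smul] at this
  have h0 : ((w - 11 : ℚ) : ℝ) ≠ 0 := by exact_mod_cast sub_ne_zero.2 h11
  obtain ⟨g1, g2, g3, g4⟩ := this
  exact ⟨(mul_eq_zero.1 g1).resolve_left h0, (mul_eq_zero.1 g2).resolve_left h0,
    (smul_eq_zero.1 g3).resolve_left h0, (smul_eq_zero.1 g4).resolve_left h0⟩

lemma e20 {w : ℚ} {x : N} (h : DD Φ l x = w • x) (h1 : w ≠ 1) (h10 : w ≠ 10) (h2 : w ≠ 2)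
    (h11 : w ≠ 11) (h20 : w ≠ 20) : inV (jj Φ x) := by
  have := c20 Φ l hl x (e11 Φ l hl h h1 h10 h2 h11)
  rw [h, ← sub_smul, jj_smul] at this
  have h0 : ((w - 20 : ℚ) : ℝ) ≠ 0 := by exact_mod_cast sub_ne_zero.2 h20
  obtain ⟨g1, g2, g3, g4, g5⟩ := this
  exact ⟨(mul_eq_zero.1 g1).resolve_left h0, (mul_eq_zero.1 g2).resolve_left h0,
    (smul_eq_zero.1 g3).resolve_left h0, (smul_eq_zero.1 g4).resolve_left h0,
    (smul_eq_zero.1 g5).resolve_left h0⟩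

lemma e12 {w : ℚ} {x : N} (h : DD Φ l x = w • x) (h1 : w ≠ 1) (h10 : w ≠ 10) (h2 : w ≠ 2)
    (h11 : w ≠ 11) (h20 : w ≠ 20) (h12 : w ≠ 12) : x = 0 := by
  have := c12 Φ l hl x (e20 Φ l hl h h1 h10 h2 h11 h20)
  rw [h, ← sub_smul] at this
  exact (smul_eq_zero.1 this).resolve_left (sub_ne_zero.2 h12)

omit hl in
lemma eig_lie {a b : ℚ} {x y : N} (hx : DD Φ l x = a • x) (hy : DD Φ l y = b • y) :
    DD Φ l ⁅x, y⁆ = (a + b) • ⁅x, y⁆ := by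
  rw [DD_lie, hx, hy, smul_lie, lie_smul, add_smul]

/-- eigenspaces -/
noncomputable def KK (w : ℚ) : Submodule ℚ N := LinearMap.ker (DD Φ l - w • LinearMap.id)

omit hl in
lemma mem_KK {w : ℚ} {x : N} : x ∈ KK Φ l w ↔ DD Φ l x = w • x := by
  simp [KK, sub_eq_zero]

def Sj (w : ℚ) (T : Submodule ℚ N) : Prop := ∀ t ∈ T, ∃ t' ∈ T, DD Φ l t' - w • t' = t

omit hl in
lemma Sj_KK {w w' : ℚ} (h : w' ≠ w) : Sj Φ l w (KK Φ l w') := by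
  intro t ht
  rw [mem_KK] at ht
  refine ⟨(w' - w)⁻¹ • t, Submodule.smul_mem _ _ ((mem_KK Φ l).2 ht), ?_⟩
  rw [map_smul, ht, smul_comm w, ← smul_sub, ← sub_smul, smul_smul,
    inv_mul_cancel₀ (sub_ne_zero.2 h), one_smul]

omit hl in
lemma Sj_sup {w : ℚ} {T1 T2 : Submodule ℚ N} (h1 : Sj Φ l w T1) (h2 : Sj Φ l w T2) :
    Sj Φ l w (T1 ⊔ T2) := by
  intro t ht
  obtain ⟨a, ha, b, hb, rfl⟩ := Submodule.mem_sup.1 ht
  obtain ⟨a', ha', rfl⟩ := h1 a ha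
  obtain ⟨b', hb', rfl⟩ := h2 b hb
  refine ⟨a' + b', Submodule.add_mem_sup ha' hb', ?_⟩
  rw [map_add, smul_add]; abel

omit hl in
lemma split {w : ℚ} {T : Submodule ℚ N} (hT : Sj Φ l w T) (x : N) (h : DD Φ l x - w • x ∈ T) :
    x ∈ KK Φ l w ⊔ T := by
  obtain ⟨t', ht', e⟩ := hT _ h
  have : x = (x - t') + t' := by abel
  rw [this]
  apply Submodule.add_mem_sup _ ht'
  rw [mem_KK, map_sub, smul_sub]
  have : DD Φ l x - DD Φ l t' - (w • x - w • t') = 0 := by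
    rw [show DD Φ l x - DD Φ l t' - (w • x - w • t') = (DD Φ l x - w • x) - (DD Φ l t' - w • t') by
      abel, e, sub_self]
  exact sub_eq_zero.1 this

lemma d12 {x : N} (h : inV (jj Φ x)) : x ∈ KK Φ l 12 := by
  rw [mem_KK]; exact sub_eq_zero.1 (c12 Φ l hl x h)
lemma d20 {x : N} (h : inZ (jj Φ x)) : x ∈ KK Φ l 20 ⊔ KK Φ l 12 :=
  split Φ l (Sj_KK Φ l (by norm_num)) x (d12 Φ l hl (c20 Φ l hl x h))
lemma d11 {x : N} (h : inC (jj Φ x)) : x ∈ KK Φ l 11 ⊔ (KK Φ l 20 ⊔ KK Φ l 12) :=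
  split Φ l (Sj_sup Φ l (Sj_KK Φ l (by norm_num)) (Sj_KK Φ l (by norm_num))) x
    (d20 Φ l hl (c11 Φ l hl x h))
lemma d2 {x : N} (h : inZ2 (jj Φ x)) : x ∈ KK Φ l 2 ⊔ (KK Φ l 11 ⊔ (KK Φ l 20 ⊔ KK Φ l 12)) :=
  split Φ l (Sj_sup Φ l (Sj_KK Φ l (by norm_num)) (Sj_sup Φ l (Sj_KK Φ l (by norm_num))
    (Sj_KK Φ l (by norm_num)))) x (d11 Φ l hl (c2 Φ l hl x h))
lemma d10 {x : N} (h : inH (jj Φ x)) :
    x ∈ KK Φ l 10 ⊔ (KK Φ l 2 ⊔ (KK Φ l 11 ⊔ (KK Φ l 20 ⊔ KK Φ l 12))) :=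
  split Φ l (Sj_sup Φ l (Sj_KK Φ l (by norm_num)) (Sj_sup Φ l (Sj_KK Φ l (by norm_num))
    (Sj_sup Φ l (Sj_KK Φ l (by norm_num)) (Sj_KK Φ l (by norm_num))))) x
    (d2 Φ l hl (c10 Φ l hl x h))
lemma d1 (x : N) :
    x ∈ KK Φ l 1 ⊔ (KK Φ l 10 ⊔ (KK Φ l 2 ⊔ (KK Φ l 11 ⊔ (KK Φ l 20 ⊔ KK Φ l 12)))) :=
  split Φ l (Sj_sup Φ l (Sj_KK Φ l (by norm_num)) (Sj_sup Φ l (Sj_KK Φ l (by norm_num))
    (Sj_sup Φ l (Sj_KK Φ l (by norm_num)) (Sj_sup Φ l (Sj_KK Φ l (by norm_num))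
      (Sj_KK Φ l (by norm_num)))))) x
    (d10 Φ l hl (c1 Φ l hl x))

end

end Pool.Agent.Helper807.NF
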