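import Pool.Agent.Helper807.NF.Main2

set_option autoImplicit false
open scoped TensorProduct

namespace Pool.Agent.Helper807.NF

noncomputable def aL : LR →ₗ[ℝ] ℝ := ⟨⟨LL.a, fun _ _ => rfl⟩, fun _ _ => rfl⟩
noncomputable def bL : LR →ₗ[ℝ] ℝ := ⟨⟨LL.b, fun _ _ => rfl⟩, fun _ _ => rfl⟩
noncomputable def vL : LR →ₗ[ℝ] VV ℝ := ⟨⟨LL.v, fun _ _ => rfl⟩, fun _ _ => rfl⟩

section
variable {N : Type} [LieRing N] [LieAlgebra ℚ N] (Φ : LR ≃ₗ⁅ℝ⁆ ℝ ⊗[ℚ] N) (l : ℝ →ₗ[ℚ] ℚ)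
variable (hl : ∀ q : ℚ, l (q : ℝ) = q)
include hl

lemma g10 {w : ℚ} {x : N} (h : DD Φ l x = w • x) (h1 : inH (jj Φ x)) (h10 : w ≠ 10) :
    inZ2 (jj Φ x) := by
  have := c10 Φ l hl x h1
  rw [h, ← sub_smul, jj_smul] at this
  have h0 : ((w - 10 : ℚ) : ℝ) ≠ 0 := by exact_mod_cast sub_ne_zero.2 h10
  obtain ⟨g1, g2⟩ := this
  exact ⟨(mul_eq_zero.1 g1).resolve_left h0, (smul_eq_zero.1 g2).resolve_left h0⟩

lemma g2 {w : ℚ} {x : N} (h : DD Φ l x = w • x) (h1 : inZ2 (jj Φ x)) (h2 : w ≠ 2) :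
    inC (jj Φ x) := by
  have := c2 Φ l hl x h1
  rw [h, ← sub_smul, jj_smul] at this
  have h0 : ((w - 2 : ℚ) : ℝ) ≠ 0 := by exact_mod_cast sub_ne_zero.2 h2
  obtain ⟨g1, g2, g3⟩ := this
  exact ⟨(mul_eq_zero.1 g1).resolve_left h0, (mul_eq_zero.1 g2).resolve_left h0,
    (smul_eq_zero.1 g3).resolve_left h0⟩

lemma g11 {w : ℚ} {x : N} (h : DD Φ l x = w • x) (h1 : inC (jj Φ x))
    (h11 : w ≠ 11) : inZ (jj Φ x) := by
  have := c11 Φ l hl x h1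
  rw [h, ← sub_smul, jj_smul] at this
  have h0 : ((w - 11 : ℚ) : ℝ) ≠ 0 := by exact_mod_cast sub_ne_zero.2 h11
  obtain ⟨g1, g2, g3, g4⟩ := this
  exact ⟨(mul_eq_zero.1 g1).resolve_left h0, (mul_eq_zero.1 g2).resolve_left h0,
    (smul_eq_zero.1 g3).resolve_left h0, (smul_eq_zero.1 g4).resolve_left h0⟩

lemma g20 {w : ℚ} {x : N} (h : DD Φ l x = w • x) (h1 : inZ (jj Φ x)) (h20 : w ≠ 20) :
    inV (jj Φ x) := by
  have := c20 Φ l hl x h1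
  rw [h, ← sub_smul, jj_smul] at this
  have h0 : ((w - 20 : ℚ) : ℝ) ≠ 0 := by exact_mod_cast sub_ne_zero.2 h20
  obtain ⟨g1, g2, g3, g4, g5⟩ := this
  exact ⟨(mul_eq_zero.1 g1).resolve_left h0, (mul_eq_zero.1 g2).resolve_left h0,
    (smul_eq_zero.1 g3).resolve_left h0, (smul_eq_zero.1 g4).resolve_left h0,
    (smul_eq_zero.1 g5).resolve_left h0⟩

lemma g12 {w : ℚ} {x : N} (h : DD Φ l x = w • x) (h1 : inV (jj Φ x)) (h12 : w ≠ 12) : x = 0 := by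
  have := c12 Φ l hl x h1
  rw [h, ← sub_smul] at this
  exact (smul_eq_zero.1 this).resolve_left (sub_ne_zero.2 h12)

/-- no other weights -/
lemma noW {w : ℚ} {x : N} (h : x ∈ KK Φ l w) (h1 : w ≠ 1 ∧ w ≠ 10 ∧ w ≠ 2 ∧ w ≠ 11 ∧ w ≠ 20 ∧ w ≠ 12) :
    x = 0 :=
  e12 Φ l hl ((mem_KK Φ l).1 h) h1.1 h1.2.1 h1.2.2.1 h1.2.2.2.1 h1.2.2.2.2.1 h1.2.2.2.2.2

lemma T5_inZ {t : N} (h : t ∈ KK Φ l 20 ⊔ KK Φ l 12) : inZ (jj Φ t) := by
  obtain ⟨a, ha, b, hb, rfl⟩ := Submodule.mem_sup.1 h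
  rw [mem_KK] at ha hb
  have h1 := e11 Φ l hl ha (by norm_num) (by norm_num) (by norm_num) (by norm_num)
  have h2 := e11 Φ l hl hb (by norm_num) (by norm_num) (by norm_num) (by norm_num)
  rw [jj_add]
  obtain ⟨a1, a2, a3, a4⟩ := h1
  obtain ⟨b1, b2, b3, b4⟩ := h2
  exact ⟨by simp [a1, b1], by simp [a2, b2], by simp [a3, b3], by simp [a4, b4]⟩

lemma T4_inC {t : N} (h : t ∈ KK Φ l 11 ⊔ (KK Φ l 20 ⊔ KK Φ l 12)) : inC (jj Φ t) := by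
  obtain ⟨a, ha, b, hb, rfl⟩ := Submodule.mem_sup.1 h
  rw [mem_KK] at ha
  obtain ⟨b1, b2, b3, b4⟩ := T5_inZ Φ l hl hb
  obtain ⟨a1, a2, a3⟩ := e2 Φ l hl ha (by norm_num) (by norm_num) (by norm_num)
  rw [jj_add]
  exact ⟨by simp [a1, b1], by simp [a2, b2], by simp [a3, b3]⟩

lemma T3_inZ2 {t : N} (h : t ∈ KK Φ l 2 ⊔ (KK Φ l 11 ⊔ (KK Φ l 20 ⊔ KK Φ l 12))) :
    inZ2 (jj Φ t) := by
  obtain ⟨a, ha, b, hb, rfl⟩ := Submodule.mem_sup.1 h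
  rw [mem_KK] at ha
  obtain ⟨b1, b2, b3⟩ := T4_inC Φ l hl hb
  obtain ⟨a1, a3⟩ := e10 Φ l hl ha (by norm_num) (by norm_num)
  rw [jj_add]
  exact ⟨by simp [a1, b1], by simp [a3, b3]⟩

lemma T2_inH {t : N} (h : t ∈ KK Φ l 10 ⊔ (KK Φ l 2 ⊔ (KK Φ l 11 ⊔ (KK Φ l 20 ⊔ KK Φ l 12)))) :
    inH (jj Φ t) := by
  obtain ⟨a, ha, b, hb, rfl⟩ := Submodule.mem_sup.1 h
  rw [mem_KK] at ha
  obtain ⟨b1, b2⟩ := T3_inZ2 Φ l hl hb
  have a1 : (jj Φ a).a = 0 := e1 Φ l hl ha (by norm_num)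
  rw [jj_add]
  show _ = _
  simp [a1, b1]

lemma exists_p : ∃ p : N, DD Φ l p = (1 : ℚ) • p ∧ (jj Φ p).a ≠ 0 := by
  by_contra hcon
  simp only [not_exists, not_and, not_not] at hcon
  have h : ∀ x : N, aL (jj Φ x) = 0 := by
    intro x
    obtain ⟨a, ha, b, hb, rfl⟩ := Submodule.mem_sup.1 (d1 Φ l hl x)
    have h1 : (jj Φ a).a = 0 := hcon a ((mem_KK Φ l).1 ha)
    have h2 : (jj Φ b).a = 0 := T2_inH Φ l hl hb
    show (jj Φ (a + b)).a = 0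
    rw [jj_add, LL.add_a, h1, h2, add_zero]
  have := dense_lin Φ aL h pR
  have h1 : (1 : ℝ) = 0 := this
  norm_num at h1

lemma exists_q0 : ∃ q : N, DD Φ l q = (2 : ℚ) • q ∧ (jj Φ q).b ≠ 0 := by
  have h : ∃ l', (jj Φ (PP Φ l' qR)).b ≠ 0 := by
    by_contra hcon
    simp only [not_exists, not_not] at hcon
    have := mem_of_PP Φ (LinearMap.ker bL) qR (fun l' => by
      rw [LinearMap.mem_ker]; exact hcon l')
    rw [LinearMap.mem_ker] at this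
    have h1 : (1 : ℝ) = 0 := this
    norm_num at h1
  obtain ⟨l', hl'⟩ := h
  have h2 : inZ2 (jj Φ (PP Φ l' qR)) := Z2_pres Φ ⟨rfl, rfl⟩ l'
  obtain ⟨a, ha, b, hb, e⟩ := Submodule.mem_sup.1 (d2 Φ l hl h2)
  refine ⟨a, (mem_KK Φ l).1 ha, ?_⟩
  have h3 : (jj Φ b).b = 0 := (T4_inC Φ l hl hb).2.1
  rw [← e, jj_add, LL.add_b, h3, add_zero] at hl'
  exact hl'

omit hl in
/-- a nonzero `v`-part can be seen by some functional, with the weight-ten component -/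
lemma exists_l' (v : VV ℝ) (hv : v ≠ 0) : ∃ l' : ℝ →ₗ[ℚ] ℚ, (jj Φ (PP Φ l' (vR v))).v ≠ 0 := by
  by_contra hcon
  simp only [not_exists, not_not] at hcon
  have := mem_of_PP Φ (LinearMap.ker vL) (vR v) (fun l' => by
    rw [LinearMap.mem_ker]; exact hcon l')
  rw [LinearMap.mem_ker] at this
  exact hv this

lemma comp10 (x : N) (h : inH (jj Φ x)) : ∃ y ∈ KK Φ l 10, (jj Φ y).v = (jj Φ x).v := by
  obtain ⟨a, ha, b, hb, rfl⟩ := Submodule.mem_sup.1 (d10 Φ l hl h)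
  refine ⟨a, ha, ?_⟩
  have h3 : (jj Φ b).v = 0 := (T3_inZ2 Φ l hl hb).2
  rw [jj_add, LL.add_v, h3, add_zero]

omit hl in
lemma be_zero_imp (u : VV ℝ) (h : ∀ v, be (fun _ => (1:ℝ)) u v = 0) : u = u.1 • e0 := by
  have h1 : ∀ i, u.2.2.1 i = 0 := by
    intro i
    have := congrFun (h (0, 0, 0, Pi.single i 1)) i
    simpa [be] using this
  have h2 : ∀ i, u.2.2.2 i = 0 := by
    intro i
    have := congrFun (h (0, 0, Pi.single i 1, 0)) i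
    simpa [be] using this
  have h3 : ∀ i, u.2.1 (i+1) = 0 := by
    intro i
    have := congrFun (h (0, Pi.single (i+2) 1, 0, 0)) i
    have h4 : i + 1 ≠ i + 2 := by fin_cases i <;> decide
    simpa [be, h4] using this
  have h3' : ∀ i, u.2.1 i = 0 := by
    intro i
    have := h3 (i+2)
    have e : i + 2 + 1 = i := by fin_cases i <;> decide
    rwa [e] at this
  ext i
  · simp [e0]
  · simp [e0, h3']
  · simp [e0, h1]
  · simp [e0, h2]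

lemma exists_w0 : ∃ w ∈ KK Φ l 10, ∃ r : ℝ, r ≠ 0 ∧ (jj Φ w).v = r • e0 := by
  have he0 : e0 ≠ 0 := by
    intro h; have := congrArg Prod.fst h; simp [e0] at this
  obtain ⟨l', hl'⟩ := exists_l' Φ e0 he0
  set x := PP Φ l' (vR e0) with hx
  have hH : inH (jj Φ x) := H_pres Φ (X := vR e0) rfl l'
  have hbe : ∀ y : N, inH (jj Φ y) → be (fun _ => (1:ℝ)) (jj Φ x).v (jj Φ y).v = 0 := by
    intro y hy
    have hy' : (jj Φ y).a = 0 := hy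
    have h1 : inV ⁅vR e0, jj Φ y⁆ := by
      refine ⟨rfl, rfl, rfl, ?_, ?_⟩
      · simp [vR, hy']
      · ext i; simp [vR, be, e0]
    have h2 := V_pres Φ h1 l'
    rw [PP_lie, jj_lie] at h2
    exact h2.2.2.2.2
  have hbe' : ∀ Y : LR, inH Y → be (fun _ => (1:ℝ)) (jj Φ x).v Y.v = 0 := by
    intro Y hY
    let f : LR →ₗ[ℝ] (Fin 3 → ℝ) :=
      { toFun := fun Y => be (fun _ => (1:ℝ)) (jj Φ x).v Y.v
        map_add' := fun Y Z => by rw [LL.add_v, be_add_right]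
        map_smul' := fun c Y => by rw [LL.smul_v, be_smul_right]; rfl }
    have := mem_of_PP Φ (LinearMap.ker f) Y (fun l'' => by
      rw [LinearMap.mem_ker]
      exact hbe _ (H_pres Φ hY l''))
    exact LinearMap.mem_ker.1 this
  have hu := be_zero_imp (jj Φ x).v (fun v => hbe' (vR v) rfl)
  obtain ⟨y, hy, e⟩ := comp10 Φ l hl x hH
  refine ⟨y, hy, (jj Φ x).v.1, ?_, by rw [e]; exact hu⟩
  intro h0
  rw [h0, zero_smul] at hu
  exact hl' hu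

lemma exists_pq : ∃ p q : N, DD Φ l p = (1 : ℚ) • p ∧ (jj Φ p).a ≠ 0 ∧
    DD Φ l q = (2 : ℚ) • q ∧ (jj Φ q).b = (jj Φ p).a ^ 2 := by
  obtain ⟨p, hp, hpa⟩ := exists_p Φ l hl
  obtain ⟨q, hq, hqb⟩ := exists_q0 Φ l hl
  obtain ⟨w, hw, r, hr, hwv⟩ := exists_w0 Φ l hl
  obtain ⟨q1, q2⟩ := e10 Φ l hl hq (by norm_num) (by norm_num)
  have hw1 : (jj Φ w).a = 0 := e1 Φ l hl ((mem_KK Φ l).1 hw) (by norm_num)
  set c0 : ℝ := (jj Φ q).b / (jj Φ p).a ^ 2 with hc0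
  have hthe0 : th e0 = e0 := by ext i <;> simp [th, e0]
  have h1 : jj Φ ⁅q, w⁆ = c0 • jj Φ ⁅p, ⁅p, w⁆⁆ := by
    rw [jj_lie, jj_lie, jj_lie]
    apply LL.ext
    · simp
    · simp
    · simp
    · simp [q1, hw1]
    · simp only [LL.br_v2, LL.smul_v2, LL.br_a, LL.br_b, LL.br_v, LL.br_v1, q1, q2, hw1, hwv,
        th_zero, th_smul, hthe0, smul_zero, zero_smul, sub_zero, add_zero, zero_add,
        smul_smul]
      rw [hc0]; congr 1; field_simp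
    · simp [q2, be_zero_left, be_zero_right]
  have h2 := congrArg (PP Φ l) h1
  rw [PP_jj Φ l hl, PP_smul_jj] at h2
  have h3 : (jj Φ ⁅p, ⁅p, w⁆⁆).v2 = ((jj Φ p).a ^ 2 * r) • e0 := by
    rw [jj_lie, jj_lie]
    simp only [LL.br_v2, LL.br_a, LL.br_b, LL.br_v, LL.br_v1, hw1, hwv,
        th_zero, smul_zero, zero_smul, sub_zero, add_zero, smul_smul]
    congr 1; ring
  have h4 : (c0 - (l c0 : ℝ)) * ((jj Φ p).a ^ 2 * r) = 0 := by
    have h5 := congrArg (jj Φ) h2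
    rw [jj_smul, h1] at h5
    have h6 := congrArg (fun X => X.v2.1) h5
    simp only [LL.smul_v2, h3] at h6
    simp [e0] at h6
    rcases h6 with h6 | h6
    · rw [sub_eq_zero.2 h6, zero_mul]
    · rcases h6 with h6 | h6
      · exact absurd h6 hpa
      · exact absurd h6 hr
  have h5 : c0 = (l c0 : ℝ) := by
    rcases mul_eq_zero.1 h4 with h | h
    · linarith
    · exact absurd h (mul_ne_zero (pow_ne_zero 2 hpa) hr)
  have hc0ne : c0 ≠ 0 := div_ne_zero hqb (pow_ne_zero 2 hpa)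
  have hlc : l c0 ≠ 0 := by
    intro h; rw [h] at h5; exact hc0ne (by simpa using h5)
  refine ⟨p, (l c0)⁻¹ • q, hp, hpa, ?_, ?_⟩
  · rw [map_smul, hq, smul_comm]
  · rw [jj_smul, LL.smul_b]
    push_cast
    rw [← h5, hc0]
    field_simp

end

end Pool.Agent.Helper807.NF
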