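import Pool.Agent.Helper807.NF.Main3

set_option autoImplicit false
open scoped TensorProduct

namespace Pool.Agent.Helper807.NF

section
variable {N : Type} [LieRing N] [LieAlgebra ℚ N] (Φ : LR ≃ₗ⁅ℝ⁆ ℝ ⊗[ℚ] N) (l : ℝ →ₗ[ℚ] ℚ)
variable (hl : ∀ q : ℚ, l (q : ℝ) = q)
variable (p q : N) (hp : DD Φ l p = (1 : ℚ) • p) (hpa : (jj Φ p).a ≠ 0)
  (hq : DD Φ l q = (2 : ℚ) • q) (hqb : (jj Φ q).b = (jj Φ p).a ^ 2)

include hl hp hpa in
lemma K1_span (x : N) (hx : x ∈ KK Φ l 1) : ∃ c : ℚ, x = c • p := by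
  rw [mem_KK] at hx
  set r : ℝ := (jj Φ x).a / (jj Φ p).a with hr
  have h1 : inH (jj Φ x - r • jj Φ p) := by
    show _ = _
    simp only [LL.sub_a, LL.smul_a]
    rw [hr]; field_simp; ring
  have h2 := H_pres Φ h1 l
  rw [PP_sub, PP_jj Φ l hl, PP_smul_jj] at h2
  have h3 : DD Φ l (x - l r • p) = (1 : ℚ) • (x - l r • p) := by
    rw [map_sub, map_smul, hx, hp, smul_sub, smul_comm]
  have h4 := g12 Φ l hl h3 (g20 Φ l hl h3 (g11 Φ l hl h3 (g2 Φ l hl h3 (g10 Φ l hl h3 h2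
    (by norm_num)) (by norm_num)) (by norm_num)) (by norm_num)) (by norm_num)
  exact ⟨l r, sub_eq_zero.1 h4⟩

include hl hq hqb hpa in
lemma K2_span (x : N) (hx : x ∈ KK Φ l 2) : ∃ c : ℚ, x = c • q := by
  rw [mem_KK] at hx
  have hqb' : (jj Φ q).b ≠ 0 := by rw [hqb]; exact pow_ne_zero 2 hpa
  obtain ⟨x1, x2⟩ := e10 Φ l hl hx (by norm_num) (by norm_num)
  obtain ⟨q1, q2⟩ := e10 Φ l hl hq (by norm_num) (by norm_num)
  set r : ℝ := (jj Φ x).b / (jj Φ q).b with hr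
  have h1 : inC (jj Φ x - r • jj Φ q) := by
    refine ⟨?_, ?_, ?_⟩
    · simp [x1, q1]
    · simp only [LL.sub_b, LL.smul_b]
      rw [hr]; field_simp; ring
    · simp [x2, q2]
  have h2 := C_pres Φ h1 l
  rw [PP_sub, PP_jj Φ l hl, PP_smul_jj] at h2
  have h3 : DD Φ l (x - l r • q) = (2 : ℚ) • (x - l r • q) := by
    rw [map_sub, map_smul, hx, hq, smul_sub, smul_comm]
  have h4 := g12 Φ l hl h3 (g20 Φ l hl h3 (g11 Φ l hl h3 h2
    (by norm_num)) (by norm_num)) (by norm_num)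
  exact ⟨l r, sub_eq_zero.1 h4⟩

lemma lie_KK {a b : ℚ} {x y : N} (hx : x ∈ KK Φ l a) (hy : y ∈ KK Φ l b) :
    ⁅x, y⁆ ∈ KK Φ l (a + b) := by
  rw [mem_KK] at *
  exact eig_lie Φ l hx hy

include hl in
lemma lie_KK_zero {a b : ℚ} {x y : N} (hx : x ∈ KK Φ l a) (hy : y ∈ KK Φ l b)
    (h : a + b ≠ 1 ∧ a + b ≠ 10 ∧ a + b ≠ 2 ∧ a + b ≠ 11 ∧ a + b ≠ 20 ∧ a + b ≠ 12) :
    ⁅x, y⁆ = 0 :=
  noW Φ l hl (lie_KK Φ l hx hy) h

noncomputable def P10 : Submodule ℚ N := (KK Φ l 10).map (LieAlgebra.ad ℚ N p : N →ₗ[ℚ] N)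
noncomputable def PP10 : Submodule ℚ N := (P10 Φ l p).map (LieAlgebra.ad ℚ N p : N →ₗ[ℚ] N)
noncomputable def MM : Submodule ℚ N := P10 Φ l p ⊔ (KK Φ l 12 ⊔ KK Φ l 20)

include hp in
lemma P10_le : P10 Φ l p ≤ KK Φ l 11 := by
  rintro _ ⟨x, hx, rfl⟩
  have := lie_KK Φ l ((mem_KK Φ l).2 hp) hx
  norm_num at this
  exact this

include hp in
lemma PP10_le : PP10 Φ l p ≤ KK Φ l 12 := by
  rintro _ ⟨x, hx, rfl⟩
  have := lie_KK Φ l ((mem_KK Φ l).2 hp) (P10_le Φ l p hp hx)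
  norm_num at this
  exact this

include hl hp hpa in
lemma lie_mem_MM_aux (i j : ℚ) (hi : i = 1 ∨ i = 10 ∨ i = 2 ∨ i = 11 ∨ i = 20 ∨ i = 12)
    (hj : j = 1 ∨ j = 10 ∨ j = 2 ∨ j = 11 ∨ j = 20 ∨ j = 12) (u w : N)
    (hu : u ∈ KK Φ l i) (hw : w ∈ KK Φ l j) : ⁅u, w⁆ ∈ MM Φ l p := by
  have key0 : ∀ i j : ℚ, u ∈ KK Φ l i → w ∈ KK Φ l j →
      (i + j ≠ 1 ∧ i + j ≠ 10 ∧ i + j ≠ 2 ∧ i + j ≠ 11 ∧ i + j ≠ 20 ∧ i + j ≠ 12) →
      ⁅u, w⁆ ∈ MM Φ l p := by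
    intro i j hu hw h
    rw [lie_KK_zero Φ l hl hu hw h]; exact Submodule.zero_mem _
  have key12 : ∀ i j : ℚ, u ∈ KK Φ l i → w ∈ KK Φ l j → i + j = 12 →
      ⁅u, w⁆ ∈ MM Φ l p := by
    intro i j hu hw h
    have := lie_KK Φ l hu hw
    rw [h] at this
    exact Submodule.mem_sup_right (Submodule.mem_sup_left this)
  have key20 : ∀ i j : ℚ, u ∈ KK Φ l i → w ∈ KK Φ l j → i + j = 20 →
      ⁅u, w⁆ ∈ MM Φ l p := by
    intro i j hu hw h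
    have := lie_KK Φ l hu hw
    rw [h] at this
    exact Submodule.mem_sup_right (Submodule.mem_sup_right this)
  rcases hi with rfl | rfl | rfl | rfl | rfl | rfl <;>
  rcases hj with rfl | rfl | rfl | rfl | rfl | rfl
  · obtain ⟨c, rfl⟩ := K1_span Φ l hl p hp hpa u hu
    obtain ⟨d, rfl⟩ := K1_span Φ l hl p hp hpa w hw
    simp
  · obtain ⟨c, rfl⟩ := K1_span Φ l hl p hp hpa u hu
    rw [smul_lie]
    exact Submodule.smul_mem _ _ (Submodule.mem_sup_left ⟨w, hw, rfl⟩)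
  · exact key0 _ _ hu hw (by norm_num)
  · exact key12 _ _ hu hw (by norm_num)
  · exact key0 _ _ hu hw (by norm_num)
  · exact key0 _ _ hu hw (by norm_num)
  · obtain ⟨c, rfl⟩ := K1_span Φ l hl p hp hpa w hw
    rw [lie_smul, ← lie_skew]
    exact Submodule.smul_mem _ _ (Submodule.neg_mem _ (Submodule.mem_sup_left ⟨u, hu, rfl⟩))
  · exact key20 _ _ hu hw (by norm_num)
  · exact key12 _ _ hu hw (by norm_num)
  · exact key0 _ _ hu hw (by norm_num)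
  · exact key0 _ _ hu hw (by norm_num)
  · exact key0 _ _ hu hw (by norm_num)
  · exact key0 _ _ hu hw (by norm_num)
  · exact key12 _ _ hu hw (by norm_num)
  · exact key0 _ _ hu hw (by norm_num)
  · exact key0 _ _ hu hw (by norm_num)
  · exact key0 _ _ hu hw (by norm_num)
  · exact key0 _ _ hu hw (by norm_num)
  · exact key12 _ _ hu hw (by norm_num)
  all_goals exact key0 _ _ hu hw (by norm_num)

include hl in
lemma decomp_ind (Q : Submodule ℚ N)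
    (h : ∀ i : ℚ, (i = 1 ∨ i = 10 ∨ i = 2 ∨ i = 11 ∨ i = 20 ∨ i = 12) → KK Φ l i ≤ Q) (x : N) :
    x ∈ Q := by
  have h1 := d1 Φ l hl x
  have : KK Φ l 1 ⊔ (KK Φ l 10 ⊔ (KK Φ l 2 ⊔ (KK Φ l 11 ⊔ (KK Φ l 20 ⊔ KK Φ l 12)))) ≤ Q := by
    refine sup_le (h _ (by tauto)) (sup_le (h _ (by tauto)) (sup_le (h _ (by tauto))
      (sup_le (h _ (by tauto)) (sup_le (h _ (by tauto)) (h _ (by tauto))))))
  exact this h1

include hl hp hpa in
lemma lie_mem_MM (u w : N) : ⁅u, w⁆ ∈ MM Φ l p := by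
  have h1 : ∀ i : ℚ, (i = 1 ∨ i = 10 ∨ i = 2 ∨ i = 11 ∨ i = 20 ∨ i = 12) → ∀ u ∈ KK Φ l i,
      ∀ w : N, ⁅u, w⁆ ∈ MM Φ l p := by
    intro i hi u hu w
    exact decomp_ind Φ l hl ((MM Φ l p).comap (LieAlgebra.ad ℚ N u : N →ₗ[ℚ] N))
      (fun j hj w hw => lie_mem_MM_aux Φ l hl p hp hpa i j hi hj u w hu hw) w
  have h2 := decomp_ind Φ l hl ((MM Φ l p).comap (LieAlgebra.ad ℚ N w : N →ₗ[ℚ] N))
      (fun j hj u hu => by
        show ⁅w, u⁆ ∈ MM Φ l p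
        rw [← lie_skew]
        exact Submodule.neg_mem _ (h1 j hj u hu w)) u
  have h3 : ⁅w, u⁆ ∈ MM Φ l p := h2
  rw [← lie_skew]
  exact Submodule.neg_mem _ h3

include hl hp hpa in
lemma lie_MM (u m : N) (hm : m ∈ MM Φ l p) : ⁅u, m⁆ ∈ PP10 Φ l p := by
  have hz : ∀ i j : ℚ, u ∈ KK Φ l i → m ∈ KK Φ l j → 
      (i + j ≠ 1 ∧ i + j ≠ 10 ∧ i + j ≠ 2 ∧ i + j ≠ 11 ∧ i + j ≠ 20 ∧ i + j ≠ 12) →
      ⁅u, m⁆ ∈ PP10 Φ l p := by
    intro i j hu hw h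
    rw [lie_KK_zero Φ l hl hu hw h]; exact Submodule.zero_mem _
  have h1 : ∀ i : ℚ, (i = 1 ∨ i = 10 ∨ i = 2 ∨ i = 11 ∨ i = 20 ∨ i = 12) → ∀ u ∈ KK Φ l i,
      ∀ m ∈ MM Φ l p, ⁅u, m⁆ ∈ PP10 Φ l p := by
    intro i hi u hu m hm
    obtain ⟨m1, hm1, m', hm', rfl⟩ := Submodule.mem_sup.1 hm
    obtain ⟨m2, hm2, m3, hm3, rfl⟩ := Submodule.mem_sup.1 hm'
    rw [lie_add, lie_add]
    have k : ∀ (j : ℚ) (y : N), y ∈ KK Φ l j →
      (i + j ≠ 1 ∧ i + j ≠ 10 ∧ i + j ≠ 2 ∧ i + j ≠ 11 ∧ i + j ≠ 20 ∧ i + j ≠ 12) →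
      ⁅u, y⁆ ∈ PP10 Φ l p := by
      intro j y hy h
      rw [lie_KK_zero Φ l hl hu hy h]; exact Submodule.zero_mem _
    refine Submodule.add_mem _ ?_ (Submodule.add_mem _ ?_ ?_)
    · rcases hi with rfl | rfl | rfl | rfl | rfl | rfl
      · obtain ⟨c, rfl⟩ := K1_span Φ l hl p hp hpa u hu
        rw [smul_lie]
        exact Submodule.smul_mem _ _ ⟨m1, hm1, rfl⟩
      all_goals exact k 11 m1 (P10_le Φ l p hp hm1) (by norm_num)
    · rcases hi with rfl | rfl | rfl | rfl | rfl | rfl <;> exact k 12 m2 hm2 (by norm_num)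
    · rcases hi with rfl | rfl | rfl | rfl | rfl | rfl <;> exact k 20 m3 hm3 (by norm_num)
  have h2 := decomp_ind Φ l hl ((PP10 Φ l p).comap (LieAlgebra.ad ℚ N m : N →ₗ[ℚ] N))
      (fun j hj u hu => by
        show ⁅m, u⁆ ∈ PP10 Φ l p
        rw [← lie_skew]
        exact Submodule.neg_mem _ (h1 j hj u hu m hm)) u
  have h3 : ⁅m, u⁆ ∈ PP10 Φ l p := h2
  rw [← lie_skew]
  exact Submodule.neg_mem _ h3

include hl hp hpa in
lemma PP_tri (X Y W : LR) : PP Φ l ⁅X, ⁅Y, W⁆⁆ ∈ PP10 Φ l p := by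
  induction X using ind Φ with
  | h0 => simp [PP_zero]
  | hadd X X' hX hX' => rw [add_lie, PP_add]; exact Submodule.add_mem _ hX hX'
  | h r x =>
  induction Y using ind Φ with
  | h0 => simp [PP_zero]
  | hadd X X' hX hX' => rw [add_lie, lie_add, PP_add]; exact Submodule.add_mem _ hX hX'
  | h s y =>
  induction W using ind Φ with
  | h0 => simp [PP_zero]
  | hadd X X' hX hX' => rw [lie_add, lie_add, PP_add]; exact Submodule.add_mem _ hX hX'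
  | h t w =>
    rw [smul_lie, smul_lie, lie_smul, lie_smul, lie_smul, smul_smul, smul_smul, ← jj_lie, ← jj_lie,
      PP_smul_jj]
    exact Submodule.smul_mem _ _ (lie_MM Φ l hl p hp hpa _ _ (lie_mem_MM Φ l hl p hp hpa _ _))

include hl hp hpa in
lemma PP_two (Y W : LR) : PP Φ l ⁅Y, W⁆ ∈ MM Φ l p := by
  induction Y using ind Φ with
  | h0 => simp [PP_zero]
  | hadd X X' hX hX' => rw [add_lie, PP_add]; exact Submodule.add_mem _ hX hX'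
  | h s y =>
  induction W using ind Φ with
  | h0 => simp [PP_zero]
  | hadd X X' hX hX' => rw [lie_add, PP_add]; exact Submodule.add_mem _ hX hX'
  | h t w =>
    rw [smul_lie, lie_smul, smul_smul, ← jj_lie, PP_smul_jj]
    exact Submodule.smul_mem _ _ (lie_mem_MM Φ l hl p hp hpa _ _)

include hl hp hpa in
lemma K12_le : KK Φ l 12 ≤ PP10 Φ l p := by
  intro y hy
  rw [mem_KK] at hy
  obtain ⟨h1, h2, h3, h4, h5⟩ := e20 Φ l hl hy (by norm_num) (by norm_num) (by norm_num)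
    (by norm_num) (by norm_num)
  have : jj Φ y = ⁅pR, ⁅pR, vR (jj Φ y).v2⁆⁆ := by
    apply LL.ext <;> simp [pR, vR, h1, h2, h3, h4, h5, be_zero_left, th_zero]
  rw [← PP_jj Φ l hl y, this]
  exact PP_tri Φ l hl p hp hpa _ _ _

lemma z_sum (z : Fin 3 → ℝ) : (∑ i, z i • ⁅vR (0, 0, Pi.single i 1, 0), vR (0, 0, 0, Pi.single i 1)⁆ : LR)
    = ⟨0, 0, 0, 0, 0, z⟩ := by
  have h : ∀ i, (⁅vR (0, 0, Pi.single i 1, 0), vR (0, 0, 0, Pi.single i 1)⁆ : LR) =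
      ⟨0, 0, 0, 0, 0, Pi.single i 1⟩ := by
    intro i
    apply LL.ext <;> simp [vR]
    ext j
    by_cases hij : j = i
    · subst hij; simp [be]
    · simp [be, hij]
  simp only [h, Fin.sum_univ_three]
  apply LL.ext <;> simp
  ext j; fin_cases j <;> simp

include hl hp hpa in
lemma K11_le : KK Φ l 11 ≤ P10 Φ l p := by
  intro y hy
  have hy' := (mem_KK Φ l).1 hy
  obtain ⟨h1, h2, h3⟩ := e2 Φ l hl hy' (by norm_num) (by norm_num) (by norm_num)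
  have e : jj Φ y = ⁅pR, (⟨0, 0, (jj Φ y).v1, (jj Φ y).v2, 0, 0⟩ : LR)⁆ +
      (∑ i, (jj Φ y).z i • ⁅vR (0, 0, Pi.single i 1, 0), vR (0, 0, 0, Pi.single i 1)⁆ : LR) := by
    rw [z_sum]
    apply LL.ext <;> simp [pR, h1, h2, h3, be_zero_left, th_zero]
  have hM : y ∈ MM Φ l p := by
    rw [← PP_jj Φ l hl y, e, PP_add, PP_sum]
    refine Submodule.add_mem _ (PP_two Φ l hl p hp hpa _ _) (Submodule.sum_mem _ fun i _ => ?_)
    rw [← smul_lie]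
    exact PP_two Φ l hl p hp hpa _ _
  obtain ⟨m1, hm1, m', hm', e2⟩ := Submodule.mem_sup.1 hM
  have h11 : m' ∈ KK Φ l 11 := by
    have : m' = y - m1 := by rw [← e2]; abel
    rw [this]
    exact Submodule.sub_mem _ hy (P10_le Φ l p hp hm1)
  have hZ : inZ (jj Φ m') := T5_inZ Φ l hl (by rwa [sup_comm])
  have h11' := (mem_KK Φ l).1 h11
  have h0 := g12 Φ l hl h11' (g20 Φ l hl h11' hZ (by norm_num)) (by norm_num)
  rw [← e2, h0, add_zero]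
  exact hm1

include hl hq hqb in
lemma qv_v2 (x : N) (hx : inH (jj Φ x)) :
    (⁅jj Φ q, jj Φ x⁆).v2 = (jj Φ p).a ^ 2 • th (jj Φ x).v := by
  obtain ⟨q1, q2⟩ := e10 Φ l hl hq (by norm_num) (by norm_num)
  have hx' : (jj Φ x).a = 0 := hx
  simp [q1, q2, hx', th_zero, hqb]

lemma ppx_v2 (x : N) (hx : inH (jj Φ x)) :
    (⁅jj Φ p, ⁅jj Φ p, jj Φ x⁆⁆).v2 = (jj Φ p).a ^ 2 • (jj Φ x).v := by
  have hx' : (jj Φ x).a = 0 := hx
  simp [hx', th_zero, smul_smul, sq]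

include hl hq hqb hpa in
/-- descent of a relation `θ v = w` -/
lemma desc_th (l' : ℝ →ₗ[ℚ] ℚ) (d : ℚ) (v w : VV ℝ) (h : th v = (d : ℝ) • w) :
    th (jj Φ (PP Φ l' (vR v))).v = (d : ℝ) • (jj Φ (PP Φ l' (vR w))).v := by
  obtain ⟨q1, q2⟩ := e10 Φ l hl hq (by norm_num) (by norm_num)
  have h1 : ⁅jj Φ q, vR v⁆ = (d : ℝ) • ⁅jj Φ p, ⁅jj Φ p, vR w⁆⁆ := by
    apply LL.ext
    · simp
    · simp
    · simp
    · simp [q1, q2, vR]
    · simp only [LL.br_v2, LL.smul_v2, LL.br_a, LL.br_b, LL.br_v, LL.br_v1, q1, q2, vR,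
        th_zero, h, smul_zero, zero_smul, sub_zero, add_zero, zero_add, smul_smul, hqb]
      congr 1; ring
    · simp [q2, be_zero_left, be_zero_right]
  have h2 := congrArg (PP Φ l') h1
  rw [PP_lie', PP_smul_rat, PP_lie', PP_lie'] at h2
  have h3 := congrArg (fun x => (jj Φ x).v2) h2
  simp only [jj_lie, jj_smul] at h3
  rw [LL.smul_v2, qv_v2 Φ l hl p q hq hqb _ (H_pres Φ (X := vR v) rfl l'),
    ppx_v2 Φ p _ (H_pres Φ (X := vR w) rfl l'), smul_comm] at h3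
  exact smul_right_injective _ (pow_ne_zero 2 hpa) h3

end

end Pool.Agent.Helper807.NF
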