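import Pool.Agent.Helper807.NF.Main4

set_option autoImplicit false
open scoped TensorProduct

namespace Pool.Agent.Helper807.NF

lemma dd_cast (i : Fin 3) : ((dd i : ℚ) : ℝ) = dd i := by
  fin_cases i <;> simp [dd]
lemma lam_cast (i : Fin 3) : ((lam i : ℚ) : ℝ) = lam i := by
  fin_cases i <;> simp [lam]

lemma lam_ne_one (i : Fin 3) : (lam i : ℝ) ≠ 1 := by
  fin_cases i <;> norm_num [lam]
lemma lam_inj {i j : Fin 3} (h : (lam i : ℝ) = lam j) : i = j := by
  fin_cases i <;> fin_cases j <;> first | rfl | (exfalso; norm_num [lam] at h)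
lemma lam_sq_ne (i j : Fin 3) : (lam i : ℝ) ^ 2 ≠ dd j := by
  fin_cases i <;> fin_cases j <;> norm_num [lam, dd]
lemma dd_ne_one (i : Fin 3) : (dd i : ℝ) ≠ 1 := by
  fin_cases i <;> norm_num [dd]
lemma dd_inj {i j : Fin 3} (h : (dd i : ℝ) = dd j) : i = j := by
  fin_cases i <;> fin_cases j <;> first | rfl | (exfalso; norm_num [dd] at h)

lemma eig_lam (i : Fin 3) (w : VV ℝ) (h : th w = (lam i : ℝ) • w) :
    w = (0, Pi.single i (w.2.1 i), 0, 0) := by
  have h0 : w.1 = 0 := by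
    have := congrArg Prod.fst h
    simp only [th, Prod.smul_fst, smul_eq_mul] at this
    have h1 : (lam i - 1 : ℝ) * w.1 = 0 := by linarith
    exact (mul_eq_zero.1 h1).resolve_left (sub_ne_zero.2 (lam_ne_one i))
  have hx : ∀ j, j ≠ i → w.2.1 j = 0 := by
    intro j hj
    have := congrFun (congrArg (fun v : VV ℝ => v.2.1) h) j
    simp only [th, Prod.smul_snd, Prod.smul_fst, Pi.smul_apply, smul_eq_mul] at this
    have h1 : (lam j - lam i : ℝ) * w.2.1 j = 0 := by linarith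
    exact (mul_eq_zero.1 h1).resolve_left (sub_ne_zero.2 (fun e => hj (lam_inj e)))
  have hyz : ∀ j, w.2.2.1 j = 0 ∧ w.2.2.2 j = 0 := by
    intro j
    have h1 := congrFun (congrArg (fun v : VV ℝ => v.2.2.1) h) j
    have h2 := congrFun (congrArg (fun v : VV ℝ => v.2.2.2) h) j
    simp only [th, Prod.smul_snd, Prod.smul_fst, Pi.smul_apply, smul_eq_mul] at h1 h2
    have h3 : ((lam i : ℝ)^2 - dd j) * w.2.2.2 j = 0 := by rw [h2] at h1; linarith
    have h4 := (mul_eq_zero.1 h3).resolve_left (sub_ne_zero.2 (lam_sq_ne i j))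
    exact ⟨by rw [h2, h4, mul_zero], h4⟩
  refine Prod.ext h0 (Prod.ext ?_ (Prod.ext ?_ ?_))
  · ext j
    by_cases hj : j = i
    · subst hj; simp
    · simp [hj, hx j hj]
  · ext j; simp [(hyz j).1]
  · ext j; simp [(hyz j).2]

lemma eig_dd (i : Fin 3) (w : VV ℝ) (h : th (th w) = (dd i : ℝ) • w) :
    w = (0, 0, Pi.single i (w.2.2.1 i), Pi.single i (w.2.2.2 i)) := by
  have h0 : w.1 = 0 := by
    have := congrArg Prod.fst h
    simp only [th, Prod.smul_fst, smul_eq_mul] at this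
    have h1 : (dd i - 1 : ℝ) * w.1 = 0 := by linarith
    exact (mul_eq_zero.1 h1).resolve_left (sub_ne_zero.2 (dd_ne_one i))
  have hx : ∀ j, w.2.1 j = 0 := by
    intro j
    have := congrFun (congrArg (fun v : VV ℝ => v.2.1) h) j
    simp only [th, Prod.smul_snd, Prod.smul_fst, Pi.smul_apply, smul_eq_mul] at this
    have h1 : ((lam j : ℝ)^2 - dd i : ℝ) * w.2.1 j = 0 := by linarith
    exact (mul_eq_zero.1 h1).resolve_left (sub_ne_zero.2 (lam_sq_ne j i))
  have hy : ∀ j, j ≠ i → w.2.2.1 j = 0 := by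
    intro j hj
    have := congrFun (congrArg (fun v : VV ℝ => v.2.2.1) h) j
    simp only [th, Prod.smul_snd, Prod.smul_fst, Pi.smul_apply, smul_eq_mul] at this
    have h1 : (dd j - dd i : ℝ) * w.2.2.1 j = 0 := by linarith
    exact (mul_eq_zero.1 h1).resolve_left (sub_ne_zero.2 (fun e => hj (dd_inj e)))
  have hz : ∀ j, j ≠ i → w.2.2.2 j = 0 := by
    intro j hj
    have := congrFun (congrArg (fun v : VV ℝ => v.2.2.2) h) j
    simp only [th, Prod.smul_snd, Pi.smul_apply, smul_eq_mul] at this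
    have h1 : (dd j - dd i : ℝ) * w.2.2.2 j = 0 := by linarith
    exact (mul_eq_zero.1 h1).resolve_left (sub_ne_zero.2 (fun e => hj (dd_inj e)))
  refine Prod.ext h0 (Prod.ext ?_ (Prod.ext ?_ ?_))
  · ext j; simp [hx j]
  · ext j
    by_cases hj : j = i
    · subst hj; simp
    · simp [hj, hy j hj]
  · ext j
    by_cases hj : j = i
    · subst hj; simp
    · simp [hj, hz j hj]

lemma no_sqrt17 (q : ℚ) : ((q : ℝ)) ^ 2 ≠ 17 := by
  intro h
  have h1 : Irrational (√(17 : ℝ)) := by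
    have := Nat.Prime.irrational_sqrt (p := 17) (by norm_num)
    exact_mod_cast this
  apply h1
  refine ⟨|q|, ?_⟩
  have : √(17:ℝ) = |(q : ℝ)| := by rw [← h, Real.sqrt_sq_eq_abs]
  rw [this]; push_cast; rfl

section
variable {N : Type} [LieRing N] [LieAlgebra ℚ N] (Φ : LR ≃ₗ⁅ℝ⁆ ℝ ⊗[ℚ] N) (l : ℝ →ₗ[ℚ] ℚ)
variable (hl : ∀ q : ℚ, l (q : ℝ) = q)
variable (p q : N) (hp : DD Φ l p = (1 : ℚ) • p) (hpa : (jj Φ p).a ≠ 0)
  (hq : DD Φ l q = (2 : ℚ) • q) (hqb : (jj Φ q).b = (jj Φ p).a ^ 2)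

include hl in
lemma f10 {x : N} (h : x ∈ KK Φ l 10) (hv : (jj Φ x).v = 0) : x = 0 := by
  rw [mem_KK] at h
  have h1 : inZ2 (jj Φ x) := ⟨e1 Φ l hl h (by norm_num), hv⟩
  exact g12 Φ l hl h (g20 Φ l hl h (g11 Φ l hl h (g2 Φ l hl h h1 (by norm_num)) (by norm_num))
    (by norm_num)) (by norm_num)

include hl in
lemma f20 {x : N} (h : x ∈ KK Φ l 20) (hv : (jj Φ x).z = 0) : x = 0 := by
  rw [mem_KK] at h
  obtain ⟨h1, h2, h3, h4⟩ := e11 Φ l hl h (by norm_num) (by norm_num) (by norm_num) (by norm_num)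
  exact g12 Φ l hl h ⟨h1, h2, h3, h4, hv⟩ (by norm_num)

include hl in
lemma f12 {x : N} (h : x ∈ KK Φ l 12) (hv : (jj Φ x).v2 = 0) : x = 0 := by
  rw [mem_KK] at h
  obtain ⟨h1, h2, h3, h4, h5⟩ := e20 Φ l hl h (by norm_num) (by norm_num) (by norm_num)
    (by norm_num) (by norm_num)
  exact jj_inj Φ l hl x (LL.ext h1 h2 h3 h4 hv h5)

include hl hq hqb hpa in
lemma exists_x (i : Fin 3) : ∃ x ∈ KK Φ l 10, ∃ r : ℝ, r ≠ 0 ∧
    (jj Φ x).v = (0, Pi.single i r, 0, 0) := by
  set v : VV ℝ := (0, Pi.single i 1, 0, 0) with hv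
  have hv0 : v ≠ 0 := by
    intro h
    have := congrFun (congrArg (fun v : VV ℝ => v.2.1) h) i
    simp [hv] at this
  obtain ⟨l', hl'⟩ := exists_l' Φ v hv0
  have hth : th v = ((lam i : ℚ) : ℝ) • v := by
    rw [lam_cast]
    ext j
    · simp [th, hv]
    · by_cases hj : j = i
      · subst hj; simp [th, hv]
      · simp [th, hv, hj]
    · simp [th, hv]
    · simp [th, hv]
  have h1 := desc_th Φ l hl p q hpa hq hqb l' (lam i) v v hth
  rw [lam_cast] at h1
  have h2 := eig_lam i _ h1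
  obtain ⟨x, hx, e⟩ := comp10 Φ l hl _ (H_pres Φ (X := vR v) rfl l')
  refine ⟨x, hx, _, ?_, by rw [e]; exact h2⟩
  intro h0
  rw [h0] at h2
  apply hl'
  rw [h2]; ext j <;> simp

include hl hq hqb hpa in
lemma exists_yz (i : Fin 3) : ∃ y ∈ KK Φ l 10, ∃ z ∈ KK Φ l 10, ∃ α β : ℝ,
    α ^ 2 - dd i * β ^ 2 ≠ 0 ∧
    (jj Φ y).v = (0, 0, Pi.single i α, Pi.single i β) ∧
    (jj Φ z).v = (0, 0, Pi.single i (dd i * β), Pi.single i α) := by
  set v : VV ℝ := (0, 0, Pi.single i 1, 0) with hv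
  set u : VV ℝ := (0, 0, 0, Pi.single i 1) with hu
  have hv0 : v ≠ 0 := by
    intro h
    have := congrFun (congrArg (fun v : VV ℝ => v.2.2.1) h) i
    simp [hv] at this
  obtain ⟨l', hl'⟩ := exists_l' Φ v hv0
  have hth : th v = ((1 : ℚ) : ℝ) • u := by
    ext j
    · simp [th, hv, hu]
    · simp [th, hv, hu]
    · simp [th, hv, hu]
    · simp [th, hv, hu]
  have hth2 : th u = ((dd i : ℚ) : ℝ) • v := by
    rw [dd_cast]
    ext j
    · simp [th, hv, hu]
    · simp [th, hv, hu]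
    · by_cases hj : j = i
      · subst hj; simp [th, hv, hu]
      · simp [th, hv, hu, hj]
    · simp [th, hv, hu]
  have h1 := desc_th Φ l hl p q hpa hq hqb l' 1 v u hth
  have h2 := desc_th Φ l hl p q hpa hq hqb l' (dd i) u v hth2
  obtain ⟨y, hy, ey⟩ := comp10 Φ l hl _ (H_pres Φ (X := vR v) rfl l')
  obtain ⟨z, hz, ez⟩ := comp10 Φ l hl _ (H_pres Φ (X := vR u) rfl l')
  rw [← ey, ← ez] at h1
  rw [← ey, ← ez] at h2
  rw [← ey] at hl'
  rw [dd_cast] at h2
  simp only [Rat.cast_one, one_smul] at h1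
  have h3 : th (th (jj Φ y).v) = (dd i : ℝ) • (jj Φ y).v := by rw [h1, h2]
  have h4 := eig_dd i _ h3
  set α := (jj Φ y).v.2.2.1 i with hα
  set β := (jj Φ y).v.2.2.2 i with hβ
  have h5 : (jj Φ z).v = (0, 0, Pi.single i (dd i * β), Pi.single i α) := by
    rw [← h1, h4]
    ext j
    · simp [th]
    · simp [th]
    · by_cases hj : j = i
      · subst hj; simp [th]
      · simp [th, hj]
    · simp [th]
  refine ⟨y, hy, z, hz, α, β, ?_, h4, h5⟩
  intro h0
  by_cases hi : i = 1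
  · have hd : (dd i : ℝ) = 17 := by rw [hi]; simp [dd]
    have hβ0 : β ≠ 0 := by
      intro hb
      rw [hb] at h0 h4
      have ha : α = 0 := by
        have : α ^ 2 = 0 := by linarith
        exact pow_eq_zero_iff (two_ne_zero) |>.1 this
      rw [ha] at h4
      apply hl'
      rw [h4]; ext j <;> simp
    set μ := α / β with hμ
    have hμ2 : μ ^ 2 = 17 := by
      rw [hμ, div_pow]; rw [hd] at h0; field_simp; linarith
    have h6 : (jj Φ z).v = μ • (jj Φ y).v := by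
      rw [h5, h4]
      ext j
      · simp
      · simp
      · by_cases hj : j = i
        · subst hj
          simp only [Pi.single_eq_same, Prod.smul_snd, Prod.smul_fst, Pi.smul_apply, smul_eq_mul]
          rw [hμ, div_mul_eq_mul_div, eq_div_iff hβ0]; linarith
        · simp [hj]
      · by_cases hj : j = i
        · subst hj
          simp only [Pi.single_eq_same, Prod.smul_snd, Pi.smul_apply, smul_eq_mul]
          rw [hμ, div_mul_cancel₀ _ hβ0]
        · simp [hj]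
    have hya : (jj Φ y).a = 0 := e1 Φ l hl ((mem_KK Φ l).1 hy) (by norm_num)
    have hza : (jj Φ z).a = 0 := e1 Φ l hl ((mem_KK Φ l).1 hz) (by norm_num)
    have h7 : inZ2 (jj Φ z - μ • jj Φ y) := by
      refine ⟨by simp [hya, hza], by simp [h6]⟩
    have h8 := Z2_pres Φ h7 l
    rw [PP_sub, PP_jj Φ l hl, PP_smul_jj] at h8
    have h9 := f10 Φ l hl (Submodule.sub_mem _ hz (Submodule.smul_mem _ (l μ) hy)) h8.2
    have h10 : (jj Φ z).v = ((l μ : ℚ) : ℝ) • (jj Φ y).v := by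
      rw [sub_eq_zero.1 h9, jj_smul, LL.smul_v]
    rw [h6] at h10
    have h11 : μ = (l μ : ℝ) := smul_left_injective ℝ hl' h10
    exact no_sqrt17 (l μ) (by rw [← h11]; exact hμ2)
  · have hd : (dd i : ℝ) < 0 := by
      fin_cases i
      · simp [dd]
      · exact absurd rfl hi
      · simp [dd]
    have hb : β = 0 := by
      have k1 : 0 ≤ -dd i * β ^ 2 := mul_nonneg (neg_nonneg.2 hd.le) (sq_nonneg β)
      have k2 : (dd i : ℝ) * β ^ 2 = 0 := by nlinarith [sq_nonneg α]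
      have k3 := (mul_eq_zero.1 k2).resolve_left hd.ne
      exact pow_eq_zero_iff (two_ne_zero) |>.1 k3
    have ha : α = 0 := by
      rw [hb] at h0
      have : α ^ 2 = 0 := by linarith
      exact pow_eq_zero_iff (two_ne_zero) |>.1 this
    rw [ha, hb] at h4
    apply hl'
    rw [h4]; ext j <;> simp

end

end Pool.Agent.Helper807.NF
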