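import Pool.Agent.Helper807.NF.Main5

set_option autoImplicit false
open scoped TensorProduct

namespace Pool.Agent.Helper807.NF

/-- the real matrix of the comparison map -/
def Gr (r0 : ℝ) (r α β : Fin 3 → ℝ) (v : VV ℝ) : VV ℝ :=
  (r0 * v.1, fun i => r i * v.2.1 i, fun i => α i * v.2.2.1 i + dd i * β i * v.2.2.2 i,
    fun i => β i * v.2.2.1 i + α i * v.2.2.2 i)

lemma th_Gr (r0 : ℝ) (r α β : Fin 3 → ℝ) (v : VV ℝ) :
    th (Gr r0 r α β v) = Gr r0 r α β (th v) := by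
  ext i <;> simp [th, Gr] <;> ring

lemma Gr_inj (r0 : ℝ) (r α β : Fin 3 → ℝ) (h0 : r0 ≠ 0) (hr : ∀ i, r i ≠ 0)
    (hn : ∀ i, α i ^ 2 - dd i * β i ^ 2 ≠ 0) (v : VV ℝ) (h : Gr r0 r α β v = 0) : v = 0 := by
  have e1 : r0 * v.1 = 0 := congrArg Prod.fst h
  have e2 : ∀ i, r i * v.2.1 i = 0 := fun i => congrFun (congrArg (fun v : VV ℝ => v.2.1) h) i
  have e3 : ∀ i, α i * v.2.2.1 i + dd i * β i * v.2.2.2 i = 0 :=
    fun i => congrFun (congrArg (fun v : VV ℝ => v.2.2.1) h) i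
  have e4 : ∀ i, β i * v.2.2.1 i + α i * v.2.2.2 i = 0 :=
    fun i => congrFun (congrArg (fun v : VV ℝ => v.2.2.2) h) i
  ext i
  · exact (mul_eq_zero.1 e1).resolve_left h0
  · exact (mul_eq_zero.1 (e2 i)).resolve_left (hr i)
  · have : (α i ^ 2 - dd i * β i ^ 2) * v.2.2.1 i = 0 := by
      linear_combination α i * e3 i - dd i * β i * e4 i
    exact (mul_eq_zero.1 this).resolve_left (hn i)
  · have : (α i ^ 2 - dd i * β i ^ 2) * v.2.2.2 i = 0 := by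
      linear_combination α i * e4 i - β i * e3 i
    exact (mul_eq_zero.1 this).resolve_left (hn i)

lemma Gr_surj (r0 : ℝ) (r α β : Fin 3 → ℝ) (h0 : r0 ≠ 0) (hr : ∀ i, r i ≠ 0)
    (hn : ∀ i, α i ^ 2 - dd i * β i ^ 2 ≠ 0) (g : VV ℝ) : ∃ v, Gr r0 r α β v = g := by
  refine ⟨(g.1 / r0, fun i => g.2.1 i / r i,
    fun i => (α i * g.2.2.1 i - dd i * β i * g.2.2.2 i) / (α i ^ 2 - dd i * β i ^ 2),
    fun i => (α i * g.2.2.2 i - β i * g.2.2.1 i) / (α i ^ 2 - dd i * β i ^ 2)), ?_⟩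
  ext i
  · simp only [Gr]; field_simp
  · have := hr i
    simp only [Gr]; field_simp
  · have := hn i
    simp only [Gr]; field_simp; ring
  · have := hn i
    simp only [Gr]
    rw [mul_div_assoc', mul_div_assoc', ← add_div, div_eq_iff this]
    ring

/-- rational to real -/
def cv (v : VV ℚ) : VV ℝ := (v.1, fun i => v.2.1 i, fun i => v.2.2.1 i, fun i => v.2.2.2 i)

lemma cv_th (v : VV ℚ) : th (cv v) = cv (th v) := by
  ext i
  · simp [th, cv]
  · simp [th, cv, lam_cast]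
  · simp [th, cv, dd_cast]
  · simp [th, cv]

lemma cv_inj (v : VV ℚ) (h : cv v = 0) : v = 0 := by
  have e1 : (v.1 : ℝ) = 0 := congrArg Prod.fst h
  have e2 : ∀ i, (v.2.1 i : ℝ) = 0 := fun i => congrFun (congrArg (fun v : VV ℝ => v.2.1) h) i
  have e3 : ∀ i, (v.2.2.1 i : ℝ) = 0 := fun i => congrFun (congrArg (fun v : VV ℝ => v.2.2.1) h) i
  have e4 : ∀ i, (v.2.2.2 i : ℝ) = 0 := fun i => congrFun (congrArg (fun v : VV ℝ => v.2.2.2) h) i
  ext i
  · exact_mod_cast e1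
  · exact_mod_cast e2 i
  · exact_mod_cast e3 i
  · exact_mod_cast e4 i

section
variable {N : Type} [LieRing N] [LieAlgebra ℚ N]

/-- the frame map -/
noncomputable def sF (w : N) (x y z : Fin 3 → N) : VV ℚ →ₗ[ℚ] N where
  toFun v := v.1 • w + ∑ i, v.2.1 i • x i + ∑ i, v.2.2.1 i • y i + ∑ i, v.2.2.2 i • z i
  map_add' u v := by
    simp only [Prod.fst_add, Prod.snd_add, Pi.add_apply, add_smul, Finset.sum_add_distrib]
    abel
  map_smul' c u := by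
    simp only [Prod.smul_fst, Prod.smul_snd, Pi.smul_apply, smul_eq_mul, mul_smul,
      Finset.smul_sum, smul_add, RingHom.id_apply]

lemma sF_apply (w : N) (x y z : Fin 3 → N) (v : VV ℚ) : sF w x y z v =
  v.1 • w + ∑ i, v.2.1 i • x i + ∑ i, v.2.2.1 i • y i + ∑ i, v.2.2.2 i • z i := rfl

variable (Φ : LR ≃ₗ⁅ℝ⁆ ℝ ⊗[ℚ] N)

lemma v_sum (f : Fin 3 → LR) : (∑ i, f i).v = ∑ i, (f i).v := by
  simp [Fin.sum_univ_three]

lemma sF_v (w : N) (x y z : Fin 3 → N) (r0 : ℝ) (r α β : Fin 3 → ℝ)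
    (hw : (jj Φ w).v = r0 • e0) (hx : ∀ i, (jj Φ (x i)).v = (0, Pi.single i (r i), 0, 0))
    (hy : ∀ i, (jj Φ (y i)).v = (0, 0, Pi.single i (α i), Pi.single i (β i)))
    (hz : ∀ i, (jj Φ (z i)).v = (0, 0, Pi.single i (dd i * β i), Pi.single i (α i))) (v : VV ℚ) :
    (jj Φ (sF w x y z v)).v = Gr r0 r α β (cv v) := by
  rw [sF_apply, jj_add, jj_add, jj_add, jj_smul, jj_sum, jj_sum, jj_sum]
  simp only [LL.add_v, LL.smul_v, jj_smul, hw, hx, hy, hz, Fin.sum_univ_three]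
  ext i
  · simp [Gr, cv, e0]; ring
  · fin_cases i <;> simp [Gr, cv, e0] <;> ring
  · fin_cases i <;> simp [Gr, cv, e0] <;> ring
  · fin_cases i <;> simp [Gr, cv, e0] <;> ring

end

end Pool.Agent.Helper807.NF
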