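import Pool.Agent.Helper807.NF.Main6

set_option autoImplicit false
open scoped TensorProduct

namespace Pool.Agent.Helper807.NF

section
variable {N : Type} [LieRing N] [LieAlgebra ℚ N] (Φ : LR ≃ₗ⁅ℝ⁆ ℝ ⊗[ℚ] N) (l : ℝ →ₗ[ℚ] ℚ)

structure Frame (w : N) (x y z : Fin 3 → N) (r0 : ℝ) (r α β : Fin 3 → ℝ) : Prop where
  hw : w ∈ KK Φ l 10
  hwv : (jj Φ w).v = r0 • e0
  h0 : r0 ≠ 0
  hx : ∀ i, x i ∈ KK Φ l 10
  hr : ∀ i, r i ≠ 0
  hxv : ∀ i, (jj Φ (x i)).v = (0, Pi.single i (r i), 0, 0)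
  hy : ∀ i, y i ∈ KK Φ l 10
  hz : ∀ i, z i ∈ KK Φ l 10
  hn : ∀ i, α i ^ 2 - dd i * β i ^ 2 ≠ 0
  hyv : ∀ i, (jj Φ (y i)).v = (0, 0, Pi.single i (α i), Pi.single i (β i))
  hzv : ∀ i, (jj Φ (z i)).v = (0, 0, Pi.single i (dd i * β i), Pi.single i (α i))

variable (hl : ∀ q : ℚ, l (q : ℝ) = q)
variable (p q : N) (hp : DD Φ l p = (1 : ℚ) • p) (hpa : (jj Φ p).a ≠ 0)
  (hq : DD Φ l q = (2 : ℚ) • q) (hqb : (jj Φ q).b = (jj Φ p).a ^ 2)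
variable (w : N) (x y z : Fin 3 → N) (r0 : ℝ) (r α β : Fin 3 → ℝ)
  (F : Frame Φ l w x y z r0 r α β)

include F in
lemma s_mem (v : VV ℚ) : sF w x y z v ∈ KK Φ l 10 := by
  rw [sF_apply]
  exact Submodule.add_mem _ (Submodule.add_mem _ (Submodule.add_mem _
    (Submodule.smul_mem _ _ F.hw) (Submodule.sum_mem _ fun i _ => Submodule.smul_mem _ _ (F.hx i)))
    (Submodule.sum_mem _ fun i _ => Submodule.smul_mem _ _ (F.hy i)))
    (Submodule.sum_mem _ fun i _ => Submodule.smul_mem _ _ (F.hz i))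

include F in
lemma s_v (v : VV ℚ) : (jj Φ (sF w x y z v)).v = Gr r0 r α β (cv v) :=
  sF_v Φ w x y z r0 r α β F.hwv F.hxv F.hyv F.hzv v

include F hl in
lemma s_a (v : VV ℚ) : (jj Φ (sF w x y z v)).a = 0 :=
  e1 Φ l hl ((mem_KK Φ l).1 (s_mem Φ l w x y z r0 r α β F v)) (by norm_num)

include F hl hp hq hqb in
lemma L1 (v : VV ℚ) : ⁅q, sF w x y z v⁆ = ⁅p, ⁅p, sF w x y z (th v)⁆⁆ := by
  have hp' := (mem_KK Φ l).2 hp
  have hq' := (mem_KK Φ l).2 hq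
  have h1 := lie_KK Φ l hq' (s_mem Φ l w x y z r0 r α β F v)
  have h2 := lie_KK Φ l hp' (lie_KK Φ l hp' (s_mem Φ l w x y z r0 r α β F (th v)))
  norm_num at h1 h2
  have h3 := f12 Φ l hl (Submodule.sub_mem _ h1 h2) (by
    rw [jj_sub, LL.sub_v2, jj_lie, jj_lie, jj_lie,
      qv_v2 Φ l hl p q hq hqb _ (s_a Φ l hl w x y z r0 r α β F v),
      ppx_v2 Φ p _ (s_a Φ l hl w x y z r0 r α β F _),
      s_v Φ l w x y z r0 r α β F, s_v Φ l w x y z r0 r α β F, th_Gr, cv_th, sub_self])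
  exact sub_eq_zero.1 h3

include F in
lemma zz_mem (i : Fin 3) : ⁅y i, z i⁆ ∈ KK Φ l 20 := by
  have := lie_KK Φ l (F.hy i) (F.hz i)
  norm_num at this; exact this

include F in
lemma zz_z (i : Fin 3) : (jj Φ ⁅y i, z i⁆).z = Pi.single i (α i ^ 2 - dd i * β i ^ 2) := by
  rw [jj_lie, LL.br_z, F.hyv, F.hzv]
  ext j
  by_cases hj : j = i
  · subst hj; simp [be]; ring
  · simp [be, hj]

include F hl in
lemma L3 (i : Fin 3) : ∃ t : ℚ, ⁅x (i+1), x (i+2)⁆ = t • ⁅y i, z i⁆ ∧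
    r (i+1) * r (i+2) = t * (α i ^ 2 - dd i * β i ^ 2) := by
  have hx20 : ⁅x (i+1), x (i+2)⁆ ∈ KK Φ l 20 := by
    have := lie_KK Φ l (F.hx (i+1)) (F.hx (i+2))
    norm_num at this; exact this
  have hxz : (jj Φ ⁅x (i+1), x (i+2)⁆).z = Pi.single i (r (i+1) * r (i+2)) := by
    rw [jj_lie, LL.br_z, F.hxv, F.hxv]
    ext j
    fin_cases i <;> fin_cases j <;> simp [be]
  have hni := F.hn i
  set n := α i ^ 2 - dd i * β i ^ 2 with hn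
  set c : ℝ := r (i+1) * r (i+2) / n with hc
  obtain ⟨a1, a2, a3, a4⟩ := e11 Φ l hl ((mem_KK Φ l).1 hx20) (by norm_num) (by norm_num)
    (by norm_num) (by norm_num)
  obtain ⟨b1, b2, b3, b4⟩ := e11 Φ l hl ((mem_KK Φ l).1 (zz_mem Φ l w x y z r0 r α β F i))
    (by norm_num) (by norm_num) (by norm_num) (by norm_num)
  have hV : inV (jj Φ ⁅x (i+1), x (i+2)⁆ - c • jj Φ ⁅y i, z i⁆) := by
    refine ⟨by simp [a1, b1], by simp [a2, b2], by simp [a3, b3], by simp [a4, b4], ?_⟩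
    rw [LL.sub_z, LL.smul_z, hxz, zz_z Φ l w x y z r0 r α β F i]
    ext j
    by_cases hj : j = i
    · subst hj
      simp only [Pi.sub_apply, Pi.smul_apply, Pi.single_eq_same, smul_eq_mul, Pi.zero_apply]
      rw [hc, ← hn, div_mul_cancel₀ _ hni, sub_self]
    · simp [hj]
  have hV' := V_pres Φ hV l
  rw [PP_sub, PP_jj Φ l hl, PP_smul_jj] at hV'
  have h0 := f20 Φ l hl (Submodule.sub_mem _ hx20
    (Submodule.smul_mem _ (l c) (zz_mem Φ l w x y z r0 r α β F i))) hV'.2.2.2.2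
  refine ⟨l c, sub_eq_zero.1 h0, ?_⟩
  have h1 := congrArg (fun u => (jj Φ u).z i) (sub_eq_zero.1 h0)
  simp only [jj_smul, LL.smul_z, hxz, zz_z Φ l w x y z r0 r α β F i, Pi.single_eq_same,
    Pi.smul_apply, smul_eq_mul] at h1
  exact h1

lemma z_sum' (f : Fin 3 → LR) : (∑ i, f i).z = ∑ i, (f i).z := by
  simp [Fin.sum_univ_three]

include F hl in
lemma L4 (t : Fin 3 → ℚ) (ht : ∀ i, r (i+1) * r (i+2) = t i * (α i ^ 2 - dd i * β i ^ 2))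
    (u v : VV ℚ) :
    ⁅sF w x y z u, sF w x y z v⁆ = ∑ i, be t u v i • ⁅y i, z i⁆ := by
  have h1 := lie_KK Φ l (s_mem Φ l w x y z r0 r α β F u) (s_mem Φ l w x y z r0 r α β F v)
  norm_num at h1
  have h2 : ∑ i, be t u v i • ⁅y i, z i⁆ ∈ KK Φ l 20 :=
    Submodule.sum_mem _ fun i _ => Submodule.smul_mem _ _ (zz_mem Φ l w x y z r0 r α β F i)
  have h3 := f20 Φ l hl (Submodule.sub_mem _ h1 h2) (by
    rw [jj_sub, LL.sub_z, jj_lie, LL.br_z, s_v Φ l w x y z r0 r α β F,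
      s_v Φ l w x y z r0 r α β F, jj_sum, z_sum']
    simp only [jj_smul, LL.smul_z, zz_z Φ l w x y z r0 r α β F]
    ext j
    have hj := ht j
    simp only [Pi.sub_apply, Finset.sum_apply, Pi.smul_apply, smul_eq_mul, Pi.zero_apply]
    rw [Finset.sum_eq_single j (fun i _ hij => by simp [Ne.symm hij])
      (fun h => absurd (Finset.mem_univ _) h), Pi.single_eq_same]
    simp only [be, Gr, cv]
    push_cast
    linear_combination ((u.2.1 (j+1) : ℝ) * v.2.1 (j+2) - u.2.1 (j+2) * v.2.1 (j+1)) * hj)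
  exact sub_eq_zero.1 h3

/-- the comparison map -/
noncomputable def Psi (t : Fin 3 → ℚ) : LL ℚ t →ₗ[ℚ] N where
  toFun X := X.a • p + X.b • q + sF w x y z X.v + ⁅p, sF w x y z X.v1⁆
    + ⁅p, ⁅p, sF w x y z X.v2⁆⁆ + ∑ i, X.z i • ⁅y i, z i⁆
  map_add' X Y := by
    simp only [LL.add_a, LL.add_b, LL.add_v, LL.add_v1, LL.add_v2, LL.add_z, add_smul, map_add,
      lie_add, Pi.add_apply, Finset.sum_add_distrib]
    abel
  map_smul' c X := by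
    simp only [LL.smul_a, LL.smul_b, LL.smul_v, LL.smul_v1, LL.smul_v2, LL.smul_z, mul_smul,
      map_smul, lie_smul, Pi.smul_apply, smul_eq_mul, Finset.smul_sum, smul_add, RingHom.id_apply]

lemma Psi_apply (t : Fin 3 → ℚ) (X : LL ℚ t) : Psi p q w x y z t X =
    X.a • p + X.b • q + sF w x y z X.v + ⁅p, sF w x y z X.v1⁆
    + ⁅p, ⁅p, sF w x y z X.v2⁆⁆ + ∑ i, X.z i • ⁅y i, z i⁆ := rfl

include F hl hp hpa hq hqb in
lemma Psi_lie (t : Fin 3 → ℚ) (ht : ∀ i, r (i+1) * r (i+2) = t i * (α i ^ 2 - dd i * β i ^ 2))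
    (X Y : LL ℚ t) : Psi p q w x y z t ⁅X, Y⁆ = ⁅Psi p q w x y z t X, Psi p q w x y z t Y⁆ := by
  have hp' := (mem_KK Φ l).2 hp
  have hq' := (mem_KK Φ l).2 hq
  have S := s_mem Φ l w x y z r0 r α β F
  have S1 : ∀ v, ⁅p, sF w x y z v⁆ ∈ KK Φ l 11 := fun v => by
    have := lie_KK Φ l hp' (S v); norm_num at this; exact this
  have S2 : ∀ v, ⁅p, ⁅p, sF w x y z v⁆⁆ ∈ KK Φ l 12 := fun v => by
    have := lie_KK Φ l hp' (S1 v); norm_num at this; exact this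
  have Zm : ∀ Z : Fin 3 → ℚ, ∑ i, Z i • ⁅y i, z i⁆ ∈ KK Φ l 20 := fun Z =>
    Submodule.sum_mem _ fun i _ => Submodule.smul_mem _ _ (zz_mem Φ l w x y z r0 r α β F i)
  have k := fun {a b : ℚ} {u v : N} (hu : u ∈ KK Φ l a) (hv : v ∈ KK Φ l b) h =>
    lie_KK_zero Φ l hl hu hv h
  have pq0 : ⁅p, q⁆ = 0 := k hp' hq' (by norm_num)
  have p2 : ∀ v, ⁅p, ⁅p, ⁅p, sF w x y z v⁆⁆⁆ = 0 := fun v => k hp' (S2 v) (by norm_num)
  have pz : ∀ Z : Fin 3 → ℚ, ⁅p, ∑ i, Z i • ⁅y i, z i⁆⁆ = 0 := fun Z => k hp' (Zm Z) (by norm_num)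
  have qp0 : ⁅q, p⁆ = 0 := by rw [← lie_skew, pq0, neg_zero]
  have q1 : ∀ v, ⁅q, ⁅p, sF w x y z v⁆⁆ = 0 := fun v => k hq' (S1 v) (by norm_num)
  have q2 : ∀ v, ⁅q, ⁅p, ⁅p, sF w x y z v⁆⁆⁆ = 0 := fun v => k hq' (S2 v) (by norm_num)
  have qz : ∀ Z : Fin 3 → ℚ, ⁅q, ∑ i, Z i • ⁅y i, z i⁆⁆ = 0 := fun Z => k hq' (Zm Z) (by norm_num)
  have sp : ∀ v, ⁅sF w x y z v, p⁆ = -⁅p, sF w x y z v⁆ := fun v => (lie_skew _ _).symm
  have sq : ∀ v, ⁅sF w x y z v, q⁆ = -⁅p, ⁅p, sF w x y z (th v)⁆⁆ := fun v => by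
    rw [← lie_skew, L1 Φ l hl p q hp hq hqb w x y z r0 r α β F]
  have s1 : ∀ u v, ⁅sF w x y z u, ⁅p, sF w x y z v⁆⁆ = 0 := fun u v => k (S u) (S1 v) (by norm_num)
  have s2 : ∀ u v, ⁅sF w x y z u, ⁅p, ⁅p, sF w x y z v⁆⁆⁆ = 0 := fun u v =>
    k (S u) (S2 v) (by norm_num)
  have sz : ∀ u, ∀ Z : Fin 3 → ℚ, ⁅sF w x y z u, ∑ i, Z i • ⁅y i, z i⁆⁆ = 0 :=
    fun u Z => k (S u) (Zm Z) (by norm_num)
  have t1p : ∀ v, ⁅⁅p, sF w x y z v⁆, p⁆ = -⁅p, ⁅p, sF w x y z v⁆⁆ := fun v => (lie_skew _ _).symm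
  have t1q : ∀ v, ⁅⁅p, sF w x y z v⁆, q⁆ = 0 := fun v => k (S1 v) hq' (by norm_num)
  have t1s : ∀ u v, ⁅⁅p, sF w x y z u⁆, sF w x y z v⁆ = 0 := fun u v => k (S1 u) (S v) (by norm_num)
  have t11 : ∀ u v, ⁅⁅p, sF w x y z u⁆, ⁅p, sF w x y z v⁆⁆ = 0 :=
    fun u v => k (S1 u) (S1 v) (by norm_num)
  have t12 : ∀ u v, ⁅⁅p, sF w x y z u⁆, ⁅p, ⁅p, sF w x y z v⁆⁆⁆ = 0 :=
    fun u v => k (S1 u) (S2 v) (by norm_num)
  have t1z : ∀ u, ∀ Z : Fin 3 → ℚ, ⁅⁅p, sF w x y z u⁆, ∑ i, Z i • ⁅y i, z i⁆⁆ = 0 :=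
    fun u Z => k (S1 u) (Zm Z) (by norm_num)
  have t2p : ∀ v, ⁅⁅p, ⁅p, sF w x y z v⁆⁆, p⁆ = 0 := fun v => k (S2 v) hp' (by norm_num)
  have t2q : ∀ v, ⁅⁅p, ⁅p, sF w x y z v⁆⁆, q⁆ = 0 := fun v => k (S2 v) hq' (by norm_num)
  have t2s : ∀ u v, ⁅⁅p, ⁅p, sF w x y z u⁆⁆, sF w x y z v⁆ = 0 :=
    fun u v => k (S2 u) (S v) (by norm_num)
  have t21 : ∀ u v, ⁅⁅p, ⁅p, sF w x y z u⁆⁆, ⁅p, sF w x y z v⁆⁆ = 0 :=
    fun u v => k (S2 u) (S1 v) (by norm_num)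
  have t22 : ∀ u v, ⁅⁅p, ⁅p, sF w x y z u⁆⁆, ⁅p, ⁅p, sF w x y z v⁆⁆⁆ = 0 :=
    fun u v => k (S2 u) (S2 v) (by norm_num)
  have t2z : ∀ u, ∀ Z : Fin 3 → ℚ, ⁅⁅p, ⁅p, sF w x y z u⁆⁆, ∑ i, Z i • ⁅y i, z i⁆⁆ = 0 :=
    fun u Z => k (S2 u) (Zm Z) (by norm_num)
  have zp : ∀ Z : Fin 3 → ℚ, ⁅∑ i, Z i • ⁅y i, z i⁆, p⁆ = 0 := fun Z => k (Zm Z) hp' (by norm_num)
  have zq : ∀ Z : Fin 3 → ℚ, ⁅∑ i, Z i • ⁅y i, z i⁆, q⁆ = 0 := fun Z => k (Zm Z) hq' (by norm_num)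
  have zs : ∀ (Z : Fin 3 → ℚ) v, ⁅∑ i, Z i • ⁅y i, z i⁆, sF w x y z v⁆ = 0 :=
    fun Z v => k (Zm Z) (S v) (by norm_num)
  have z1 : ∀ (Z : Fin 3 → ℚ) v, ⁅∑ i, Z i • ⁅y i, z i⁆, ⁅p, sF w x y z v⁆⁆ = 0 :=
    fun Z v => k (Zm Z) (S1 v) (by norm_num)
  have z2 : ∀ (Z : Fin 3 → ℚ) v, ⁅∑ i, Z i • ⁅y i, z i⁆, ⁅p, ⁅p, sF w x y z v⁆⁆⁆ = 0 :=
    fun Z v => k (Zm Z) (S2 v) (by norm_num)
  have zz : ∀ (Z Z' : Fin 3 → ℚ), ⁅∑ i, Z i • ⁅y i, z i⁆, ∑ i, Z' i • ⁅y i, z i⁆⁆ = 0 :=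
    fun Z Z' => k (Zm Z) (Zm Z') (by norm_num)
  have qs := L1 Φ l hl p q hp hq hqb w x y z r0 r α β F
  have ss := L4 Φ l hl w x y z r0 r α β F t ht
  rw [Psi_apply, Psi_apply, Psi_apply]
  simp only [LL.br_a, LL.br_b, LL.br_v, LL.br_v1, LL.br_v2, LL.br_z]
  simp only [add_lie, lie_add, smul_lie, lie_smul, lie_self, pq0, p2, pz, qp0, q1, q2, qz, sp, sq,
    s1, s2, sz, t1p, t1q, t1s, t11, t12, t1z, t2p, t2q, t2s, t21, t22, t2z, zp, zq, zs, z1, z2, zz,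
    qs, ss, map_sub, map_add, map_smul, map_zero, lie_sub, smul_zero, zero_smul,
    add_zero, zero_add, smul_neg, smul_add]
  abel

include F hl hp hpa hq hqb in
lemma Psi_inj (t : Fin 3 → ℚ) (X : LL ℚ t) (h : Psi p q w x y z t X = 0) : X = 0 := by
  have hp' := (mem_KK Φ l).2 hp
  have hq' := (mem_KK Φ l).2 hq
  have S := s_mem Φ l w x y z r0 r α β F
  have S1 : ∀ v, ⁅p, sF w x y z v⁆ ∈ KK Φ l 11 := fun v => by
    have := lie_KK Φ l hp' (S v); norm_num at this; exact this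
  have S2 : ∀ v, ⁅p, ⁅p, sF w x y z v⁆⁆ ∈ KK Φ l 12 := fun v => by
    have := lie_KK Φ l hp' (S1 v); norm_num at this; exact this
  have Zm : ∀ Z : Fin 3 → ℚ, ∑ i, Z i • ⁅y i, z i⁆ ∈ KK Φ l 20 := fun Z =>
    Submodule.sum_mem _ fun i _ => Submodule.smul_mem _ _ (zz_mem Φ l w x y z r0 r α β F i)
  have C1 := fun v => e2 Φ l hl ((mem_KK Φ l).1 (S1 v)) (by norm_num) (by norm_num) (by norm_num)
  have C2 := fun v => e20 Φ l hl ((mem_KK Φ l).1 (S2 v)) (by norm_num) (by norm_num) (by norm_num)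
    (by norm_num) (by norm_num)
  have CZ := fun Z => e11 Φ l hl ((mem_KK Φ l).1 (Zm Z)) (by norm_num) (by norm_num) (by norm_num)
    (by norm_num)
  obtain ⟨qa, qv⟩ := e10 Φ l hl hq (by norm_num) (by norm_num)
  have Ginj := Gr_inj r0 r α β F.h0 F.hr F.hn
  rw [Psi_apply] at h
  have h1 := congrArg (fun u => (jj Φ u).a) h
  simp only [jj_add, jj_smul, jj_zero, LL.add_a, LL.smul_a, (C1 _).1, (C2 _).1, (CZ _).1, qa,
    s_a Φ l hl w x y z r0 r α β F, LL.zero_a, mul_zero, add_zero] at h1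
  have ha : X.a = 0 := by
    have := (mul_eq_zero.1 h1).resolve_right hpa
    exact_mod_cast this
  rw [ha, zero_smul, zero_add] at h
  have h2 := congrArg (fun u => (jj Φ u).v) h
  simp only [jj_add, jj_smul, jj_zero, LL.add_v, LL.smul_v, (C1 _).2.2, (C2 _).2.2.1, (CZ _).2.2.1,
    qv, s_v Φ l w x y z r0 r α β F, LL.zero_v, smul_zero, add_zero, zero_add] at h2
  have hv : X.v = 0 := cv_inj _ (Ginj _ h2)
  rw [hv, map_zero, add_zero] at h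
  have h3 := congrArg (fun u => (jj Φ u).b) h
  simp only [jj_add, jj_smul, jj_zero, LL.add_b, LL.smul_b, (C1 _).2.1, (C2 _).2.1, (CZ _).2.1,
    hqb, LL.zero_b, add_zero] at h3
  have hb : X.b = 0 := by
    have := (mul_eq_zero.1 h3).resolve_right (pow_ne_zero 2 hpa)
    exact_mod_cast this
  rw [hb, zero_smul, zero_add] at h
  have h4 := congrArg (fun u => (jj Φ u).v1) h
  simp only [jj_add, jj_zero, LL.add_v1, (C2 _).2.2.2.1, (CZ _).2.2.2,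
    LL.zero_v1, add_zero] at h4
  rw [jj_lie, LL.br_v1, s_v Φ l w x y z r0 r α β F, s_a Φ l hl w x y z r0 r α β F, zero_smul,
    sub_zero] at h4
  have hv1 : X.v1 = 0 := cv_inj _ (Ginj _ ((smul_eq_zero.1 h4).resolve_left hpa))
  rw [hv1, map_zero, lie_zero, zero_add] at h
  have h5 := congrArg (fun u => (jj Φ u).z) h
  simp only [jj_add, jj_zero, LL.add_z, (C2 _).2.2.2.2, LL.zero_z, zero_add, jj_sum, z_sum',
    jj_smul, LL.smul_z, zz_z Φ l w x y z r0 r α β F] at h5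
  have hz : X.z = 0 := by
    ext j
    have h6 := congrFun h5 j
    simp only [Finset.sum_apply, Pi.smul_apply, smul_eq_mul, Pi.zero_apply] at h6
    rw [Finset.sum_eq_single j (fun i _ hij => by simp [Ne.symm hij])
      (fun h => absurd (Finset.mem_univ _) h), Pi.single_eq_same] at h6
    have := (mul_eq_zero.1 h6).resolve_right (F.hn j)
    exact_mod_cast this
  rw [hz] at h
  simp only [Pi.zero_apply, zero_smul, Finset.sum_const_zero, add_zero] at h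
  have h7 := congrArg (fun u => (jj Φ u).v2) h
  simp only [jj_lie, ppx_v2 Φ p _ (s_a Φ l hl w x y z r0 r α β F _), jj_zero, LL.zero_v2,
    s_v Φ l w x y z r0 r α β F] at h7
  have hv2 : X.v2 = 0 := cv_inj _ (Ginj _ ((smul_eq_zero.1 h7).resolve_left (pow_ne_zero 2 hpa)))
  exact LL.ext ha hb hv hv1 hv2 hz

include F hl in
lemma K10_range (u : N) (hu : u ∈ KK Φ l 10) : ∃ v : VV ℚ, sF w x y z v = u := by
  obtain ⟨g, hg⟩ := Gr_surj r0 r α β F.h0 F.hr F.hn (jj Φ u).v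
  refine ⟨(l g.1, fun i => l (g.2.1 i), fun i => l (g.2.2.1 i), fun i => l (g.2.2.2 i)), ?_⟩
  set Y : LR := g.1 • jj Φ w + ∑ i, g.2.1 i • jj Φ (x i) + ∑ i, g.2.2.1 i • jj Φ (y i)
    + ∑ i, g.2.2.2 i • jj Φ (z i) with hY
  have hYv : Y.v = (jj Φ u).v := by
    rw [← hg, hY]
    simp only [LL.add_v, LL.smul_v, F.hwv, F.hxv, F.hyv, F.hzv, Fin.sum_univ_three]
    ext i
    · simp [Gr, e0]; ring
    · fin_cases i <;> simp [Gr, e0] <;> ring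
    · fin_cases i <;> simp [Gr, e0] <;> ring
    · fin_cases i <;> simp [Gr, e0] <;> ring
  have a10 : ∀ u ∈ KK Φ l 10, (jj Φ u).a = 0 := fun u hu =>
    e1 Φ l hl ((mem_KK Φ l).1 hu) (by norm_num)
  have hYa : Y.a = 0 := by
    rw [hY]
    simp only [LL.add_a, LL.smul_a, Fin.sum_univ_three, a10 _ F.hw, a10 _ (F.hx _), a10 _ (F.hy _),
      a10 _ (F.hz _), mul_zero, add_zero]
  have h1 : inZ2 (Y - jj Φ u) := ⟨by simp [hYa, a10 u hu], by simp [hYv]⟩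
  have h2 := Z2_pres Φ h1 l
  have h3 : PP Φ l (Y - jj Φ u) = sF w x y z
      (l g.1, fun i => l (g.2.1 i), fun i => l (g.2.2.1 i), fun i => l (g.2.2.2 i)) - u := by
    rw [PP_sub, PP_jj Φ l hl, hY, PP_add, PP_add, PP_add, PP_sum, PP_sum, PP_sum, sF_apply]
    simp only [PP_smul_jj]
  rw [h3] at h2
  exact sub_eq_zero.1 (f10 Φ l hl (Submodule.sub_mem _ (s_mem Φ l w x y z r0 r α β F _) hu) h2.2)

include F hl in
lemma K20_range (u : N) (hu : u ∈ KK Φ l 20) : ∃ Z : Fin 3 → ℚ, ∑ i, Z i • ⁅y i, z i⁆ = u := by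
  set c : Fin 3 → ℝ := fun i => (jj Φ u).z i / (α i ^ 2 - dd i * β i ^ 2) with hc
  refine ⟨fun i => l (c i), ?_⟩
  have zin : ∀ u ∈ KK Φ l 20, inZ (jj Φ u) := fun u hu =>
    e11 Φ l hl ((mem_KK Φ l).1 hu) (by norm_num) (by norm_num) (by norm_num) (by norm_num)
  have hz := zz_mem Φ l w x y z r0 r α β F
  have h1 : inV ((∑ i, c i • jj Φ ⁅y i, z i⁆) - jj Φ u) := by
    obtain ⟨u1, u2, u3, u4⟩ := zin u hu
    have g := fun i => zin _ (hz i)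
    refine ⟨?_, ?_, ?_, ?_, ?_⟩
    · simp [Fin.sum_univ_three, (g _).1, u1]
    · simp [Fin.sum_univ_three, (g _).2.1, u2]
    · simp [Fin.sum_univ_three, (g _).2.2.1, u3]
    · simp [Fin.sum_univ_three, (g _).2.2.2, u4]
    · rw [LL.sub_z, z_sum']
      simp only [LL.smul_z, zz_z Φ l w x y z r0 r α β F]
      ext j
      simp only [Pi.sub_apply, Finset.sum_apply, Pi.smul_apply, smul_eq_mul, Pi.zero_apply]
      rw [Finset.sum_eq_single j (fun i _ hij => by simp [Ne.symm hij])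
        (fun h => absurd (Finset.mem_univ _) h), Pi.single_eq_same, hc]
      have := F.hn j
      simp only
      rw [div_mul_cancel₀ _ this, sub_self]
  have h2 := V_pres Φ h1 l
  rw [PP_sub, PP_jj Φ l hl, PP_sum] at h2
  simp only [PP_smul_jj] at h2
  have h3 := f20 Φ l hl (Submodule.sub_mem _ (Submodule.sum_mem _ fun i _ =>
    Submodule.smul_mem _ _ (hz i)) hu) h2.2.2.2.2
  exact sub_eq_zero.1 h3

include F hl hp hpa hq hqb in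
lemma Psi_surj (t : Fin 3 → ℚ) (u : N) : ∃ X, Psi p q w x y z t X = u := by
  have key := decomp_ind Φ l hl (LinearMap.range (Psi p q w x y z t)) (by
    intro i hi
    rcases hi with rfl | rfl | rfl | rfl | rfl | rfl
    · intro u hu
      obtain ⟨c, rfl⟩ := K1_span Φ l hl p hp hpa u hu
      exact ⟨⟨c, 0, 0, 0, 0, 0⟩, by simp [Psi_apply]⟩
    · intro u hu
      obtain ⟨v, rfl⟩ := K10_range Φ l hl w x y z r0 r α β F u hu
      exact ⟨⟨0, 0, v, 0, 0, 0⟩, by simp [Psi_apply]⟩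
    · intro u hu
      obtain ⟨c, rfl⟩ := K2_span Φ l hl p q hpa hq hqb u hu
      exact ⟨⟨0, c, 0, 0, 0, 0⟩, by simp [Psi_apply]⟩
    · intro u hu
      obtain ⟨u', hu', rfl⟩ := K11_le Φ l hl p hp hpa hu
      obtain ⟨v, rfl⟩ := K10_range Φ l hl w x y z r0 r α β F u' hu'
      exact ⟨⟨0, 0, 0, v, 0, 0⟩, by simp [Psi_apply]⟩
    · intro u hu
      obtain ⟨Z, rfl⟩ := K20_range Φ l hl w x y z r0 r α β F u hu
      exact ⟨⟨0, 0, 0, 0, 0, Z⟩, by simp [Psi_apply]⟩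
    · intro u hu
      obtain ⟨u', hu', rfl⟩ := K12_le Φ l hl p hp hpa hu
      obtain ⟨u'', hu'', rfl⟩ := hu'
      obtain ⟨v, rfl⟩ := K10_range Φ l hl w x y z r0 r α β F u'' hu''
      exact ⟨⟨0, 0, 0, 0, v, 0⟩, by simp [Psi_apply]⟩) u
  exact key

end

end Pool.Agent.Helper807.NF
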