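import Pool.Agent.Helper807.NF.Iso

set_option autoImplicit false
open scoped TensorProduct

namespace Pool.Agent.Helper807.NF

def e0Q : VV ℚ := (1, 0, 0, 0)

section
variable {τ τ' : Fin 3 → ℚ}

def pQ : LL ℚ τ := ⟨1, 0, 0, 0, 0, 0⟩
def qQ : LL ℚ τ := ⟨0, 1, 0, 0, 0, 0⟩
def vQ (v : VV ℚ) : LL ℚ τ := ⟨0, 0, v, 0, 0, 0⟩
def zQ (z : Fin 3 → ℚ) : LL ℚ τ := ⟨0, 0, 0, 0, 0, z⟩

lemma br_ppQ (Y : LL ℚ τ) : ⁅⁅Y, (pQ : LL ℚ τ)⁆, (pQ : LL ℚ τ)⁆.v2 = Y.v := by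
  show ((0:ℚ) • (0:VV ℚ) - (1:ℚ) • (Y.a • (0:VV ℚ) - (1:ℚ) • Y.v) + (0:ℚ) • th (0:VV ℚ)
    - (0:ℚ) • th (0 : VV ℚ)) = Y.v
  rw [zero_smul, zero_smul, smul_zero, one_smul, one_smul]
  abel

lemma nH (Φ : LL ℚ τ ≃ₗ⁅ℚ⁆ LL ℚ τ') (X : LL ℚ τ) (h : X.a = 0) : (Φ X).a = 0 := by
  have h1 : ∀ Y W : LL ℚ τ', ⁅Φ X, ⁅Y, W⁆⁆ = 0 := by
    intro Y W
    have : ⁅Φ X, ⁅Y, W⁆⁆ = Φ ⁅X, ⁅Φ.symm Y, Φ.symm W⁆⁆ := by
      rw [LieEquiv.map_lie, LieEquiv.map_lie, LieEquiv.apply_symm_apply, LieEquiv.apply_symm_apply]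
    rw [this]
    have : ⁅X, ⁅Φ.symm Y, Φ.symm W⁆⁆ = 0 := by
      apply LL.ext <;> simp only [LL.br_a, LL.br_b, LL.br_v, LL.br_v1, LL.br_v2, LL.br_z, h,
        th_zero, be_zero_right, zero_smul, smul_zero, sub_zero, add_zero, LL.zero_a, LL.zero_b,
        LL.zero_v, LL.zero_v1, LL.zero_v2, LL.zero_z]
    rw [this, map_zero]
  have h2 := congrArg LL.v2 (h1 (pQ : LL ℚ τ') (vQ e0Q : LL ℚ τ'))
  have h3 := congrArg Prod.fst h2
  simpa [pQ, vQ, e0Q, th_zero] using h3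

lemma nZ2 (Φ : LL ℚ τ ≃ₗ⁅ℚ⁆ LL ℚ τ') (X : LL ℚ τ) (h : X.a = 0) (hv : X.v = 0) :
    (Φ X).v = 0 := by
  have h1 : ∀ Y W : LL ℚ τ', ⁅⁅Φ X, Y⁆, W⁆ = 0 := by
    intro Y W
    have : ⁅⁅Φ X, Y⁆, W⁆ = Φ ⁅⁅X, Φ.symm Y⁆, Φ.symm W⁆ := by
      rw [LieEquiv.map_lie, LieEquiv.map_lie, LieEquiv.apply_symm_apply, LieEquiv.apply_symm_apply]
    rw [this]
    have : ⁅⁅X, Φ.symm Y⁆, Φ.symm W⁆ = 0 := by
      apply LL.ext <;> simp only [LL.br_a, LL.br_b, LL.br_v, LL.br_v1, LL.br_v2, LL.br_z, h, hv,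
        th_zero, be_zero_left, be_zero_right, zero_smul, smul_zero, sub_zero, add_zero, LL.zero_a,
        LL.zero_b, LL.zero_v, LL.zero_v1, LL.zero_v2, LL.zero_z]
    rw [this, map_zero]
  have h2 := congrArg LL.v2 (h1 (pQ : LL ℚ τ') (pQ : LL ℚ τ'))
  rw [br_ppQ] at h2
  exact h2

lemma nC (Φ : LL ℚ τ ≃ₗ⁅ℚ⁆ LL ℚ τ') (X : LL ℚ τ) (h : X.a = 0) (hb : X.b = 0) (hv : X.v = 0) :
    (Φ X).b = 0 := by
  have g1 := nH Φ X h
  have g2 := nZ2 Φ X h hv
  have h1 : ⁅Φ X, (vQ e0Q : LL ℚ τ')⁆ = 0 := by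
    have e : ⁅Φ X, (vQ e0Q : LL ℚ τ')⁆ = Φ ⁅X, Φ.symm (vQ e0Q : LL ℚ τ')⁆ := by
      rw [LieEquiv.map_lie, LieEquiv.apply_symm_apply]
    have h3 : (Φ.symm (vQ e0Q : LL ℚ τ')).a = 0 := nH Φ.symm (vQ e0Q) rfl
    rw [e]
    have : ⁅X, Φ.symm (vQ e0Q : LL ℚ τ')⁆ = 0 := by
      apply LL.ext <;> simp only [LL.br_a, LL.br_b, LL.br_v, LL.br_v1, LL.br_v2, LL.br_z, h, hb, hv,
        h3, th_zero, be_zero_left, be_zero_right, zero_smul, smul_zero, sub_zero, add_zero,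
        LL.zero_a, LL.zero_b, LL.zero_v, LL.zero_v1, LL.zero_v2, LL.zero_z]
    rw [this, map_zero]
  have h2 := congrArg LL.v2 h1
  have h3 := congrArg Prod.fst h2
  simpa [vQ, e0Q, th, g1, g2] using h3

lemma rat_sq_ne (q : ℚ) (i : Fin 3) : q ^ 2 ≠ dd i := by
  intro h
  fin_cases i
  · simp [dd] at h; nlinarith [sq_nonneg q]
  · simp [dd] at h
    have h1 : IsSquare (17 : ℚ) := ⟨q, by rw [← h]; ring⟩
    rw [show (17 : ℚ) = ((17 : ℕ) : ℚ) by norm_num, Rat.isSquare_natCast_iff] at h1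
    obtain ⟨m, hm⟩ := h1
    have : m ≤ 4 := by nlinarith
    interval_cases m <;> omega
  · simp [dd] at h; nlinarith [sq_nonneg q]

lemma eigQ (μ : ℚ) (w : VV ℚ) (h : th w = μ • w) (hw : w ≠ 0) :
    μ = 1 ∨ ∃ i, μ = lam i := by
  by_contra hcon
  simp only [not_or, not_exists] at hcon
  obtain ⟨h1, h2⟩ := hcon
  apply hw
  have a0 : w.1 = 0 := by
    have := congrArg Prod.fst h
    simp only [th, Prod.smul_fst, smul_eq_mul] at this
    have h3 : (μ - 1) * w.1 = 0 := by linarith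
    exact (mul_eq_zero.1 h3).resolve_left (sub_ne_zero.2 h1)
  have ax : ∀ j, w.2.1 j = 0 := by
    intro j
    have := congrFun (congrArg (fun v : VV ℚ => v.2.1) h) j
    simp only [th, Prod.smul_snd, Prod.smul_fst, Pi.smul_apply, smul_eq_mul] at this
    have h3 : (μ - lam j) * w.2.1 j = 0 := by linarith
    exact (mul_eq_zero.1 h3).resolve_left (sub_ne_zero.2 (h2 j))
  have hyz : ∀ j, w.2.2.1 j = 0 ∧ w.2.2.2 j = 0 := by
    intro j
    have h1 := congrFun (congrArg (fun v : VV ℚ => v.2.2.1) h) j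
    have h2 := congrFun (congrArg (fun v : VV ℚ => v.2.2.2) h) j
    simp only [th, Prod.smul_snd, Prod.smul_fst, Pi.smul_apply, smul_eq_mul] at h1 h2
    have h3 : (μ^2 - dd j) * w.2.2.2 j = 0 := by rw [h2] at h1; linarith
    have h4 := (mul_eq_zero.1 h3).resolve_left (sub_ne_zero.2 (rat_sq_ne μ j))
    exact ⟨by rw [h2, h4, mul_zero], h4⟩
  ext j
  · exact a0
  · exact ax j
  · exact (hyz j).1
  · exact (hyz j).2

lemma lamQ_ne_one (i : Fin 3) : (lam i : ℚ) ≠ 1 := by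
  fin_cases i <;> norm_num [lam]
lemma lamQ_inj {i j : Fin 3} (h : (lam i : ℚ) = lam j) : i = j := by
  fin_cases i <;> fin_cases j <;> first | rfl | (exfalso; norm_num [lam] at h)
lemma ddQ_ne_one (i : Fin 3) : (dd i : ℚ) ≠ 1 := by
  fin_cases i <;> norm_num [dd]
lemma ddQ_inj {i j : Fin 3} (h : (dd i : ℚ) = dd j) : i = j := by
  fin_cases i <;> fin_cases j <;> first | rfl | (exfalso; norm_num [dd] at h)

lemma eigQ_lam (i : Fin 3) (w : VV ℚ) (h : th w = (lam i : ℚ) • w) :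
    w = (0, Pi.single i (w.2.1 i), 0, 0) := by
  have h0 : w.1 = 0 := by
    have := congrArg Prod.fst h
    simp only [th, Prod.smul_fst, smul_eq_mul] at this
    have h1 : (lam i - 1 : ℚ) * w.1 = 0 := by linarith
    exact (mul_eq_zero.1 h1).resolve_left (sub_ne_zero.2 (lamQ_ne_one i))
  have hx : ∀ j, j ≠ i → w.2.1 j = 0 := by
    intro j hj
    have := congrFun (congrArg (fun v : VV ℚ => v.2.1) h) j
    simp only [th, Prod.smul_snd, Prod.smul_fst, Pi.smul_apply, smul_eq_mul] at this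
    have h1 : (lam j - lam i : ℚ) * w.2.1 j = 0 := by linarith
    exact (mul_eq_zero.1 h1).resolve_left (sub_ne_zero.2 (fun e => hj (lamQ_inj e)))
  have hyz : ∀ j, w.2.2.1 j = 0 ∧ w.2.2.2 j = 0 := by
    intro j
    have h1 := congrFun (congrArg (fun v : VV ℚ => v.2.2.1) h) j
    have h2 := congrFun (congrArg (fun v : VV ℚ => v.2.2.2) h) j
    simp only [th, Prod.smul_snd, Prod.smul_fst, Pi.smul_apply, smul_eq_mul] at h1 h2
    have h3 : ((lam i : ℚ)^2 - dd j) * w.2.2.2 j = 0 := by rw [h2] at h1; linarith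
    have h4 := (mul_eq_zero.1 h3).resolve_left (sub_ne_zero.2 (rat_sq_ne _ j))
    exact ⟨by rw [h2, h4, mul_zero], h4⟩
  refine Prod.ext h0 (Prod.ext ?_ (Prod.ext ?_ ?_))
  · ext j
    by_cases hj : j = i
    · subst hj; simp
    · simp [hj, hx j hj]
  · ext j; simp [(hyz j).1]
  · ext j; simp [(hyz j).2]

lemma eigQ_dd (i : Fin 3) (w : VV ℚ) (h : th (th w) = (dd i : ℚ) • w) :
    w = (0, 0, Pi.single i (w.2.2.1 i), Pi.single i (w.2.2.2 i)) := by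
  have h0 : w.1 = 0 := by
    have := congrArg Prod.fst h
    simp only [th, Prod.smul_fst, smul_eq_mul] at this
    have h1 : (dd i - 1 : ℚ) * w.1 = 0 := by linarith
    exact (mul_eq_zero.1 h1).resolve_left (sub_ne_zero.2 (ddQ_ne_one i))
  have hx : ∀ j, w.2.1 j = 0 := by
    intro j
    have := congrFun (congrArg (fun v : VV ℚ => v.2.1) h) j
    simp only [th, Prod.smul_snd, Prod.smul_fst, Pi.smul_apply, smul_eq_mul] at this
    have h1 : ((lam j : ℚ)^2 - dd i : ℚ) * w.2.1 j = 0 := by linarith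
    exact (mul_eq_zero.1 h1).resolve_left (sub_ne_zero.2 (rat_sq_ne _ i))
  have hy : ∀ j, j ≠ i → w.2.2.1 j = 0 := by
    intro j hj
    have := congrFun (congrArg (fun v : VV ℚ => v.2.2.1) h) j
    simp only [th, Prod.smul_snd, Prod.smul_fst, Pi.smul_apply, smul_eq_mul] at this
    have h1 : (dd j - dd i : ℚ) * w.2.2.1 j = 0 := by linarith
    exact (mul_eq_zero.1 h1).resolve_left (sub_ne_zero.2 (fun e => hj (ddQ_inj e)))
  have hz : ∀ j, j ≠ i → w.2.2.2 j = 0 := by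
    intro j hj
    have := congrFun (congrArg (fun v : VV ℚ => v.2.2.2) h) j
    simp only [th, Prod.smul_snd, Pi.smul_apply, smul_eq_mul] at this
    have h1 : (dd j - dd i : ℚ) * w.2.2.2 j = 0 := by linarith
    exact (mul_eq_zero.1 h1).resolve_left (sub_ne_zero.2 (fun e => hj (ddQ_inj e)))
  refine Prod.ext h0 (Prod.ext ?_ (Prod.ext ?_ ?_))
  · ext j; simp [hx j]
  · ext j
    by_cases hj : j = i
    · subst hj; simp
    · simp [hj, hy j hj]
  · ext j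
    by_cases hj : j = i
    · subst hj; simp
    · simp [hj, hz j hj]

theorem iso_rel (Φ : LL ℚ τ ≃ₗ⁅ℚ⁆ LL ℚ τ') : ∃ r α β : Fin 3 → ℚ, (∀ i, r i ≠ 0) ∧
    ∀ i, τ' i * (r (i+1) * r (i+2)) = (α i ^ 2 - dd i * β i ^ 2) * τ i := by
  -- the induced map on the generators
  set G : VV ℚ → VV ℚ := fun v => (Φ (vQ v)).v with hG
  have Gsmul : ∀ (c : ℚ) v, G (c • v) = c • G v := by
    intro c v
    have : (vQ (c • v) : LL ℚ τ) = c • vQ v := by apply LL.ext <;> simp [vQ]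
    simp only [hG, this, map_smul, LL.smul_v]
  have Ga : ∀ v, (Φ (vQ v)).a = 0 := fun v => nH Φ (vQ v) rfl
  have Ginj : ∀ v, G v = 0 → v = 0 := by
    intro v hv
    have := nZ2 Φ.symm (Φ (vQ v)) (Ga v) hv
    simpa [vQ] using this
  have hqa : (Φ (qQ : LL ℚ τ)).a = 0 := nH Φ qQ rfl
  have hqv : (Φ (qQ : LL ℚ τ)).v = 0 := nZ2 Φ qQ rfl rfl
  have hpa : (Φ (pQ : LL ℚ τ)).a ≠ 0 := by
    intro h
    have := nH Φ.symm (Φ (pQ : LL ℚ τ)) h
    rw [LieEquiv.symm_apply_apply] at this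
    simp [pQ] at this
  have hqb : (Φ (qQ : LL ℚ τ)).b ≠ 0 := by
    intro h
    have := nC Φ.symm (Φ (qQ : LL ℚ τ)) hqa h hqv
    rw [LieEquiv.symm_apply_apply] at this
    simp [qQ] at this
  have hth : ∀ v, (Φ (pQ : LL ℚ τ)).a ^ 2 • G (th v) = (Φ (qQ : LL ℚ τ)).b • th (G v) := by
    intro v
    have h1 : (⁅(qQ : LL ℚ τ), (vQ v : LL ℚ τ)⁆ : LL ℚ τ) =
        ⁅(pQ : LL ℚ τ), ⁅(pQ : LL ℚ τ), (vQ (th v) : LL ℚ τ)⁆⁆ := by
      apply LL.ext <;> simp [qQ, pQ, vQ, be_zero_left, th_zero]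
    have h2 := congrArg (fun X => (Φ X).v2) h1
    simp only [LieEquiv.map_lie, LL.br_v2, LL.br_a, LL.br_b, LL.br_v, LL.br_v1, hqa, hqv, Ga,
      th_zero, zero_smul, smul_zero, sub_zero, add_zero, zero_add, smul_smul] at h2
    rw [sq]; exact h2.symm
  set c : ℚ := (Φ (qQ : LL ℚ τ)).b / (Φ (pQ : LL ℚ τ)).a ^ 2 with hc
  have hc0 : c ≠ 0 := div_ne_zero hqb (pow_ne_zero 2 hpa)
  have hth' : ∀ v, th (G v) = c⁻¹ • G (th v) := by
    intro v
    have h1 := hth v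
    have h2 := congrArg (fun u => ((Φ (qQ : LL ℚ τ)).b)⁻¹ • u) h1
    simp only [smul_smul, inv_mul_cancel₀ hqb, one_smul] at h2
    rw [← h2, hc, inv_div, div_eq_inv_mul]
  have hbe : ∀ u v, be τ' (G u) (G v) = (Φ (zQ (be τ u v))).z := by
    intro u v
    have h1 : (⁅(vQ u : LL ℚ τ), (vQ v : LL ℚ τ)⁆ : LL ℚ τ) = zQ (be τ u v) := by
      apply LL.ext <;> simp [vQ, zQ, th_zero]
    rw [← h1, LieEquiv.map_lie, LL.br_z]
  have hzs : ∀ (s : ℚ) z, (Φ (zQ (s • z))).z = s • (Φ (zQ z)).z := by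
    intro s z
    have : (zQ (s • z) : LL ℚ τ) = s • zQ z := by apply LL.ext <;> simp [zQ]
    rw [this, map_smul, LL.smul_z]
  set xv : Fin 3 → VV ℚ := fun i => (0, Pi.single i 1, 0, 0) with hxv
  set yv : Fin 3 → VV ℚ := fun i => (0, 0, Pi.single i 1, 0) with hyv
  have thx : ∀ i, th (xv i) = (lam i : ℚ) • xv i := by
    intro i
    ext j
    · simp [th, hxv]
    · by_cases hj : j = i
      · subst hj; simp [th, hxv]
      · simp [th, hxv, hj]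
    · simp [th, hxv]
    · simp [th, hxv]
  have thy : ∀ i, th (th (yv i)) = (dd i : ℚ) • yv i := by
    intro i
    ext j
    · simp [th, hyv]
    · simp [th, hyv]
    · by_cases hj : j = i
      · subst hj; simp [th, hyv]
      · simp [th, hyv, hj]
    · simp [th, hyv]
  have xne : ∀ i, xv i ≠ 0 := by
    intro i h
    have := congrFun (congrArg (fun v : VV ℚ => v.2.1) h) i
    simp [hxv] at this
  have the0 : th e0Q = e0Q := by ext i <;> simp [th, e0Q]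
  have c1 : c⁻¹ = 1 := by
    have h1 := eigQ (c⁻¹) (G e0Q) (by rw [hth', the0]) (fun h => by
      have := congrArg Prod.fst (Ginj _ h); simp [e0Q] at this)
    have h2 := eigQ (c⁻¹ * lam 2) (G (xv 2)) (by rw [hth', thx, Gsmul, smul_smul]) (fun h =>
      xne 2 (Ginj _ h))
    rcases h1 with h1 | ⟨i, h1⟩
    · exact h1
    · exfalso
      rw [h1] at h2
      rcases h2 with h2 | ⟨j, h2⟩
      · fin_cases i <;> norm_num [lam] at h2
      · fin_cases i <;> fin_cases j <;> norm_num [lam] at h2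
  have hth2 : ∀ v, th (G v) = G (th v) := fun v => by rw [hth', c1, one_smul]
  have GX : ∀ i, G (xv i) = (0, Pi.single i ((G (xv i)).2.1 i), 0, 0) := fun i =>
    eigQ_lam i _ (by rw [hth2, thx, Gsmul])
  have GY : ∀ i, G (yv i) = (0, 0, Pi.single i ((G (yv i)).2.2.1 i),
      Pi.single i ((G (yv i)).2.2.2 i)) := fun i =>
    eigQ_dd i _ (by rw [hth2, hth2, thy, Gsmul])
  refine ⟨fun i => (G (xv i)).2.1 i, fun i => (G (yv i)).2.2.1 i, fun i => (G (yv i)).2.2.2 i,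
    ?_, ?_⟩
  · intro i h
    have h' : (G (xv i)).2.1 i = 0 := h
    have h1 := GX i
    rw [h'] at h1
    apply xne i
    apply Ginj
    rw [h1]; ext j <;> simp
  · intro i
    have h1 := hbe (xv (i+1)) (xv (i+2))
    have h2 := hbe (yv i) (th (yv i))
    have e1 : be τ (xv (i+1)) (xv (i+2)) = τ i • Pi.single i 1 := by
      ext j
      fin_cases i <;> fin_cases j <;> simp [be, hxv]
    have e2 : be τ (yv i) (th (yv i)) = Pi.single i 1 := by
      ext j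
      by_cases hj : j = i
      · subst hj; simp [be, hyv, th]
      · simp [be, hyv, th, hj]
    rw [e1, hzs] at h1
    rw [e2] at h2
    rw [← h2] at h1
    have h3 := congrFun h1 i
    rw [← hth2] at h3
    rw [GX (i+1), GX (i+2), GY i] at h3
    have ne1 : i ≠ i + 1 := by fin_cases i <;> decide
    have ne2 : i ≠ i + 2 := by fin_cases i <;> decide
    have ne3 : i + 1 ≠ i + 2 := by fin_cases i <;> decide
    simp only [be, th, Pi.single_eq_same, Pi.smul_apply, smul_eq_mul, Pi.zero_apply, Pi.single_apply,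
      ne3, ne3.symm, if_false, if_true] at h3
    linear_combination h3

theorem not_iso : ¬ Nonempty (LL ℚ (fun _ => 1) ≃ₗ⁅ℚ⁆ LL ℚ (fun i => if i = 2 then 3 else 1)) := by
  rintro ⟨Φ⟩
  obtain ⟨r, α, β, hr, h⟩ := iso_rel Φ
  have h0 := h 0
  have h1 := h 1
  have h2 := h 2
  have e01 : (0 + 1 : Fin 3) = 1 := rfl
  have e02 : (0 + 2 : Fin 3) = 2 := rfl
  have e11 : (1 + 1 : Fin 3) = 2 := rfl
  have e12 : (1 + 2 : Fin 3) = 0 := rfl
  have e21 : (2 + 1 : Fin 3) = 0 := rfl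
  have e22 : (2 + 2 : Fin 3) = 1 := rfl
  have f0 : (if (0 : Fin 3) = 2 then (3:ℚ) else 1) = 1 := if_neg (by decide)
  have f1 : (if (1 : Fin 3) = 2 then (3:ℚ) else 1) = 1 := if_neg (by decide)
  have d0 : (dd 0 : ℚ) = -1 := rfl
  have d1 : (dd 1 : ℚ) = 17 := rfl
  have d2 : (dd 2 : ℚ) = -17 := rfl
  simp only [e01, e02, e11, e12, e21, e22, f0, f1, if_true, d0, d1, d2, one_mul, mul_one,
    neg_mul, sub_neg_eq_add] at h0 h1 h2
  apply not_GG_three (r 0 * r 1 * r 2) (mul_ne_zero (mul_ne_zero (hr 0) (hr 1)) (hr 2))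
  refine ⟨mul_ne_zero (by norm_num) (pow_ne_zero 2 (mul_ne_zero (mul_ne_zero (hr 0) (hr 1)) (hr 2))),
    α 0, β 0, α 1, β 1, α 2, β 2, ?_⟩
  rw [show (3 : ℚ) * (r 0 * r 1 * r 2)^2 = (r 1 * r 2) * (r 2 * r 0) * (3 * (r 0 * r 1)) by ring,
    h0, h1, h2]

end

end Pool.Agent.Helper807.NF
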