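import Pool.Agent.Helper807.NF.Main7
import Pool.Agent.Helper807.NF.NonIso

set_option autoImplicit false
open scoped TensorProduct

namespace Pool.Agent.Helper807.NF

theorem form_class {N : Type} [LieRing N] [LieAlgebra ℚ N] (Φ : LR ≃ₗ⁅ℝ⁆ ℝ ⊗[ℚ] N) :
    ∃ t : Fin 3 → ℚ, (∀ i, t i ≠ 0) ∧ Nonempty (LL ℚ t ≃ₗ⁅ℚ⁆ N) := by
  obtain ⟨l, hl⟩ := exists_l
  obtain ⟨p, q, hp, hpa, hq, hqb⟩ := exists_pq Φ l hl
  obtain ⟨w, hw, r0, h0, hwv⟩ := exists_w0 Φ l hl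
  choose x hx r hr hxv using exists_x Φ l hl p q hpa hq hqb
  choose y hy z hz α β hn hyv hzv using exists_yz Φ l hl p q hpa hq hqb
  have F : Frame Φ l w x y z r0 r α β := ⟨hw, hwv, h0, hx, hr, hxv, hy, hz, hn, hyv, hzv⟩
  choose t ht1 ht using L3 Φ l hl w x y z r0 r α β F
  refine ⟨t, ?_, ?_⟩
  · intro i h
    have h1 := ht i
    rw [h] at h1
    simp only [Rat.cast_zero, zero_mul, mul_eq_zero] at h1
    exact h1.elim (hr _) (hr _)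
  · have hinj : Function.Injective (Psi p q w x y z t) := by
      rw [← LinearMap.ker_eq_bot, LinearMap.ker_eq_bot']
      exact fun X h => Psi_inj Φ l hl p q hp hpa hq hqb w x y z r0 r α β F t X h
    have hsurj : Function.Surjective (Psi p q w x y z t) :=
      fun u => Psi_surj Φ l hl p q hp hpa hq hqb w x y z r0 r α β F t u
    let e := LinearEquiv.ofBijective (Psi p q w x y z t) ⟨hinj, hsurj⟩
    exact ⟨{ e with
      map_lie' := by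
        intro X Y
        exact Psi_lie Φ l hl p q hp hpa hq hqb w x y z r0 r α β F t ht X Y }⟩

lemma norm_class (t τ' : Fin 3 → ℚ) (ht : ∀ i, t i ≠ 0) (hτ : ∀ i, τ' i ≠ 0)
    (h : GG (τ' 0 * τ' 1 * τ' 2 * (t 0 * t 1 * t 2))) :
    Nonempty (LL ℚ t ≃ₗ⁅ℚ⁆ LL ℚ τ') := by
  obtain ⟨hne, a, b, c, d, e, f, hh⟩ := h
  have hT : t 0 * t 1 * t 2 ≠ 0 := mul_ne_zero (mul_ne_zero (ht 0) (ht 1)) (ht 2)
  have hτT : τ' 0 * τ' 1 * τ' 2 ≠ 0 := mul_ne_zero (mul_ne_zero (hτ 0) (hτ 1)) (hτ 2)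
  set T := t 0 * t 1 * t 2 with hTd
  set α : Fin 3 → ℚ := ![a / T, c, e] with hα
  set β : Fin 3 → ℚ := ![b / T, d, f] with hβ
  have hm0 : a ^ 2 + b ^ 2 ≠ 0 := by
    intro h; rw [h, zero_mul, zero_mul] at hh; exact hne hh
  have hm1 : c ^ 2 - 17 * d ^ 2 ≠ 0 := by
    intro h; rw [h, mul_zero, zero_mul] at hh; exact hne hh
  have hm2 : e ^ 2 + 17 * f ^ 2 ≠ 0 := by
    intro h; rw [h, mul_zero] at hh; exact hne hh
  have d0 : (dd 0 : ℚ) = -1 := rfl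
  have d1 : (dd 1 : ℚ) = 17 := rfl
  have d2 : (dd 2 : ℚ) = -17 := rfl
  have n0 : α 0 ^ 2 - dd 0 * β 0 ^ 2 = (a ^ 2 + b ^ 2) / T ^ 2 := by
    rw [d0]; simp only [hα, hβ, Matrix.cons_val_zero]; field_simp; ring
  have n1 : α 1 ^ 2 - dd 1 * β 1 ^ 2 = (c ^ 2 - 17 * d ^ 2) := by
    rw [d1]; simp only [hα, hβ, Matrix.cons_val_one, Matrix.cons_val_zero]
  have n2 : α 2 ^ 2 - dd 2 * β 2 ^ 2 = (e ^ 2 + 17 * f ^ 2) := by
    rw [d2]; simp only [hα, hβ, Matrix.cons_val]; ring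
  have hn : ∀ i, α i ^ 2 - dd i * β i ^ 2 ≠ 0 := by
    intro i
    fin_cases i
    · show α 0 ^ 2 - dd 0 * β 0 ^ 2 ≠ 0
      rw [n0]; exact div_ne_zero hm0 (pow_ne_zero 2 hT)
    · show α 1 ^ 2 - dd 1 * β 1 ^ 2 ≠ 0
      rw [n1]; exact hm1
    · show α 2 ^ 2 - dd 2 * β 2 ^ 2 ≠ 0
      rw [n2]; exact hm2
  set A : Fin 3 → ℚ := fun i => (α i ^ 2 - dd i * β i ^ 2) * t i / τ' i with hA
  have hA0 : ∀ i, A i ≠ 0 := fun i => div_ne_zero (mul_ne_zero (hn i) (ht i)) (hτ i)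
  have hAp : A 0 * A 1 * A 2 = 1 := by
    simp only [hA]
    rw [n0, n1, n2]
    have h0 := hτ 0
    have h1 := hτ 1
    have h2 := hτ 2
    have g0 := ht 0
    have g1 := ht 1
    have g2 := ht 2
    rw [hTd]
    rw [hTd] at hh
    field_simp
    linear_combination -hh
  refine FF_bij (fun i => (A i)⁻¹) α β t τ' ?_ (fun i => inv_ne_zero (hA0 i)) hn
  have key : ∀ i, τ' i * A i = (α i ^ 2 - dd i * β i ^ 2) * t i := by
    intro i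
    have := hτ i
    simp only [hA]; field_simp
  have e01 : (0 + 1 : Fin 3) = 1 := rfl
  have e02 : (0 + 2 : Fin 3) = 2 := rfl
  have e11 : (1 + 1 : Fin 3) = 2 := rfl
  have e12 : (1 + 2 : Fin 3) = 0 := rfl
  have e21 : (2 + 1 : Fin 3) = 0 := rfl
  have e22 : (2 + 2 : Fin 3) = 1 := rfl
  have kk : ∀ i, (A (i+1))⁻¹ * (A (i+2))⁻¹ = A i := by
    intro i
    rw [← mul_inv, inv_eq_one_div, div_eq_iff (mul_ne_zero (hA0 _) (hA0 _)), ← hAp]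
    fin_cases i
    · show A 0 * A 1 * A 2 = A 0 * (A (0+1) * A (0+2))
      rw [e01, e02]; ring
    · show A 0 * A 1 * A 2 = A 1 * (A (1+1) * A (1+2))
      rw [e11, e12]; ring
    · show A 0 * A 1 * A 2 = A 2 * (A (2+1) * A (2+2))
      rw [e21, e22]; ring
  intro i
  show τ' i * ((A (i+1))⁻¹ * (A (i+2))⁻¹) = _
  rw [kk, key]

/-- the two structure vectors -/
abbrev tA : Fin 3 → ℚ := fun _ => 1
abbrev tB : Fin 3 → ℚ := fun i => if i = 2 then 3 else 1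

theorem two_classes {N : Type} [LieRing N] [LieAlgebra ℚ N] (Φ : LR ≃ₗ⁅ℝ⁆ ℝ ⊗[ℚ] N) :
    Nonempty (N ≃ₗ⁅ℚ⁆ LL ℚ tA) ∨ Nonempty (N ≃ₗ⁅ℚ⁆ LL ℚ tB) := by
  obtain ⟨t, ht, ⟨e⟩⟩ := form_class Φ
  have hT : t 0 * t 1 * t 2 ≠ 0 := mul_ne_zero (mul_ne_zero (ht 0) (ht 1)) (ht 2)
  rcases G3_all _ hT with h | h
  · left
    obtain ⟨f⟩ := norm_class t tA ht (fun _ => one_ne_zero) (by
      simpa [tA] using h)
    exact ⟨e.symm.trans f⟩
  · right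
    have b0 : tB 0 = 1 := rfl
    have b1 : tB 1 = 1 := rfl
    have b2 : tB 2 = 3 := rfl
    obtain ⟨f⟩ := norm_class t tB ht (by
      intro i; fin_cases i
      · show tB 0 ≠ 0
        rw [b0]; norm_num
      · show tB 1 ≠ 0
        rw [b1]; norm_num
      · show tB 2 ≠ 0
        rw [b2]; norm_num) (by
      rw [b0, b1, b2, one_mul, one_mul]; exact h)
    exact ⟨e.symm.trans f⟩

theorem real_iso : Nonempty (LR ≃ₗ⁅ℝ⁆ LL ℝ (fun i => ((tB i : ℚ) : ℝ))) := by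
  have b0 : tB 0 = 1 := rfl
  have b1 : tB 1 = 1 := rfl
  have b2 : tB 2 = 3 := rfl
  have h3 : (√3 : ℝ) ≠ 0 := by positivity
  refine FF_bij (fun _ => 1) ![1, 1, √3] (fun _ => 0) _ _ ?_ (fun _ => one_ne_zero) ?_
  · intro i
    fin_cases i
    · show ((tB 0 : ℚ) : ℝ) * (1 * 1) = (1 ^ 2 - dd 0 * 0 ^ 2) * 1
      rw [b0]; norm_num
    · show ((tB 1 : ℚ) : ℝ) * (1 * 1) = (1 ^ 2 - dd 1 * 0 ^ 2) * 1
      rw [b1]; norm_num
    · show ((tB 2 : ℚ) : ℝ) * (1 * 1) = (√3 ^ 2 - dd 2 * 0 ^ 2) * 1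
      rw [b2]; norm_num
  · intro i
    fin_cases i
    · show (1:ℝ) ^ 2 - dd 0 * 0 ^ 2 ≠ 0
      norm_num
    · show (1:ℝ) ^ 2 - dd 1 * 0 ^ 2 ≠ 0
      norm_num
    · show √3 ^ 2 - dd 2 * 0 ^ 2 ≠ 0
      norm_num

end Pool.Agent.Helper807.NF
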