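import Pool.Agent.Helper807.NF.Main8

set_option autoImplicit false
open scoped TensorProduct

namespace Pool.Agent.Helper807.NF

section
variable (k : Type) [Field k] (τ : Fin 3 → k)

def eqvL : LL k τ ≃ₗ[k] (k × k × VV k × VV k × VV k × (Fin 3 → k)) where
  toFun := LL.eqv
  invFun := LL.eqv.symm
  left_inv := LL.eqv.left_inv
  right_inv := LL.eqv.right_inv
  map_add' _ _ := rfl
  map_smul' _ _ := rfl

instance fd : FiniteDimensional k (LL k τ) := Module.Finite.equiv (eqvL k τ).symm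

lemma finrank_LL : Module.finrank k (LL k τ) = 35 := by
  rw [(eqvL k τ).finrank_eq]
  simp [Module.finrank_prod, Module.finrank_fintype_fun_eq_card]

end

lemma VV_span (S : Submodule ℝ (VV ℝ)) (h : ∀ v : VV ℚ, cv v ∈ S) (v : VV ℝ) : v ∈ S := by
  have e : v = v.1 • cv (1, 0, 0, 0) + ∑ i, v.2.1 i • cv (0, Pi.single i 1, 0, 0)
      + ∑ i, v.2.2.1 i • cv (0, 0, Pi.single i 1, 0)
      + ∑ i, v.2.2.2 i • cv (0, 0, 0, Pi.single i 1) := by
    simp only [Fin.sum_univ_three]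
    ext j
    · simp [cv]
    · fin_cases j <;> simp [cv]
    · fin_cases j <;> simp [cv]
    · fin_cases j <;> simp [cv]
  rw [e]
  exact S.add_mem (S.add_mem (S.add_mem (S.smul_mem _ (h _))
    (S.sum_mem fun i _ => S.smul_mem _ (h _))) (S.sum_mem fun i _ => S.smul_mem _ (h _)))
    (S.sum_mem fun i _ => S.smul_mem _ (h _))

section
variable (t : Fin 3 → ℚ)

/-- real version -/
abbrev LT := LL ℝ (fun i => ((t i : ℚ) : ℝ))

def cL (X : LL ℚ t) : LT t := ⟨X.a, X.b, cv X.v, cv X.v1, cv X.v2, fun i => X.z i⟩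

lemma cv_add (u v : VV ℚ) : cv (u + v) = cv u + cv v := by
  ext i <;> simp [cv]
lemma cv_sub (u v : VV ℚ) : cv (u - v) = cv u - cv v := by
  ext i <;> simp [cv]
lemma cv_smul (c : ℚ) (v : VV ℚ) : cv (c • v) = (c : ℝ) • cv v := by
  ext i <;> simp [cv]
lemma be_cv (u v : VV ℚ) : be (fun i => ((t i : ℚ) : ℝ)) (cv u) (cv v) =
    fun i => ((be t u v i : ℚ) : ℝ) := by
  ext i; simp [be, cv]

lemma cL_add (X Y : LL ℚ t) : cL t (X + Y) = cL t X + cL t Y := by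
  apply LL.ext <;> simp [cL, cv_add]
  ext i; simp
lemma cL_smul (c : ℚ) (X : LL ℚ t) : cL t (c • X) = (c : ℝ) • cL t X := by
  apply LL.ext <;> simp [cL, cv_smul]
  ext i; simp
lemma cL_lie (X Y : LL ℚ t) : cL t ⁅X, Y⁆ = ⁅cL t X, cL t Y⁆ := by
  apply LL.ext
  · simp [cL]
  · simp [cL]
  · simp only [cL, LL.br_v]; ext i <;> simp [cv]
  · simp only [cL, LL.br_v1, cv_sub, cv_smul]
  · simp only [cL, LL.br_v2, cv_sub, cv_add, cv_smul, cv_th]
  · simp only [cL, LL.br_z, be_cv]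

noncomputable instance modQ : Module ℚ (LT t) := Module.compHom (LT t) (algebraMap ℚ ℝ)
instance towQ : IsScalarTower ℚ ℝ (LT t) where
  smul_assoc c r X := by
    show (c • r) • X = (algebraMap ℚ ℝ c) • (r • X)
    rw [smul_smul, Algebra.smul_def]

noncomputable def cLL : LL ℚ t →ₗ[ℚ] LT t where
  toFun := cL t
  map_add' := cL_add t
  map_smul' c X := cL_smul t c X

noncomputable def BB : ℝ ⊗[ℚ] LL ℚ t →ₗ[ℝ] LT t := (cLL t).liftBaseChange ℝ

lemma BB_tmul (r : ℝ) (X : LL ℚ t) : BB t (r ⊗ₜ X) = r • cL t X := by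
  simp only [BB, LinearMap.liftBaseChange_tmul]; rfl

lemma BB_lie (U V : ℝ ⊗[ℚ] LL ℚ t) : BB t ⁅U, V⁆ = ⁅BB t U, BB t V⁆ := by
  induction U using TensorProduct.induction_on with
  | zero => simp
  | add x y hx hy => rw [add_lie, map_add, map_add, add_lie, hx, hy]
  | tmul r X =>
    induction V using TensorProduct.induction_on with
    | zero =>
      have h0 : ⁅r ⊗ₜ[ℚ] X, (0 : ℝ ⊗[ℚ] LL ℚ t)⁆ = 0 :=
        lie_zero (L := ℝ ⊗[ℚ] LL ℚ t) (M := ℝ ⊗[ℚ] LL ℚ t) _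
      rw [h0, map_zero, lie_zero]
    | add x y hx hy =>
      have h0 : ⁅r ⊗ₜ[ℚ] X, (x + y : ℝ ⊗[ℚ] LL ℚ t)⁆ = ⁅r ⊗ₜ[ℚ] X, x⁆ + ⁅r ⊗ₜ[ℚ] X, y⁆ :=
        lie_add (L := ℝ ⊗[ℚ] LL ℚ t) (M := ℝ ⊗[ℚ] LL ℚ t) _ _ _
      rw [h0, map_add, map_add, lie_add, hx, hy]
    | tmul s Y =>
      rw [LieAlgebra.ExtendScalars.bracket_tmul, BB_tmul, BB_tmul, BB_tmul, cL_lie,
        smul_lie, lie_smul, smul_smul]

def s1 : VV ℝ →ₗ[ℝ] LT t where
  toFun v := ⟨0, 0, v, 0, 0, 0⟩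
  map_add' _ _ := by apply LL.ext <;> simp
  map_smul' _ _ := by apply LL.ext <;> simp
def s2 : VV ℝ →ₗ[ℝ] LT t where
  toFun v := ⟨0, 0, 0, v, 0, 0⟩
  map_add' _ _ := by apply LL.ext <;> simp
  map_smul' _ _ := by apply LL.ext <;> simp
def s3 : VV ℝ →ₗ[ℝ] LT t where
  toFun v := ⟨0, 0, 0, 0, v, 0⟩
  map_add' _ _ := by apply LL.ext <;> simp
  map_smul' _ _ := by apply LL.ext <;> simp

lemma cv_zero : cv 0 = 0 := by ext i <;> simp [cv]

lemma BB_surj : Function.Surjective (BB t) := by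
  have hr : ∀ (r : ℝ) (X : LL ℚ t), r • cL t X ∈ LinearMap.range (BB t) :=
    fun r X => ⟨r ⊗ₜ X, BB_tmul t r X⟩
  have hr1 : ∀ (X : LL ℚ t), cL t X ∈ LinearMap.range (BB t) := fun X => by
    have := hr 1 X; rwa [one_smul] at this
  have h1 : ∀ v, s1 t v ∈ LinearMap.range (BB t) := fun v =>
    VV_span ((LinearMap.range (BB t)).comap (s1 t)) (fun u => by
      have := hr1 ⟨0, 0, u, 0, 0, 0⟩
      have e : cL t ⟨0, 0, u, 0, 0, 0⟩ = s1 t (cv u) := by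
        apply LL.ext <;> simp [cL, s1, cv_zero]
        ext i; simp
      rw [e] at this; exact this) v
  have h2 : ∀ v, s2 t v ∈ LinearMap.range (BB t) := fun v =>
    VV_span ((LinearMap.range (BB t)).comap (s2 t)) (fun u => by
      have := hr1 ⟨0, 0, 0, u, 0, 0⟩
      have e : cL t ⟨0, 0, 0, u, 0, 0⟩ = s2 t (cv u) := by
        apply LL.ext <;> simp [cL, s2, cv_zero]
        ext i; simp
      rw [e] at this; exact this) v
  have h3 : ∀ v, s3 t v ∈ LinearMap.range (BB t) := fun v =>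
    VV_span ((LinearMap.range (BB t)).comap (s3 t)) (fun u => by
      have := hr1 ⟨0, 0, 0, 0, u, 0⟩
      have e : cL t ⟨0, 0, 0, 0, u, 0⟩ = s3 t (cv u) := by
        apply LL.ext <;> simp [cL, s3, cv_zero]
        ext i; simp
      rw [e] at this; exact this) v
  intro X
  have e : X = X.a • cL t ⟨1, 0, 0, 0, 0, 0⟩ + X.b • cL t ⟨0, 1, 0, 0, 0, 0⟩ + s1 t X.v
      + s2 t X.v1 + s3 t X.v2 + ∑ i, X.z i • cL t ⟨0, 0, 0, 0, 0, Pi.single i 1⟩ := by
    simp only [Fin.sum_univ_three]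
    apply LL.ext
    · simp [cL, s1, s2, s3]
    · simp [cL, s1, s2, s3]
    · simp [cL, s1, s2, s3, cv_zero]
    · simp [cL, s1, s2, s3, cv_zero]
    · simp [cL, s1, s2, s3, cv_zero]
    · ext j
      fin_cases j <;> simp [cL, s1, s2, s3, cv_zero]
  rw [e]
  exact Submodule.add_mem _ (Submodule.add_mem _ (Submodule.add_mem _ (Submodule.add_mem _
    (Submodule.add_mem _ (hr _ _) (hr _ _)) (h1 _)) (h2 _)) (h3 _))
    (Submodule.sum_mem _ fun i _ => hr _ _)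

theorem base_change : Nonempty (LT t ≃ₗ⁅ℝ⁆ ℝ ⊗[ℚ] LL ℚ t) := by
  have hfr : Module.finrank ℝ (ℝ ⊗[ℚ] LL ℚ t) = Module.finrank ℝ (LT t) := by
    rw [Module.finrank_baseChange, finrank_LL, finrank_LL]
  have hinj : Function.Injective (BB t) :=
    (LinearMap.injective_iff_surjective_of_finrank_eq_finrank hfr).2 (BB_surj t)
  let e := LinearEquiv.ofBijective (BB t) ⟨hinj, BB_surj t⟩
  let e' : (ℝ ⊗[ℚ] LL ℚ t) ≃ₗ⁅ℝ⁆ LT t := { e with
      map_lie' := by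
        intro X Y
        exact BB_lie t X Y }
  exact ⟨e'.symm⟩

end

section nil
variable {k : Type} [Field k] {τ : Fin 3 → k}

def I1 : LieSubmodule k (LL k τ) (LL k τ) where
  carrier := {X | X.a = 0 ∧ X.b = 0 ∧ X.v = 0}
  add_mem' := by
    rintro X Y ⟨h1, h2, h3⟩ ⟨g1, g2, g3⟩
    exact ⟨by simp [h1, g1], by simp [h2, g2], by simp [h3, g3]⟩
  zero_mem' := ⟨rfl, rfl, rfl⟩
  smul_mem' := by
    rintro c X ⟨h1, h2, h3⟩
    exact ⟨by simp [h1], by simp [h2], by simp [h3]⟩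
  lie_mem := by
    intro X Y _
    exact ⟨rfl, rfl, rfl⟩

def I2 : LieSubmodule k (LL k τ) (LL k τ) where
  carrier := {X | X.a = 0 ∧ X.b = 0 ∧ X.v = 0 ∧ X.v1 = 0 ∧ X.z = 0}
  add_mem' := by
    rintro X Y ⟨h1, h2, h3, h4, h5⟩ ⟨g1, g2, g3, g4, g5⟩
    exact ⟨by simp [h1, g1], by simp [h2, g2], by simp [h3, g3], by simp [h4, g4], by simp [h5, g5]⟩
  zero_mem' := ⟨rfl, rfl, rfl, rfl, rfl⟩
  smul_mem' := by
    rintro c X ⟨h1, h2, h3, h4, h5⟩
    exact ⟨by simp [h1], by simp [h2], by simp [h3], by simp [h4], by simp [h5]⟩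
  lie_mem := by
    rintro X Y ⟨h1, h2, h3, h4, h5⟩
    exact ⟨rfl, rfl, rfl, by simp [h1, h3], by simp [h3, be_zero_right]⟩

theorem nilp : LieModule.lowerCentralSeries k (LL k τ) (LL k τ) 3 = ⊥ := by
  have a1 : LieModule.lowerCentralSeries k (LL k τ) (LL k τ) 1 ≤ I1 := by
    rw [show (1:ℕ) = 0 + 1 from rfl, LieModule.lowerCentralSeries_succ, LieSubmodule.lie_le_iff]
    intro X _ Y _
    exact ⟨rfl, rfl, rfl⟩
  have a2 : LieModule.lowerCentralSeries k (LL k τ) (LL k τ) 2 ≤ I2 := by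
    rw [show (2:ℕ) = 1 + 1 from rfl, LieModule.lowerCentralSeries_succ, LieSubmodule.lie_le_iff]
    intro X _ Y hY
    obtain ⟨h1, h2, h3⟩ := a1 hY
    exact ⟨rfl, rfl, rfl, by simp [h1, h3], by simp [h3, be_zero_right]⟩
  rw [eq_bot_iff, show (3:ℕ) = 2 + 1 from rfl, LieModule.lowerCentralSeries_succ,
    LieSubmodule.lie_le_iff]
  intro X _ Y hY
  obtain ⟨h1, h2, h3, h4, h5⟩ := a2 hY
  rw [LieSubmodule.mem_bot]
  apply LL.ext <;> simp [h1, h2, h3, h4, th_zero, be_zero_right]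

end nil

end Pool.Agent.Helper807.NF
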