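import Mathlib

set_option autoImplicit false

namespace Pool.Agent.Helper807.NF

/-- product of three norms -/
def GG (t : ℚ) : Prop := t ≠ 0 ∧ ∃ a b c d e f : ℚ,
  t = (a^2 + b^2) * (c^2 - 17 * d^2) * (e^2 + 17 * f^2)

lemma GG.mul {s t : ℚ} (hs : GG s) (ht : GG t) : GG (s * t) := by
  obtain ⟨hs0, a, b, c, d, e, f, hs⟩ := hs
  obtain ⟨ht0, a', b', c', d', e', f', ht⟩ := ht
  refine ⟨mul_ne_zero hs0 ht0, a*a' - b*b', a*b'+b*a', c*c'+17*d*d', c*d'+d*c',
    e*e' - 17*f*f', e*f' + f*e', ?_⟩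
  rw [hs, ht]; ring

lemma GG.inv {s : ℚ} (hs : GG s) : GG (s⁻¹) := by
  obtain ⟨hs0, a, b, c, d, e, f, hs⟩ := hs
  have h1 : a^2 + b^2 ≠ 0 := by rintro h; apply hs0; rw [hs, h]; ring
  have h2 : c^2 - 17*d^2 ≠ 0 := by rintro h; apply hs0; rw [hs, h]; ring
  have h3 : e^2 + 17*f^2 ≠ 0 := by rintro h; apply hs0; rw [hs, h]; ring
  refine ⟨inv_ne_zero hs0, a/(a^2+b^2), b/(a^2+b^2), c/(c^2-17*d^2), d/(c^2-17*d^2),
    e/(e^2+17*f^2), f/(e^2+17*f^2), ?_⟩
  rw [hs]; field_simp

lemma GG_sq {s : ℚ} (hs : s ≠ 0) : GG (s * s) :=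
  ⟨mul_ne_zero hs hs, s, 0, 1, 0, 1, 0, by ring⟩

lemma GG_one : GG 1 := ⟨one_ne_zero, 1, 0, 1, 0, 1, 0, by norm_num⟩
lemma GG_neg_one : GG (-1) := ⟨by norm_num, 1, 0, 4, 1, 1, 0, by norm_num⟩

def G3 (t : ℚ) : Prop := GG t ∨ GG (3 * t)

lemma G3.mul {s t : ℚ} (hs : G3 s) (ht : G3 t) : G3 (s * t) := by
  rcases hs with hs | hs <;> rcases ht with ht | ht
  · exact Or.inl (hs.mul ht)
  · right; have := hs.mul ht; convert this using 1; ring
  · right; have := hs.mul ht; convert this using 1; ring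
  · left
    have h := (hs.mul ht).mul (GG_sq (s := (1/3 : ℚ)) (by norm_num))
    convert h using 1; ring

lemma G3.inv {s : ℚ} (hs : G3 s) : G3 (s⁻¹) := by
  rcases hs with hs | hs
  · exact Or.inl hs.inv
  · right
    have h := hs.inv.mul (GG_sq (s := (3 : ℚ)) (by norm_num))
    convert h using 1
    have : s ≠ 0 := by
      rintro rfl; exact hs.1 (by ring)
    field_simp
    try norm_num

lemma G3_neg {s : ℚ} (hs : G3 s) : G3 (-s) := by
  have := (show G3 (-1) from Or.inl GG_neg_one).mul hs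
  simpa using this

lemma G3_nat_of_primes (n : ℕ) (hn : n ≠ 0)
    (h : ∀ p : ℕ, p.Prime → p ∣ n → G3 (p : ℚ)) : G3 (n : ℚ) := by
  induction n using Nat.recOnMul with
  | zero => exact absurd rfl hn
  | one => exact Or.inl (by simpa using GG_one)
  | prime p hp => exact h p hp dvd_rfl
  | mul a b iha ihb =>
    have ha : a ≠ 0 := by rintro rfl; simp at hn
    have hb : b ≠ 0 := by rintro rfl; simp at hn
    push_cast
    exact (iha ha fun p hp hd => h p hp (Dvd.dvd.mul_right hd b)).mul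
      (ihb hb fun p hp hd => h p hp (Dvd.dvd.mul_left hd a))

lemma exists_sq (p : ℕ) [hp : Fact p.Prime] (h4 : p % 4 = 3) :
    (∃ m : ℤ, (p : ℤ) ∣ m^2 - 17) ∨ (∃ m : ℤ, (p : ℤ) ∣ m^2 + 17) := by
  have h2 : p ≠ 2 := by rintro rfl; norm_num at h4
  by_cases h0 : ((17 : ℤ) : ZMod p) = 0
  · left
    refine ⟨0, ?_⟩
    have := (ZMod.intCast_zmod_eq_zero_iff_dvd 17 p).1 h0
    simpa using (dvd_neg.2 this)
  by_cases hs : IsSquare ((17 : ℤ) : ZMod p)
  · left
    obtain ⟨y, hy⟩ := hs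
    obtain ⟨m, rfl⟩ := ZMod.intCast_surjective y
    refine ⟨m, ?_⟩
    rw [← ZMod.intCast_zmod_eq_zero_iff_dvd]
    push_cast
    rw [show ((17 : ZMod p)) = ((17 : ℤ) : ZMod p) by push_cast; rfl, hy]
    ring
  · right
    have h17 : legendreSym p 17 = -1 := by
      rw [legendreSym.eq_neg_one_iff]; exact hs
    have h1 : legendreSym p (-1) = -1 := by
      rw [legendreSym.at_neg_one h2, ZMod.χ₄_nat_three_mod_four h4]
    have h3 : legendreSym p (-17) = 1 := by
      have : legendreSym p (-1 * 17) = legendreSym p (-1) * legendreSym p 17 :=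
        legendreSym.mul p (-1) 17
      rw [h17, h1] at this
      simpa using this
    have h0' : ((-17 : ℤ) : ZMod p) ≠ 0 := by
      intro h; apply h0; push_cast at h ⊢; simpa using h
    obtain ⟨y, hy⟩ := (legendreSym.eq_one_iff p h0').1 h3
    obtain ⟨m, rfl⟩ := ZMod.intCast_surjective y
    refine ⟨m, ?_⟩
    rw [← ZMod.intCast_zmod_eq_zero_iff_dvd]
    push_cast at hy ⊢
    linear_combination -hy

lemma small_rep (p : ℕ) (hp : p.Prime) (m : ℤ) :
    ∃ r : ℤ, (p : ℤ) ∣ m - r ∧ 4 * r^2 ≤ (p : ℤ)^2 := by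
  have hp0 : (0 : ℤ) < p := by exact_mod_cast hp.pos
  refine ⟨Int.bmod m p, ?_, ?_⟩
  · have h : (Int.bmod m p) % (p : ℤ) = m % p := by simp
    exact (Int.modEq_iff_dvd).1 h
  · have h1 := Int.le_bmod (x := m) (m := p) hp.pos
    have h2 := Int.bmod_le (x := m) (m := p) hp.pos
    have h3 : -(p : ℤ) ≤ 2 * Int.bmod m p := by omega
    have h4 : 2 * Int.bmod m p ≤ p := by omega
    nlinarith

lemma G3_prime (p : ℕ) (hp : p.Prime) : G3 (p : ℚ) := by
  induction p using Nat.strong_induction_on with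
  | _ p ih =>
  by_cases h4 : p % 4 = 3
  · haveI := Fact.mk hp
    by_cases h3 : p = 3
    · subst h3
      right
      have := GG_sq (s := (3:ℚ)) (by norm_num)
      push_cast; exact this
    have hp5 : 5 ≤ p := by
      have := hp.two_le
      by_contra hlt
      interval_cases p <;> simp_all
    have key : ∀ (s : ℤ) (_ : s = 17 ∨ s = -17) (r : ℤ), (p : ℤ) ∣ r^2 - s →
        4 * r^2 ≤ (p:ℤ)^2 → G3 (((r^2 - s : ℤ)) : ℚ) → r^2 - s ≠ 0 → G3 (p : ℚ) := by
      intro s hs r hd hr hG h0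
      obtain ⟨k, hk⟩ := hd
      have hk0 : k ≠ 0 := by rintro rfl; apply h0; rw [hk]; ring
      have hkp : k.natAbs < p := by
        have hp5' : (5 : ℤ) ≤ p := by exact_mod_cast hp5
        have h1 : |k| * p < p * p := by
          rw [show |k| * (p : ℤ) = |k * p| by rw [abs_mul]; simp]
          rw [mul_comm k, ← hk, abs_lt]
          rcases hs with rfl | rfl <;> constructor <;> nlinarith
        have h2 : |k| < p := lt_of_mul_lt_mul_right h1 (by positivity)
        have h3 : ((k.natAbs : ℕ) : ℤ) = |k| := by simp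
        have h4 : ((k.natAbs : ℕ) : ℤ) < p := by rw [h3]; exact h2
        exact_mod_cast h4
      have hkG : G3 ((k.natAbs : ℕ) : ℚ) := by
        apply G3_nat_of_primes _ (by omega)
        intro q hq hqd
        apply ih q _ hq
        exact lt_of_le_of_lt (Nat.le_of_dvd (by omega) hqd) hkp
      have hkG' : G3 (k : ℚ) := by
        rcases Int.natAbs_eq k with h | h
        · have e : (k : ℚ) = ((k.natAbs : ℕ) : ℚ) := by
            rw [← Int.cast_natCast, ← h]
          rw [e]; exact hkG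
        · have e : (k : ℚ) = -((k.natAbs : ℕ) : ℚ) := by
            rw [← Int.cast_natCast, ← Int.cast_neg, ← h]
          rw [e]; exact G3_neg hkG
      have hp' : (p : ℚ) = ((r^2 - s : ℤ) : ℚ) * (k : ℚ)⁻¹ := by
        rw [hk]; push_cast
        have : (k : ℚ) ≠ 0 := by exact_mod_cast hk0
        field_simp
      rw [hp']
      exact hG.mul hkG'.inv
    rcases exists_sq p h4 with ⟨m, hm⟩ | ⟨m, hm⟩
    · obtain ⟨r, hr1, hr2⟩ := small_rep p hp m
      have hrd : (p : ℤ) ∣ r^2 - 17 := by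
        have : r^2 - 17 = (m^2 - 17) - (m - r) * (m + r) := by ring
        rw [this]
        exact dvd_sub hm (Dvd.dvd.mul_right hr1 _)
      have hne : r^2 - 17 ≠ 0 := by
        intro h
        have h1 : r ≤ 4 := by nlinarith
        have h2 : -4 ≤ r := by nlinarith
        interval_cases r <;> omega
      refine key 17 (Or.inl rfl) r hrd hr2 ?_ hne
      left
      refine ⟨by exact_mod_cast hne, 1, 0, r, 1, 1, 0, ?_⟩
      push_cast; ring
    · obtain ⟨r, hr1, hr2⟩ := small_rep p hp m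
      have hrd : (p : ℤ) ∣ r^2 - (-17) := by
        have : r^2 - (-17) = (m^2 + 17) - (m - r) * (m + r) := by ring
        rw [this]
        exact dvd_sub hm (Dvd.dvd.mul_right hr1 _)
      have hne : r^2 - (-17) ≠ 0 := by nlinarith [sq_nonneg r]
      refine key (-17) (Or.inr rfl) r hrd hr2 ?_ hne
      left
      refine ⟨by exact_mod_cast hne, 1, 0, 1, 0, r, 1, ?_⟩
      push_cast; ring
  · haveI := Fact.mk hp
    obtain ⟨a, b, hab⟩ := Nat.Prime.sq_add_sq (p := p) h4
    left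
    refine ⟨by exact_mod_cast hp.ne_zero, a, b, 1, 0, 1, 0, ?_⟩
    rw [← hab]; push_cast; ring

theorem G3_all (t : ℚ) (ht : t ≠ 0) : G3 t := by
  have hnum : G3 (t.num : ℚ) := by
    have h0 : t.num.natAbs ≠ 0 := by
      simpa using ht
    have := G3_nat_of_primes t.num.natAbs h0 (fun p hp _ => G3_prime p hp)
    rcases Int.natAbs_eq t.num with h | h
    · have e : (t.num : ℚ) = ((t.num.natAbs : ℕ) : ℚ) := by
        rw [← Int.cast_natCast, ← h]
      rw [e]; exact this
    · have e : (t.num : ℚ) = -((t.num.natAbs : ℕ) : ℚ) := by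
        rw [← Int.cast_natCast, ← Int.cast_neg, ← h]
      rw [e]; exact G3_neg this
  have hden : G3 (t.den : ℚ) := G3_nat_of_primes t.den t.den_ne_zero (fun p hp _ => G3_prime p hp)
  have := hnum.mul hden.inv
  rwa [← div_eq_mul_inv, Rat.num_div_den] at this

end Pool.Agent.Helper807.NF
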